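import Pool.Agent.Work.MP_bf98aa_gt.Piola

/-!
Linear algebra of a pinched matrix, part A.

PLAN. S = Mᵀ * M, (M v) ⬝ᵥ (M v) = v ⬝ᵥ S v. pin_entry: R = S - m • 1 is symmetric with 0 ≤ v ⬝ᵥ R v ≤ e m v ⬝ᵥ v; test with
v = single i 1 (0 ≤ R i i ≤ e m) and v = single i 1 ± single j 1 (2 |R i j| ≤ R i i + R j j). pin_det: S is Hermitian;
its eigenvalues lie in [m, (1 + e) m] (test with eigenvectorBasis, mulVec_eigenvectorBasis), det S = product of the
eigenvalues (IsHermitian.det_eq_prod_eigenvalues), det S = det M ^ 2. pin_inv: test the lower bound with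
v = M⁻¹ *ᵥ single j 1. pin_norm: ‖toW M‖^2 = ∑ j, S j j (EuclideanSpace.real_norm_sq_eq, Fintype.sum_prod_type).
-/

set_option autoImplicit false
set_option linter.unusedSectionVars false

open MeasureTheory Metric Matrix
open scoped ContDiff RealInnerProductSpace

namespace Pool.Agent.Work.MP_bf98aa_gt

variable {ι : Type} [Fintype ι] [DecidableEq ι]

/-- The pinching condition for one matrix. -/
def PinM (e m : ℝ) (M : Matrix ι ι ℝ) : Prop :=
  ∀ v : ι → ℝ, m * (v ⬝ᵥ v) ≤ (M *ᵥ v) ⬝ᵥ (M *ᵥ v) ∧ (M *ᵥ v) ⬝ᵥ (M *ᵥ v) ≤ (1 + e) * m * (v ⬝ᵥ v)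

lemma ApproxA_dot (M : Matrix ι ι ℝ) (v w : ι → ℝ) :
    (M *ᵥ v) ⬝ᵥ (M *ᵥ w) = v ⬝ᵥ ((Mᵀ * M) *ᵥ w) := by
  rw [← Matrix.mulVec_mulVec, Matrix.dotProduct_mulVec v, Matrix.vecMul_transpose]

lemma ApproxA_single (M : Matrix ι ι ℝ) (i j : ι) :
    (M *ᵥ Pi.single i 1) ⬝ᵥ (M *ᵥ Pi.single j 1) = (Mᵀ * M) i j := by
  rw [ApproxA_dot]
  simp

lemma ApproxA_diag {e m : ℝ} {M : Matrix ι ι ℝ} (h : PinM e m M) (i : ι) :
    m ≤ (Mᵀ * M) i i ∧ (Mᵀ * M) i i ≤ (1 + e) * m := by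
  have := h (Pi.single i 1)
  rw [ApproxA_single] at this
  simpa using this

lemma pin_entry {e m : ℝ} {M : Matrix ι ι ℝ} (h : PinM e m M) (i j : ι) :
    |(Mᵀ * M) i j - if i = j then m else 0| ≤ e * m := by
  have hi := ApproxA_diag h i
  have hj := ApproxA_diag h j
  split_ifs with hij
  · subst hij
    rw [abs_le]
    constructor <;> linarith [hi.1, hi.2]
  · have h1 := (h (Pi.single i 1 + Pi.single j 1)).1
    have h2 := (h (Pi.single i 1 - Pi.single j 1)).1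
    have hs : (Mᵀ * M) j i = (Mᵀ * M) i j := by
      rw [← ApproxA_single, ← ApproxA_single, dotProduct_comm]
    have e1 : (Pi.single i 1 : ι → ℝ) ⬝ᵥ (Pi.single j 1 : ι → ℝ) = 0 := by
      simp [hij]
    have e2 : (Pi.single j 1 : ι → ℝ) ⬝ᵥ (Pi.single i 1 : ι → ℝ) = 0 := by
      rw [dotProduct_comm, e1]
    have e3 : ∀ l, (Pi.single l 1 : ι → ℝ) ⬝ᵥ (Pi.single l 1 : ι → ℝ) = 1 := fun l => by simp
    simp only [Matrix.mulVec_add, Matrix.mulVec_sub, add_dotProduct, dotProduct_add,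
      sub_dotProduct, dotProduct_sub, ApproxA_single, e1, e2, e3, hs] at h1 h2
    rw [sub_zero, abs_le]
    constructor <;> linarith [hi.1, hi.2, hj.1, hj.2]

lemma pin_det {e m : ℝ} {M : Matrix ι ι ℝ} (hm : 0 < m) (h : PinM e m M) :
    m ^ Fintype.card ι ≤ M.det ^ 2 ∧ M.det ^ 2 ≤ ((1 + e) * m) ^ Fintype.card ι := by
  have hH : (Mᵀ * M).IsHermitian := by
    have := Matrix.isHermitian_conjTranspose_mul_self M
    rwa [Matrix.conjTranspose_eq_transpose_of_trivial] at this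
  have hd : M.det ^ 2 = ∏ i, hH.eigenvalues i := by
    have := hH.det_eq_prod_eigenvalues
    rw [Matrix.det_mul, Matrix.det_transpose] at this
    rw [sq, this]
    simp
  have hev : ∀ i, m ≤ hH.eigenvalues i ∧ hH.eigenvalues i ≤ (1 + e) * m := by
    intro i
    have h1 := h (hH.eigenvectorBasis i).ofLp
    have h2 : (hH.eigenvectorBasis i).ofLp ⬝ᵥ (hH.eigenvectorBasis i).ofLp = 1 := by
      have h3 := hH.eigenvectorBasis.orthonormal.1 i
      have h4 := EuclideanSpace.real_norm_sq_eq (hH.eigenvectorBasis i)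
      rw [h3] at h4
      simp only [dotProduct, ← sq]
      rw [← h4]
      norm_num
    rw [ApproxA_dot, hH.mulVec_eigenvectorBasis, dotProduct_smul, h2] at h1
    simpa using h1
  rw [hd]
  constructor
  · rw [← Finset.card_univ, ← Finset.prod_const]
    exact Finset.prod_le_prod (fun _ _ => hm.le) fun i _ => (hev i).1
  · rw [← Finset.card_univ, ← Finset.prod_const]
    exact Finset.prod_le_prod (fun i _ => hm.le.trans (hev i).1) fun i _ => (hev i).2

lemma pin_inv {e m : ℝ} {M : Matrix ι ι ℝ} (hm : 0 < m) (h : PinM e m M) (i j : ι) :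
    m * M⁻¹ i j ^ 2 ≤ 1 := by
  have hd : IsUnit M.det := by
    rw [isUnit_iff_ne_zero]
    intro h0
    have := (pin_det hm h).1
    rw [h0] at this
    have h1 := pow_pos hm (Fintype.card ι)
    norm_num at this
    linarith
  have h1 := (h (M⁻¹ *ᵥ Pi.single j 1)).1
  rw [Matrix.mulVec_mulVec, Matrix.mul_nonsing_inv _ hd, Matrix.one_mulVec] at h1
  have h2 : (Pi.single j 1 : ι → ℝ) ⬝ᵥ (Pi.single j 1 : ι → ℝ) = 1 := by simp
  have h3 : M⁻¹ i j ^ 2 ≤ (M⁻¹ *ᵥ Pi.single j 1) ⬝ᵥ (M⁻¹ *ᵥ Pi.single j 1) := by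
    rw [Matrix.mulVec_single_one, dotProduct, sq]
    exact Finset.single_le_sum (f := fun l => M⁻¹.col j l * M⁻¹.col j l)
      (fun l _ => mul_self_nonneg _) (Finset.mem_univ i)
  rw [h2] at h1
  exact (mul_le_mul_of_nonneg_left h3 hm.le).trans h1

lemma pin_norm {e m : ℝ} {M : Matrix ι ι ℝ} (h : PinM e m M) :
    Fintype.card ι * m ≤ ‖toW M‖ ^ 2 ∧ ‖toW M‖ ^ 2 ≤ Fintype.card ι * ((1 + e) * m) := by
  have h1 : ‖toW M‖ ^ 2 = ∑ j, (Mᵀ * M) j j := by
    rw [EuclideanSpace.real_norm_sq_eq, Fintype.sum_prod_type, Finset.sum_comm]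
    simp [Matrix.mul_apply, sq]
  rw [h1]
  constructor
  · have := Finset.card_nsmul_le_sum Finset.univ (fun j => (Mᵀ * M) j j) m
      fun j _ => (ApproxA_diag h j).1
    simpa using this
  · have := Finset.sum_le_card_nsmul Finset.univ (fun j => (Mᵀ * M) j j) ((1 + e) * m)
      fun j _ => (ApproxA_diag h j).2
    simpa using this

end Pool.Agent.Work.MP_bf98aa_gt
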