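import Pool.Agent.Work.MP_bf98aa_gt.ApproxA

/-!
Linear algebra of a pinched skew matrix, part B, and the system attached to a pinched form.

PLAN. N = card ι = 2 n, n = k + 2, q = sqrt m, ν = sqrt N, X = ‖toW M‖, so ν q ≤ X ≤ (1 + e) ν q (pin_norm).
pinW_of_pin: M * Mᵀ = Mᵀ * M for skew M; |N S i j - δ X^2| ≤ N |S i j - δ m| + |N m - X^2| ≤ 2 e N m ≤ 2 e X^2.
approx: μ = dens M > 0 has μ^4 = det^2 (exp_log of |det|, Real.log_abs), so q^n ≤ μ ≤ (1 + e)^n q^n (pin_det,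
pow_le_pow_left₀ and its converse with exponent 4). - M⁻¹ - m⁻¹ • M = m⁻¹ • M⁻¹ * (Mᵀ * M - m • 1), whose entries are at
most N e / q (pin_inv, pin_entry). The vector equals ν^k μ • toW (- M⁻¹ - m⁻¹ • M) + (ν^k μ / m - X^k) • toW M; both
ν^k μ / m and X^k lie in [(ν q)^k, (1 + e)^n (ν q)^k] and (1 + e)^n - 1 ≤ 2^n e n for e ≤ 1; norm_le_card_mul.
sys_of_pinched: F x = toW ((-(ν^k * dens (w x))) • (w x)⁻¹); smooth_piola, piola, pd_const_mul,
transpose_nonsing_inv and Matrix.inv_neg (or inv_eq_right_inv) for skewness; C = max C 2.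
-/

set_option autoImplicit false
set_option linter.unusedSectionVars false

open MeasureTheory Metric Matrix
open scoped ContDiff RealInnerProductSpace

namespace Pool.Agent.Work.MP_bf98aa_gt

variable {ι : Type} [Fintype ι] [DecidableEq ι]

lemma ApproxB_skew {M : Matrix ι ι ℝ} (hk : Mᵀ = -M) (i j : ι) : M j i = -M i j :=
  congrFun (congrFun hk i) j

lemma ApproxB_pow {e : ℝ} (h0 : 0 ≤ e) (h1 : e ≤ 1) (n : ℕ) : (1 + e) ^ n ≤ 1 + (2 ^ n - 1) * e := by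
  induction n with
  | zero => simp
  | succ n ih =>
    have h2 : (1 : ℝ) ≤ 2 ^ n := one_le_pow₀ (by norm_num)
    have h3 := mul_le_mul_of_nonneg_right ih (by linarith : 0 ≤ 1 + e)
    have h4 : (2 ^ n - 1) * e * e ≤ (2 ^ n - 1) * e * 1 :=
      mul_le_mul_of_nonneg_left h1 (mul_nonneg (by linarith) h0)
    rw [pow_succ, pow_succ]
    linarith

lemma ApproxB_real (k : ℕ) {e q ν μ X N a b : ℝ} (h0 : 0 ≤ e) (h1 : e ≤ 1) (hq : 0 < q)
    (hν : 1 ≤ ν) (x1 : ν * q ≤ X) (x2 : X ≤ (1 + e) * (ν * q)) (m1 : q ^ (k + 2) ≤ μ)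
    (m2 : μ ≤ (1 + e) ^ (k + 2) * q ^ (k + 2)) (hab : |-a - (q ^ 2)⁻¹ * b| ≤ N * e / q)
    (hb : |b| ≤ X) :
    |-(ν ^ k * μ) * a - X ^ k * b| ≤ (2 ^ (k + 2) * N + 2 ^ (k + 2)) * e * X ^ (k + 1) := by
  have hν0 : 0 < ν := by linarith
  have hμ : 0 < μ := (pow_pos hq _).trans_le m1
  have hX : 0 < X := (mul_pos hν0 hq).trans_le x1
  have e1 : -(ν ^ k * μ) * a - X ^ k * b =
      ν ^ k * μ * (-a - (q ^ 2)⁻¹ * b) + (ν ^ k * μ / q ^ 2 - X ^ k) * b := by ring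
  have p1 : (ν * q) ^ k ≤ X ^ k := pow_le_pow_left₀ (by positivity) x1 k
  have p2 : (1 + e) ^ (k + 2) ≤ 2 ^ (k + 2) := pow_le_pow_left₀ (by positivity) (by linarith) _
  have p3 : X ^ k ≤ (1 + e) ^ (k + 2) * (ν * q) ^ k := by
    refine (pow_le_pow_left₀ hX.le x2 k).trans ?_
    rw [mul_pow]
    exact mul_le_mul_of_nonneg_right (pow_le_pow_right₀ (by linarith) (by omega)) (by positivity)
  have p4 : (ν * q) ^ k ≤ ν ^ k * μ / q ^ 2 := by
    rw [le_div_iff₀ (by positivity), mul_pow, mul_assoc, ← pow_add]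
    exact mul_le_mul_of_nonneg_left m1 (by positivity)
  have p5 : ν ^ k * μ / q ^ 2 ≤ (1 + e) ^ (k + 2) * (ν * q) ^ k := by
    rw [div_le_iff₀ (by positivity)]
    refine (mul_le_mul_of_nonneg_left m2 (by positivity)).trans_eq ?_
    ring
  have p6 : ((1 + e) ^ (k + 2) - 1) * (ν * q) ^ k ≤ 2 ^ (k + 2) * e * X ^ k :=
    mul_le_mul (by linarith [ApproxB_pow h0 h1 (k + 2)]) p1 (by positivity) (by positivity)
  have p7 : |ν ^ k * μ / q ^ 2 - X ^ k| ≤ 2 ^ (k + 2) * e * X ^ k :=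
    abs_le.2 ⟨by linarith, by linarith⟩
  have p8 : ν ^ k * μ ≤ 2 ^ (k + 2) * X ^ (k + 1) * q := by
    have a1 : ν ^ k * q ^ (k + 1) ≤ X ^ (k + 1) := by
      refine le_trans ?_ (pow_le_pow_left₀ (by positivity) x1 (k + 1))
      rw [mul_pow]
      exact mul_le_mul_of_nonneg_right (pow_le_pow_right₀ hν (by omega)) (by positivity)
    calc ν ^ k * μ ≤ ν ^ k * (2 ^ (k + 2) * q ^ (k + 2)) :=
          mul_le_mul_of_nonneg_left (m2.trans (mul_le_mul_of_nonneg_right p2 (by positivity)))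
            (by positivity)
      _ = 2 ^ (k + 2) * (ν ^ k * q ^ (k + 1)) * q := by ring
      _ ≤ _ := by gcongr
  rw [e1]
  refine (abs_add_le _ _).trans ?_
  rw [abs_mul, abs_mul (_ - _), abs_of_pos (by positivity : 0 < ν ^ k * μ)]
  refine (add_le_add (mul_le_mul p8 hab (abs_nonneg _) (by positivity))
    (mul_le_mul p7 hb (abs_nonneg _) (by positivity))).trans_eq ?_
  field_simp
  ring

lemma ApproxB_dens {M : Matrix ι ι ℝ} (h : M.det ≠ 0) : dens M ^ 4 = M.det ^ 2 := by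
  rw [dens, ← Real.exp_nat_mul, ← Real.exp_log (sq_pos_of_ne_zero h), Real.log_pow]
  congr 1
  push_cast
  ring

lemma ApproxB_entry {e m : ℝ} {M : Matrix ι ι ℝ} (hm : 0 < m) (hk : Mᵀ = -M)
    (h : PinM e m M) (hd : M.det ≠ 0) (i j : ι) :
    |-M⁻¹ i j - m⁻¹ * M i j| ≤ Fintype.card ι * e / √m := by
  have hq : 0 < √m := Real.sqrt_pos.2 hm
  have e1 : M⁻¹ * (Mᵀ * M - m • (1 : Matrix ι ι ℝ)) = -M - m • M⁻¹ := by
    rw [hk, Matrix.mul_sub, Matrix.neg_mul, Matrix.mul_neg,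
      Matrix.nonsing_inv_mul_cancel_left _ _ (isUnit_iff_ne_zero.2 hd), Matrix.mul_smul,
      Matrix.mul_one]
  have e2 : -M⁻¹ i j - m⁻¹ * M i j =
      m⁻¹ * ∑ l, M⁻¹ i l * ((Mᵀ * M) l j - if l = j then m else 0) := by
    have := congrFun (congrFun e1 i) j
    simp only [Matrix.mul_apply (M := M⁻¹), Matrix.sub_apply, Matrix.smul_apply, Matrix.one_apply,
      smul_eq_mul, mul_ite, mul_one, mul_zero, Matrix.neg_apply] at this
    rw [this]
    field_simp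
    ring
  have b1 : ∀ l, |M⁻¹ i l| ≤ (√m)⁻¹ := fun l => by
    refine abs_le_of_sq_le_sq' ?_ (by positivity) |> abs_le.2
    rw [inv_pow, Real.sq_sqrt hm.le, ← one_div m, le_div_iff₀' hm]
    exact pin_inv hm h i l
  rw [e2, abs_mul, abs_of_pos (inv_pos.2 hm)]
  have b2 : |∑ l, M⁻¹ i l * ((Mᵀ * M) l j - if l = j then m else 0)| ≤
      Fintype.card ι * ((√m)⁻¹ * (e * m)) := by
    refine (Finset.abs_sum_le_sum_abs _ _).trans ?_
    rw [← Finset.card_univ, ← nsmul_eq_mul, ← Finset.sum_const]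
    refine Finset.sum_le_sum fun l _ => ?_
    rw [abs_mul]
    exact mul_le_mul (b1 l) (pin_entry h l j) (abs_nonneg _) (by positivity)
  refine (mul_le_mul_of_nonneg_left b2 (by positivity)).trans_eq ?_
  field_simp

lemma pinW_of_pin {e m : ℝ} {M : Matrix ι ι ℝ} (he : 0 ≤ e) (hm : 0 < m) (hk : Mᵀ = -M)
    (h : PinM e m M) : PinW (2 * e) (toW M) := by
  intro i j
  have e1 : ∑ l, toW M (i, l) * toW M (j, l) = (Mᵀ * M) i j := by
    rw [Matrix.mul_apply]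
    refine Finset.sum_congr rfl fun l _ => ?_
    simp only [toW_apply, transpose_apply]
    rw [ApproxB_skew hk l i, ApproxB_skew hk l j]
    ring
  obtain ⟨n1, n2⟩ := pin_norm h
  have hN : (0 : ℝ) ≤ Fintype.card ι := Nat.cast_nonneg _
  have a1 := abs_le.1 (pin_entry h i j)
  have a2 := mul_le_mul_of_nonneg_left a1.1 hN
  have a3 := mul_le_mul_of_nonneg_left a1.2 hN
  have a4 := mul_le_mul_of_nonneg_left n1 he
  have a5 : 0 ≤ e * (Fintype.card ι * m) := by positivity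
  rw [e1, abs_le]
  split_ifs at a2 a3 ⊢ <;> constructor <;> linarith

lemma approx (k : ℕ) (hN : Fintype.card ι = 2 * (k + 2)) : ∃ C : ℝ, 0 < C ∧
    ∀ e m : ℝ, 0 ≤ e → e ≤ 1 → 0 < m → ∀ M : Matrix ι ι ℝ, Mᵀ = -M → PinM e m M →
    ‖toW ((-(√(Fintype.card ι : ℝ) ^ k * dens M)) • M⁻¹) - ‖toW M‖ ^ k • toW M‖
      ≤ C * e * ‖toW M‖ ^ (k + 1) := by
  have hN0 : (1 : ℝ) ≤ Fintype.card ι := by
    rw [hN]
    exact_mod_cast (by omega : 1 ≤ 2 * (k + 2))
  refine ⟨(Fintype.card ι : ℝ) ^ 2 * (2 ^ (k + 2) * Fintype.card ι + 2 ^ (k + 2)), by positivity,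
    fun e m h0 h1 hm M hk h => ?_⟩
  have hq : 0 < √m := Real.sqrt_pos.2 hm
  have hq2 : √m ^ 2 = m := Real.sq_sqrt hm.le
  have hν : 1 ≤ √(Fintype.card ι : ℝ) := Real.one_le_sqrt.2 hN0
  have hν2 : √(Fintype.card ι : ℝ) ^ 2 = Fintype.card ι := Real.sq_sqrt (by linarith)
  obtain ⟨d1, d2⟩ := pin_det hm h
  obtain ⟨n1, n2⟩ := pin_norm h
  have hd : M.det ≠ 0 := fun h0 => by
    rw [h0] at d1
    exact absurd d1 (not_le.2 (by simpa using pow_pos hm _))
  have hμ : 0 ≤ dens M := (Real.exp_pos _).le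
  rw [← ApproxB_dens hd, hN] at d1 d2
  have e4 : (√m ^ (k + 2)) ^ 4 = m ^ (2 * (k + 2)) := by
    conv_rhs => rw [← hq2]
    ring
  have m1 : √m ^ (k + 2) ≤ dens M :=
    le_of_pow_le_pow_left₀ (n := 4) (by norm_num) hμ (by rwa [e4])
  have m2 : dens M ≤ (1 + e) ^ (k + 2) * √m ^ (k + 2) := by
    refine le_of_pow_le_pow_left₀ (n := 4) (by norm_num) (by positivity) (d2.trans ?_)
    rw [mul_pow, mul_pow, e4, ← pow_mul]
    exact mul_le_mul_of_nonneg_right (pow_le_pow_right₀ (by linarith) (by omega)) (by positivity)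
  have x1 : √(Fintype.card ι : ℝ) * √m ≤ ‖toW M‖ :=
    le_of_pow_le_pow_left₀ (n := 2) (by norm_num) (norm_nonneg _) (by rwa [mul_pow, hq2, hν2])
  have x2 : ‖toW M‖ ≤ (1 + e) * (√(Fintype.card ι : ℝ) * √m) := by
    refine le_of_pow_le_pow_left₀ (n := 2) (by norm_num) (by positivity) (n2.trans ?_)
    rw [mul_pow, mul_pow, hq2, hν2]
    have : 0 ≤ e * (1 + e) * (Fintype.card ι * m) := by positivity
    linarith
  rw [mul_assoc, mul_assoc, ← mul_assoc _ e]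
  refine norm_le_card_mul _ fun p => ?_
  exact ApproxB_real k h0 h1 hq hν x1 x2 m1 m2
    (by rw [hq2]; exact ApproxB_entry hm hk h hd p.1 p.2) (abs_apply_le (toW M) p)

lemma sys_of_pinched (k : ℕ) (hN : Fintype.card ι = 2 * (k + 2)) : ∃ C : ℝ, 0 < C ∧
    ∀ e : ℝ, 0 ≤ e → e ≤ 1 → ∀ (L : Matrix ι ι ℝ) (w : (ι → ℝ) → Matrix ι ι ℝ),
    Symplectic L w → Pinched e w → ∃ F, Sys k (C * e) (fun x => toW (w x)) F := by
  obtain ⟨C, hC, hap⟩ := approx (ι := ι) k hN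
  have hN0 : (0 : ℝ) < Fintype.card ι := by
    rw [hN]
    positivity
  refine ⟨max C 2, lt_max_of_lt_left hC, fun e h0 h1 L w ⟨hs, ⟨hk, hn, _⟩, hc⟩ hp =>
    ⟨fun x => toW ((-(√(Fintype.card ι : ℝ) ^ k * dens (w x))) • (w x)⁻¹), ?_⟩⟩
  have eF : ∀ p : ι × ι, (fun x => toW ((-(√(Fintype.card ι : ℝ) ^ k * dens (w x))) • (w x)⁻¹) p) =
      fun x => -√(Fintype.card ι : ℝ) ^ k * (dens (w x) * (w x)⁻¹ p.1 p.2) := fun p => by
    funext x
    simp only [toW_apply, Matrix.smul_apply, smul_eq_mul]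
    ring
  refine ⟨fun p => hs p.1 p.2, fun p => ?_, fun x i j => ApproxB_skew (hk x) i j, fun x i j => ?_,
    hc, fun x j => ?_, fun x => ?_, fun x i j => ?_, fun x hx => ?_⟩
  · rw [eF]
    exact contDiff_const.mul (smooth_piola hs hn p.1 p.2)
  · have : ((w x)⁻¹)ᵀ = -(w x)⁻¹ := by
      rw [transpose_nonsing_inv, hk]
      refine Matrix.inv_eq_right_inv ?_
      rw [neg_mul_neg, Matrix.mul_nonsing_inv _ (isUnit_iff_ne_zero.2 (hn x))]
    simp only [toW_apply, Matrix.smul_apply, smul_eq_mul]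
    rw [ApproxB_skew this i j]
    ring
  · simp only [eF]
    rw [Finset.sum_congr rfl fun i _ =>
      pd_const_mul ((smooth_piola hs hn i j).differentiable (by simp) x) _ i, ← Finset.mul_sum,
      piola hs hk hn hc, mul_zero]
  · obtain ⟨m, hm, h⟩ := hp x
    refine (hap e m h0 h1 hm (w x) (hk x) h).trans ?_
    gcongr
    exact le_max_left _ _
  · obtain ⟨m, hm, h⟩ := hp x
    refine (pinW_of_pin h0 hm (hk x) h i j).trans ?_
    gcongr
    exact le_max_right _ _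
  · obtain ⟨m, hm, h⟩ := hp x
    have := (pin_norm h).1
    rw [hx, norm_zero] at this
    have := mul_pos hN0 hm
    linarith

end Pool.Agent.Work.MP_bf98aa_gt
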