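import Pool.Agent.Work.MP_bf98aa_gt.AvBasic

/-!
Weighted means: bounds, integration by parts and the mean value property.

PLAN. norm_av_le: norm_integral_le_of_norm_le with the bound indicator (closedBall 0 1) (M ‖f (x + s • v)‖),
then the change of variables y = x + s • v (Measure.integral_comp_smul with finrank = card ι,
integral_add_left_eq_self, applied to the indicator of closedBall x s).
av_pd: integral_mul_pd with g v = f (x + s • v), pd_affine.
hasDerivAt_av: hasDerivAt_integral_of_dominated_loc_of_deriv_le (bound: constant times |φ v|, since the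
derivative of f is bounded on closedBall x (|s| + 1)); fderiv_apply_eq; integral_finsetSum.
av_mean_value: the derivative is ∑ i, av (pd i Φ) (pd i f) x s = - s * av Φ (lap f) x s by av_pd and av_sum;
norm_image_sub_le_of_norm_deriv_le_segment' on [ρ, σ].
av_pdw_le: induction on m generalising φ (Test.pd, Test.bdd); for u = i :: u' use av_pd with the smooth
function pdw u' f and the sum over i of the constants of pd i φ; 1 ≤ s⁻¹.
-/

set_option autoImplicit false
set_option linter.unusedSectionVars false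

open MeasureTheory Metric Matrix
open scoped ContDiff RealInnerProductSpace

namespace Pool.Agent.Work.MP_bf98aa_gt

variable {ι : Type} [Fintype ι] [DecidableEq ι]

lemma norm_av_le {E : Type} [NormedAddCommGroup E] [NormedSpace ℝ E] {φ : (ι → ℝ) → ℝ}
    (hφ : Test φ) {M : ℝ} (hM : ∀ v, |φ v| ≤ M) {f : (ι → ℝ) → E} (hf : Continuous f)
    (x : ι → ℝ) {s : ℝ} (hs : 0 < s) :
    ‖av φ f x s‖ ≤ M * s⁻¹ ^ Fintype.card ι * ∫ y in closedBall x s, ‖f y‖ := by
  have hg : Integrable ((closedBall x s).indicator fun y => ‖f y‖) :=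
    (hf.norm.continuousOn.integrableOn_compact (isCompact_closedBall x s)).integrable_indicator
      measurableSet_closedBall
  have h1 := Measure.integral_comp_smul volume
    (fun v => (closedBall x s).indicator (fun y => ‖f y‖) (x + v)) s
  rw [integral_add_left_eq_self, integral_indicator measurableSet_closedBall,
    Module.finrank_fintype_fun_eq_card, abs_of_pos (by positivity), ← inv_pow, smul_eq_mul] at h1
  rw [mul_assoc, ← h1, ← integral_const_mul]
  refine norm_integral_le_of_norm_le (((hg.comp_add_left x).comp_smul hs.ne').const_mul M)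
    (ae_of_all _ fun v => ?_)
  by_cases hv : 1 < ‖v‖
  · rw [hφ.2 v hv, zero_smul, norm_zero]
    exact mul_nonneg ((abs_nonneg _).trans (hM v))
      (Set.indicator_nonneg (fun _ _ => norm_nonneg _) _)
  · have h2 : x + s • v ∈ closedBall x s := by
      rw [add_mem_closedBall_iff_norm, norm_smul, Real.norm_of_nonneg hs.le]
      exact mul_le_of_le_one_right hs.le (not_lt.1 hv)
    rw [Set.indicator_of_mem h2, norm_smul]
    exact mul_le_mul_of_nonneg_right (hM v) (norm_nonneg _)

lemma av_pd {φ f : (ι → ℝ) → ℝ} (hφ : Test φ) (hf : ContDiff ℝ ∞ f) (i : ι) (x : ι → ℝ) {s : ℝ}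
    (hs : s ≠ 0) : av φ (pd i f) x s = -s⁻¹ * av (pd i φ) f x s := by
  have h := integral_mul_pd (g := fun v => f (x + s • v)) hφ.1 hφ.compact
    (hf.comp (contDiff_const.add (contDiff_id.const_smul s))) i
  simp only [pd_affine (hf.differentiable (by simp)), mul_left_comm (φ _)] at h
  rw [integral_const_mul] at h
  simp only [av, smul_eq_mul]
  rw [neg_mul_comm, ← h, inv_mul_cancel_left₀ hs]

lemma Av1_test {φ : (ι → ℝ) → ℝ} (hφ : Test φ) (i : ι) : Test fun v => v i * φ v :=
  ⟨(contDiff_apply ℝ ℝ i).mul hφ.1, fun v hv => by simp [hφ.2 v hv]⟩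

lemma hasDerivAt_av {φ f : (ι → ℝ) → ℝ} (hφ : Test φ) (hf : ContDiff ℝ ∞ f) (x : ι → ℝ) (s : ℝ) :
    HasDerivAt (fun s => av φ f x s) (∑ i, av (fun v => v i * φ v) (pd i f) x s) s := by
  have hc : Continuous (fderiv ℝ f) := hf.continuous_fderiv (by simp)
  obtain ⟨K, hK⟩ := (isCompact_closedBall x (|s| + 1)).exists_bound_of_continuousOn hc.continuousOn
  have h := (hasDerivAt_integral_of_dominated_loc_of_deriv_le (μ := volume) (x₀ := s)
    (F := fun t v => φ v • f (x + t • v)) (F' := fun t v => φ v • fderiv ℝ f (x + t • v) v)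
    (bound := fun v => ‖φ v‖ * K) (ball_mem_nhds s one_pos)
    (.of_forall fun t => (integrable_av hφ hf.continuous x t).1)
    (integrable_av hφ hf.continuous x s)
    (hφ.1.continuous.smul ((hc.comp (by fun_prop)).clm_apply continuous_id)).aestronglyMeasurable
    (ae_of_all _ fun v t ht => ?_)
    ((hφ.1.continuous.integrable_of_hasCompactSupport hφ.compact).norm.mul_const K)
    (ae_of_all _ fun v t _ => ?_)).2
  · refine h.congr_deriv (Eq.symm ?_)
    unfold av
    rw [← integral_finsetSum _ fun i _ =>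
      integrable_av (Av1_test hφ i) (contDiff_pd hf i).continuous x s]
    congr 1
    funext v
    simp only [fderiv_apply_eq, smul_eq_mul, Finset.mul_sum]
    exact Finset.sum_congr rfl fun i _ => by ring
  · by_cases hv : 1 < ‖v‖
    · simp [hφ.2 v hv]
    · have h1 : |t| ≤ |s| + 1 := by
        have := abs_sub_abs_le_abs_sub t s
        linarith [Real.dist_eq t s, mem_ball.1 ht]
      have h2 := hK (x + t • v) (by
        rw [add_mem_closedBall_iff_norm, norm_smul]
        exact (mul_le_of_le_one_right (norm_nonneg _) (not_lt.1 hv)).trans h1)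
      rw [norm_smul]
      exact mul_le_mul_of_nonneg_left ((ContinuousLinearMap.le_opNorm _ _).trans
        ((mul_le_of_le_one_right (norm_nonneg _) (not_lt.1 hv)).trans h2)) (norm_nonneg _)
  · have h1 : HasDerivAt (fun t : ℝ => x + t • v) v t := by
      simpa using ((hasDerivAt_id t).smul_const v).const_add x
    exact (((hf.differentiable (by simp)) _).hasFDerivAt.comp_hasDerivAt t h1).const_smul (φ v)

lemma av_mean_value {φ Φ f : (ι → ℝ) → ℝ} (hφ : Test φ) (hΦ : Test Φ)
    (hd : ∀ i v, pd i Φ v = v i * φ v) (hf : ContDiff ℝ ∞ f) (x : ι → ℝ) {ρ σ B : ℝ}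
    (hρ : 0 < ρ) (hρσ : ρ ≤ σ) (hσ : σ ≤ 1)
    (hB : ∀ s ∈ Set.Icc ρ σ, |av Φ (lap f) x s| ≤ B) :
    |av φ f x ρ - av φ f x σ| ≤ B := by
  have h0 : 0 ≤ B := (abs_nonneg _).trans (hB ρ ⟨le_rfl, hρσ⟩)
  have h := norm_image_sub_le_of_norm_deriv_le_segment' (a := ρ) (b := σ) (C := B)
    (fun s _ => (hasDerivAt_av hφ hf x s).hasDerivWithinAt) (fun s hs => ?_) σ ⟨hρσ, le_rfl⟩
  · rw [abs_sub_comm]
    exact h.trans (mul_le_of_le_one_right h0 (by linarith))
  · have hs0 : 0 < s := hρ.trans_le hs.1
    have e : ∑ i, av (fun v => v i * φ v) (pd i f) x s = -s * av Φ (lap f) x s := by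
      have e1 : lap f = fun y => ∑ i, pd i (pd i f) y := rfl
      rw [e1, av_sum hΦ _ fun i _ => (contDiff_pd (contDiff_pd hf i) i).continuous, Finset.mul_sum]
      refine Finset.sum_congr rfl fun i _ => ?_
      rw [av_pd hΦ (contDiff_pd hf i) i x hs0.ne', ← funext (hd i), neg_mul_comm, neg_mul, neg_neg,
        mul_inv_cancel_left₀ hs0.ne']
    rw [e, norm_mul, norm_neg, Real.norm_of_nonneg hs0.le]
    exact (mul_le_of_le_one_left (norm_nonneg _) (hs.2.le.trans hσ)).trans (hB s ⟨hs.1, hs.2.le⟩)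

lemma av_pdw_le {φ : (ι → ℝ) → ℝ} (hφ : Test φ) (m : ℕ) : ∃ C : ℝ, 0 < C ∧
    ∀ u : List ι, u.length ≤ m → ∀ f : (ι → ℝ) → ℝ, ContDiff ℝ ∞ f →
    ∀ (x : ι → ℝ) (s : ℝ), 0 < s → s ≤ 1 →
    |av φ (pdw u f) x s| ≤ C * s⁻¹ ^ (Fintype.card ι + m) * ∫ y in closedBall x s, |f y| := by
  induction m generalizing φ with
  | zero =>
    obtain ⟨M, hM, h⟩ := hφ.bdd
    refine ⟨M, hM, fun u hu f hf x s hs _ => ?_⟩
    rw [List.length_eq_zero_iff.1 (Nat.le_zero.1 hu)]
    exact norm_av_le hφ h hf.continuous x hs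
  | succ m ih =>
    obtain ⟨C, hC, h⟩ := ih hφ
    choose D hD h' using fun i => ih (hφ.pd i)
    have hS : 0 ≤ ∑ i, D i := Finset.sum_nonneg fun i _ => (hD i).le
    refine ⟨C + ∑ i, D i, by positivity, fun u hu f hf x s hs hs1 => ?_⟩
    have hI : 0 ≤ ∫ y in closedBall x s, |f y| := integral_nonneg fun _ => abs_nonneg _
    cases u with
    | nil =>
      refine (h [] (Nat.zero_le _) f hf x s hs hs1).trans ?_
      gcongr
      · exact le_add_of_nonneg_right hS
      · exact (one_le_inv₀ hs).2 hs1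
      · exact m.le_succ
    | cons i u =>
      have h1 := h' i u (Nat.le_of_succ_le_succ hu) f hf x s hs hs1
      have h2 : D i ≤ C + ∑ i, D i :=
        le_add_of_nonneg_of_le hC.le (Finset.single_le_sum (fun i _ => (hD i).le) (Finset.mem_univ i))
      rw [pdw_cons, av_pd hφ (contDiff_pdw hf u) i x hs.ne', abs_mul, abs_neg,
        abs_of_pos (inv_pos.2 hs), ← add_assoc, pow_succ]
      calc _ ≤ s⁻¹ * ((C + ∑ i, D i) * s⁻¹ ^ (Fintype.card ι + m) *
            ∫ y in closedBall x s, |f y|) := by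
            refine mul_le_mul_of_nonneg_left (h1.trans ?_) (inv_pos.2 hs).le
            gcongr
        _ = _ := by ring

end Pool.Agent.Work.MP_bf98aa_gt
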