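import Pool.Agent.Work.MP_bf98aa_gt.AvBasic

/-!
Weighted means: smoothness in the centre and in the scale.

PLAN. contDiff_av: either contDiffOn_convolution_right_with_param (f = φ locally integrable is not needed to be
the smooth factor: take the convolution of the constant 1 or of φ with g p z = χ z * f (p.2 - p.1 • z), χ a bump
equal to 1 on the unit cube, evaluated at 0), or contDiffOn_convolution_left_with_param, or a direct
induction: for g : P → (ι → ℝ) → ℝ jointly smooth and vanishing for 1 < ‖v‖ the map p ↦ ∫ v, g p v has
derivative ∫ v, fderiv (fun p => g p v) p (hasFDerivAt_integral_of_dominated_of_fderiv_le), then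
contDiff_succ_iff_fderiv_apply. One neat way: ((fun _ => 1) ⋆ g p) 0 = ∫ t, g p (0 - t) with
g p z = φ (-z) * f (p.2 - p.1 • z), which has support in the unit cube for all p.
pd_av: derivative along the line x + τ • Pi.single i 1 under the integral
(hasDerivAt_integral_of_dominated_loc_of_deriv_le) and differentiability from contDiff_av, or
hasFDerivAt_integral_of_dominated_of_fderiv_le and ContinuousLinearMap.integral_apply.
-/

set_option autoImplicit false
set_option linter.unusedSectionVars false

open MeasureTheory Metric Matrix
open scoped ContDiff RealInnerProductSpace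

namespace Pool.Agent.Work.MP_bf98aa_gt

variable {ι : Type} [Fintype ι] [DecidableEq ι]

lemma contDiff_av {φ f : (ι → ℝ) → ℝ} (hφ : Test φ) (hf : ContDiff ℝ ∞ f) :
    ContDiff ℝ ∞ fun p : ℝ × (ι → ℝ) => av φ f p.2 p.1 := by
  have h1 := hφ.1
  have h := contDiffOn_convolution_left_with_param_comp (μ := volume) (ContinuousLinearMap.mul ℝ ℝ)
    (s := Set.univ) (n := ⊤) (v := fun _ : ℝ × (ι → ℝ) => (0 : ι → ℝ)) contDiffOn_const
    (f := fun _ => (1 : ℝ)) (g := fun p v => φ v * f (p.2 + p.1 • v)) isOpen_univ
    (isCompact_closedBall 0 1) (fun p v _ hv => by rw [hφ.zero v hv, zero_mul])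
    (locallyIntegrable_const 1) (ContDiff.contDiffOn
      ((h1.comp contDiff_snd).mul (hf.comp (by fun_prop))))
  rw [contDiffOn_univ] at h
  simpa [convolution_def, av] using h

lemma pd_av {φ f : (ι → ℝ) → ℝ} (hφ : Test φ) (hf : ContDiff ℝ ∞ f) (i : ι) (x : ι → ℝ)
    (s : ℝ) : pd i (fun y => av φ f y s) x = av φ (pd i f) x s := by
  have hc : Continuous (fderiv ℝ f) := hf.continuous_fderiv (by simp)
  obtain ⟨M, hM⟩ := (isCompact_closedBall x (1 + |s|)).exists_bound_of_continuousOn hc.continuousOn
  have hi := integrable_av hφ hc x s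
  have h := hasFDerivAt_integral_of_dominated_of_fderiv_le (μ := volume)
    (F := fun y v => φ v • f (y + s • v)) (F' := fun y v => φ v • fderiv ℝ f (y + s • v))
    (bound := fun v => ‖φ v‖ * M) (closedBall_mem_nhds x one_pos)
    (Filter.Eventually.of_forall fun y => (integrable_av hφ hf.continuous y s).1)
    (integrable_av hφ hf.continuous x s) hi.1
    (Filter.Eventually.of_forall fun v y hy => by
      rw [norm_smul]
      rcases le_or_gt ‖v‖ 1 with c | c
      · refine mul_le_mul_of_nonneg_left (hM _ ?_) (norm_nonneg _)
        rw [mem_closedBall_iff_norm] at hy ⊢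
        rw [add_sub_right_comm]
        refine (norm_add_le _ _).trans (add_le_add hy ?_)
        rw [norm_smul, Real.norm_eq_abs]
        exact mul_le_of_le_one_right (abs_nonneg s) c
      · simp [hφ.2 v c])
    ((hφ.1.continuous.integrable_of_hasCompactSupport hφ.compact).norm.mul_const M)
    (Filter.Eventually.of_forall fun v y _ =>
      ((hasFDerivAt_comp_add_right (s • v)).2
        (hf.differentiable (by simp) _).hasFDerivAt).const_smul (φ v))
  unfold pd av
  rw [h.fderiv, ContinuousLinearMap.integral_apply hi]
  rfl

end Pool.Agent.Work.MP_bf98aa_gt
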