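import Pool.Agent.Work.MP_bf98aa_gt.Basic

/-!
Linearity of the weighted means and of iterated derivatives.
-/

set_option autoImplicit false
set_option linter.unusedSectionVars false

open MeasureTheory Metric Matrix
open scoped ContDiff RealInnerProductSpace

namespace Pool.Agent.Work.MP_bf98aa_gt

variable {ι : Type} [Fintype ι] [DecidableEq ι]

section
variable {E : Type} [NormedAddCommGroup E] [NormedSpace ℝ E] {φ : (ι → ℝ) → ℝ}

lemma integrable_av (hφ : Test φ) {f : (ι → ℝ) → E} (hf : Continuous f) (x : ι → ℝ) (s : ℝ) :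
    Integrable fun v => φ v • f (x + s • v) :=
  (hφ.1.continuous.smul (hf.comp (by fun_prop))).integrable_of_hasCompactSupport
    hφ.compact.smul_right

lemma av_add (hφ : Test φ) {f g : (ι → ℝ) → E} (hf : Continuous f) (hg : Continuous g)
    (x : ι → ℝ) (s : ℝ) : av φ (fun y => f y + g y) x s = av φ f x s + av φ g x s := by
  unfold av
  simp only [smul_add]
  exact integral_add (integrable_av hφ hf x s) (integrable_av hφ hg x s)

lemma av_sub (hφ : Test φ) {f g : (ι → ℝ) → E} (hf : Continuous f) (hg : Continuous g)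
    (x : ι → ℝ) (s : ℝ) : av φ (fun y => f y - g y) x s = av φ f x s - av φ g x s := by
  unfold av
  simp only [smul_sub]
  exact integral_sub (integrable_av hφ hf x s) (integrable_av hφ hg x s)

lemma av_sum (hφ : Test φ) {κ : Type} (t : Finset κ) {f : κ → (ι → ℝ) → E}
    (hf : ∀ a ∈ t, Continuous (f a)) (x : ι → ℝ) (s : ℝ) :
    av φ (fun y => ∑ a ∈ t, f a y) x s = ∑ a ∈ t, av φ (f a) x s := by
  unfold av
  simp only [Finset.smul_sum]
  exact integral_finsetSum _ fun a ha => integrable_av hφ (hf a ha) x s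

lemma av_const [CompleteSpace E] (c : E) (x : ι → ℝ) (s : ℝ) :
    av φ (fun _ => c) x s = (∫ v, φ v) • c := by
  unfold av; exact integral_smul_const _ _

lemma av_zero [CompleteSpace E] (f : (ι → ℝ) → E) (x : ι → ℝ) :
    av φ f x 0 = (∫ v, φ v) • f x := by
  unfold av; simp only [zero_smul, add_zero]; exact integral_smul_const _ _

lemma av_const_mul (c : ℝ) (f : (ι → ℝ) → ℝ) (x : ι → ℝ) (s : ℝ) :
    av φ (fun y => c * f y) x s = c * av φ f x s := by
  unfold av
  rw [← integral_const_mul]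
  exact integral_congr_ae (Filter.Eventually.of_forall fun v => by simp only [smul_eq_mul]; ring)

lemma av_neg (f : (ι → ℝ) → E) (x : ι → ℝ) (s : ℝ) :
    av φ (fun y => -f y) x s = -av φ f x s := by
  unfold av; simp only [smul_neg]; exact integral_neg _

lemma av_apply (hφ : Test φ) {w : (ι → ℝ) → W ι} (hw : Continuous w) (x : ι → ℝ) (s : ℝ)
    (p : ι × ι) : av φ w x s p = av φ (fun y => w y p) x s := by
  unfold av
  exact ((EuclideanSpace.proj (𝕜 := ℝ) p).integral_comp_comm (integrable_av hφ hw x s)).symm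

end

lemma skewW_av {φ : (ι → ℝ) → ℝ} (hφ : Test φ) {w : (ι → ℝ) → W ι} (hw : Continuous w)
    (h : ∀ y, SkewW (w y)) (x : ι → ℝ) (s : ℝ) : SkewW (av φ w x s) := by
  intro i j
  rw [av_apply hφ hw, av_apply hφ hw, ← av_neg]
  congr 1
  funext y
  exact h y i j

@[simp] lemma pdw_nil (f : (ι → ℝ) → ℝ) : pdw [] f = f := rfl

@[simp] lemma pdw_cons (i : ι) (u : List ι) (f : (ι → ℝ) → ℝ) :
    pdw (i :: u) f = pd i (pdw u f) := rfl

lemma pdw_append (u u' : List ι) (f : (ι → ℝ) → ℝ) : pdw (u ++ u') f = pdw u (pdw u' f) := by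
  unfold pdw; rw [List.foldr_append]

lemma pdw_add {f g : (ι → ℝ) → ℝ} (hf : ContDiff ℝ ∞ f) (hg : ContDiff ℝ ∞ g) (u : List ι) :
    pdw u (fun y => f y + g y) = fun y => pdw u f y + pdw u g y := by
  induction u with
  | nil => rfl
  | cons i u ih =>
    funext y
    rw [pdw_cons, ih]
    exact pd_add ((contDiff_pdw hf u).differentiable (by simp) y)
      ((contDiff_pdw hg u).differentiable (by simp) y) i

lemma pdw_sub {f g : (ι → ℝ) → ℝ} (hf : ContDiff ℝ ∞ f) (hg : ContDiff ℝ ∞ g) (u : List ι) :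
    pdw u (fun y => f y - g y) = fun y => pdw u f y - pdw u g y := by
  induction u with
  | nil => rfl
  | cons i u ih =>
    funext y
    rw [pdw_cons, ih]
    exact pd_sub ((contDiff_pdw hf u).differentiable (by simp) y)
      ((contDiff_pdw hg u).differentiable (by simp) y) i

lemma pdw_const_mul {f : (ι → ℝ) → ℝ} (hf : ContDiff ℝ ∞ f) (c : ℝ) (u : List ι) :
    pdw u (fun y => c * f y) = fun y => c * pdw u f y := by
  induction u with
  | nil => rfl
  | cons i u ih =>
    funext y
    rw [pdw_cons, ih]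
    exact pd_const_mul ((contDiff_pdw hf u).differentiable (by simp) y) c i

lemma pdw_sum {κ : Type} (t : Finset κ) {f : κ → (ι → ℝ) → ℝ} (hf : ∀ a ∈ t, ContDiff ℝ ∞ (f a))
    (u : List ι) : pdw u (fun y => ∑ a ∈ t, f a y) = fun y => ∑ a ∈ t, pdw u (f a) y := by
  induction u with
  | nil => rfl
  | cons i u ih =>
    funext y
    rw [pdw_cons, ih]
    exact pd_sum t (fun a ha => (contDiff_pdw (hf a ha) u).differentiable (by simp) y) i

lemma pd_pdw {f : (ι → ℝ) → ℝ} (hf : ContDiff ℝ ∞ f) (i : ι) (u : List ι) :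
    pd i (pdw u f) = pdw u (pd i f) := by
  induction u with
  | nil => rfl
  | cons j u ih => rw [pdw_cons, pdw_cons, pd_comm (contDiff_pdw hf u), ih]

lemma lap_pdw {f : (ι → ℝ) → ℝ} (hf : ContDiff ℝ ∞ f) (u : List ι) :
    lap (pdw u f) = pdw u (lap f) := by
  have h : lap f = fun y => ∑ i, pd i (pd i f) y := rfl
  rw [h, pdw_sum _ fun i _ => contDiff_pd (contDiff_pd hf i) i]
  funext y
  unfold lap
  refine Finset.sum_congr rfl fun i _ => ?_
  rw [pd_pdw hf, pd_pdw (contDiff_pd hf i)]

end Pool.Agent.Work.MP_bf98aa_gt
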