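import Pool.Agent.Work.MP_bf98aa_gt.Defs

/-!
Objects of the analytic part. The space `ι → ℝ` carries the sup norm, so `closedBall x r` is a
cube of volume `(2 r) ^ card ι`; matrices are viewed in the Euclidean space `W ι` (Frobenius norm).
-/

set_option autoImplicit false
set_option linter.unusedSectionVars false

open MeasureTheory Metric Matrix
open scoped ContDiff RealInnerProductSpace

namespace Pool.Agent.Work.MP_bf98aa_gt

/-- Matrices with the Frobenius norm. -/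
abbrev W (ι : Type) := EuclideanSpace ℝ (ι × ι)

/-- The weight of the energy. -/
noncomputable def G {E : Type} [NormedAddCommGroup E] (k : ℕ) (b z : E) : ℝ :=
  (‖b‖ ^ k + ‖z‖ ^ k) * ‖z‖ ^ 2

variable {ι : Type} [Fintype ι] [DecidableEq ι]

noncomputable def toW (M : Matrix ι ι ℝ) : W ι := WithLp.toLp 2 fun p => M p.1 p.2

def SkewW (a : W ι) : Prop := ∀ i j, a (j, i) = -a (i, j)

/-- `card ι • a aᵀ` is close to `‖a‖ ^ 2 • 1`. -/
def PinW (e : ℝ) (a : W ι) : Prop :=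
  ∀ i j, |(Fintype.card ι : ℝ) * ∑ l, a (i, l) * a (j, l) - if i = j then ‖a‖ ^ 2 else 0|
    ≤ e * ‖a‖ ^ 2

def SmoothW (w : (ι → ℝ) → W ι) : Prop := ∀ p, ContDiff ℝ ∞ fun x => w x p

def ClosedW (w : (ι → ℝ) → W ι) : Prop :=
  ∀ x i j l, pd i (fun y => w y (j, l)) x + pd j (fun y => w y (l, i)) x
    + pd l (fun y => w y (i, j)) x = 0

def CoclosedW (F : (ι → ℝ) → W ι) : Prop :=
  ∀ x j, ∑ i, pd i (fun y => F y (i, j)) x = 0

/-- The nonlinear Hodge system: `w` closed, `F` coclosed, `F` close to `‖w‖ ^ k • w`. -/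
structure Sys (k : ℕ) (e : ℝ) (w F : (ι → ℝ) → W ι) : Prop where
  sw : SmoothW w
  sF : SmoothW F
  skw : ∀ x, SkewW (w x)
  skF : ∀ x, SkewW (F x)
  closed : ClosedW w
  coclosed : CoclosedW F
  near : ∀ x, ‖F x - ‖w x‖ ^ k • w x‖ ≤ e * ‖w x‖ ^ (k + 1)
  pin : ∀ x, PinW e (w x)
  ne : ∀ x, w x ≠ 0

/-- The energy of `w - b` on a cube. -/
noncomputable def En (k : ℕ) (w : (ι → ℝ) → W ι) (b : W ι) (x : ι → ℝ) (r : ℝ) : ℝ :=
  ∫ y in closedBall x r, G k b (w y - b)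

/-- `w` is close to one of its values on the cube of radius `r` around `x`. -/
def Good (k : ℕ) (d : ℝ) (w : (ι → ℝ) → W ι) (x : ι → ℝ) (r : ℝ) : Prop :=
  ∃ y, En k w (w y) x r ≤ d * ‖w y‖ ^ (k + 2) * r ^ Fintype.card ι

/-- Weighted mean of `f` at scale `s` around `x`. -/
noncomputable def av {E : Type} [NormedAddCommGroup E] [NormedSpace ℝ E] (φ : (ι → ℝ) → ℝ)
    (f : (ι → ℝ) → E) (x : ι → ℝ) (s : ℝ) : E :=
  ∫ v, φ v • f (x + s • v)

/-- A smooth test function vanishing outside the unit cube. -/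
def Test (φ : (ι → ℝ) → ℝ) : Prop := ContDiff ℝ ∞ φ ∧ ∀ v, 1 < ‖v‖ → φ v = 0

/-- A radial probability density `p0` with two radial potentials. -/
structure Prof (ι : Type) [Fintype ι] [DecidableEq ι] where
  p0 : (ι → ℝ) → ℝ
  p1 : (ι → ℝ) → ℝ
  p2 : (ι → ℝ) → ℝ
  t0 : Test p0
  t1 : Test p1
  t2 : Test p2
  nonneg : ∀ v, 0 ≤ p0 v
  one : ∫ v, p0 v = 1
  d1 : ∀ i v, pd i p1 v = v i * p0 v
  d2 : ∀ i v, pd i p2 v = v i * p1 v
  radial : ∀ A : Matrix ι ι ℝ, Aᵀ * A = 1 → ∀ v, p0 (A *ᵥ v) = p0 v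

/-- The Laplace operator. -/
noncomputable def lap (f : (ι → ℝ) → ℝ) (x : ι → ℝ) : ℝ := ∑ i, pd i (pd i f) x

/-- Iterated partial derivatives along a word. -/
noncomputable def pdw (u : List ι) (f : (ι → ℝ) → ℝ) : (ι → ℝ) → ℝ := u.foldr pd f

omit [Fintype ι] [DecidableEq ι] in
@[simp] lemma toW_apply (M : Matrix ι ι ℝ) (p : ι × ι) : toW M p = M p.1 p.2 := rfl

lemma G_nonneg {E : Type} [NormedAddCommGroup E] (k : ℕ) (b z : E) : 0 ≤ G k b z := by
  unfold G; positivity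

lemma pow_mul_sq_le_G {E : Type} [NormedAddCommGroup E] (k : ℕ) (b z : E) :
    ‖b‖ ^ k * ‖z‖ ^ 2 ≤ G k b z := by
  unfold G
  have : 0 ≤ ‖z‖ ^ k * ‖z‖ ^ 2 := by positivity
  nlinarith

lemma pow_le_G {E : Type} [NormedAddCommGroup E] (k : ℕ) (b z : E) :
    ‖z‖ ^ (k + 2) ≤ G k b z := by
  unfold G
  have : 0 ≤ ‖b‖ ^ k * ‖z‖ ^ 2 := by positivity
  rw [pow_add]; nlinarith

lemma continuous_G {E X : Type} [NormedAddCommGroup E] [TopologicalSpace X] (k : ℕ) (b : E)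
    {z : X → E} (hz : Continuous z) : Continuous fun x => G k b (z x) := by
  unfold G; fun_prop

omit [DecidableEq ι] in
lemma abs_apply_le (a : W ι) (p : ι × ι) : |a p| ≤ ‖a‖ := by
  simpa using PiLp.norm_apply_le a p

omit [DecidableEq ι] in
lemma norm_le_card_mul (a : W ι) {M : ℝ} (h : ∀ p, |a p| ≤ M) :
    ‖a‖ ≤ (Fintype.card ι : ℝ) ^ 2 * M := by
  have h1 : ‖a‖ ≤ ∑ p, |a p| := by
    rw [EuclideanSpace.norm_eq]
    refine Real.sqrt_le_iff.2 ⟨Finset.sum_nonneg fun _ _ => abs_nonneg _, ?_⟩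
    simp only [Real.norm_eq_abs]
    exact Finset.sum_sq_le_sq_sum_of_nonneg fun _ _ => abs_nonneg _
  refine h1.trans ?_
  calc ∑ p, |a p| ≤ ∑ _p : ι × ι, M := Finset.sum_le_sum fun p _ => h p
    _ = _ := by simp [pow_two]

omit [DecidableEq ι] in
lemma inner_eq (a b : W ι) : ⟪a, b⟫ = ∑ i, ∑ j, a (i, j) * b (i, j) := by
  rw [PiLp.inner_apply, Fintype.sum_prod_type]
  simp [mul_comm]

omit [DecidableEq ι] in
lemma SmoothW.contDiff {w : (ι → ℝ) → W ι} (h : SmoothW w) : ContDiff ℝ ∞ w :=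
  contDiff_euclidean.2 h

omit [DecidableEq ι] in
lemma SmoothW.continuous {w : (ι → ℝ) → W ι} (h : SmoothW w) : Continuous w :=
  h.contDiff.continuous

lemma contDiff_pd {f : (ι → ℝ) → ℝ} (hf : ContDiff ℝ ∞ f) (i : ι) : ContDiff ℝ ∞ (pd i f) := by
  unfold pd
  exact (hf.fderiv_right (m := ∞) (by simp)).clm_apply contDiff_const

lemma contDiff_pdw {f : (ι → ℝ) → ℝ} (hf : ContDiff ℝ ∞ f) (u : List ι) :
    ContDiff ℝ ∞ (pdw u f) := by
  induction u with
  | nil => exact hf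
  | cons i u ih => exact contDiff_pd ih i

lemma contDiff_lap {f : (ι → ℝ) → ℝ} (hf : ContDiff ℝ ∞ f) : ContDiff ℝ ∞ (lap f) := by
  unfold lap
  exact ContDiff.sum fun i _ => contDiff_pd (contDiff_pd hf i) i

lemma pd_add {f g : (ι → ℝ) → ℝ} {x : ι → ℝ} (hf : DifferentiableAt ℝ f x)
    (hg : DifferentiableAt ℝ g x) (i : ι) :
    pd i (fun y => f y + g y) x = pd i f x + pd i g x := by
  unfold pd; rw [fderiv_fun_add hf hg]; rfl

lemma pd_sub {f g : (ι → ℝ) → ℝ} {x : ι → ℝ} (hf : DifferentiableAt ℝ f x)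
    (hg : DifferentiableAt ℝ g x) (i : ι) :
    pd i (fun y => f y - g y) x = pd i f x - pd i g x := by
  unfold pd; rw [fderiv_fun_sub hf hg]; rfl

lemma pd_neg (f : (ι → ℝ) → ℝ) (x : ι → ℝ) (i : ι) :
    pd i (fun y => -f y) x = -pd i f x := by
  unfold pd; rw [fderiv_fun_neg]; rfl

lemma pd_const (c : ℝ) (x : ι → ℝ) (i : ι) : pd i (fun _ => c) x = 0 := by
  unfold pd; simp

lemma pd_mul {f g : (ι → ℝ) → ℝ} {x : ι → ℝ} (hf : DifferentiableAt ℝ f x)
    (hg : DifferentiableAt ℝ g x) (i : ι) :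
    pd i (fun y => f y * g y) x = pd i f x * g x + f x * pd i g x := by
  unfold pd; rw [fderiv_fun_mul hf hg]; simp; ring

lemma pd_const_mul {f : (ι → ℝ) → ℝ} {x : ι → ℝ} (hf : DifferentiableAt ℝ f x) (c : ℝ) (i : ι) :
    pd i (fun y => c * f y) x = c * pd i f x := by
  rw [pd_mul (differentiableAt_const c) hf, pd_const]; ring

lemma pd_sum {κ : Type} (s : Finset κ) {f : κ → (ι → ℝ) → ℝ} {x : ι → ℝ}
    (hf : ∀ a ∈ s, DifferentiableAt ℝ (f a) x) (i : ι) :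
    pd i (fun y => ∑ a ∈ s, f a y) x = ∑ a ∈ s, pd i (f a) x := by
  unfold pd; rw [fderiv_fun_sum hf]; simp

/-- Chain rule for `y ↦ c + s • y`. -/
lemma pd_affine {f : (ι → ℝ) → ℝ} (hf : Differentiable ℝ f) (c : ι → ℝ) (s : ℝ) (i : ι)
    (x : ι → ℝ) : pd i (fun y => f (c + s • y)) x = s * pd i f (c + s • x) := by
  have h1 : HasFDerivAt (fun y : ι → ℝ => c + s • y) (s • ContinuousLinearMap.id ℝ (ι → ℝ)) x :=
    ((hasFDerivAt_id x).const_smul s).const_add c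
  have h2 := (hf (c + s • x)).hasFDerivAt.comp x h1
  unfold pd
  have h3 : fderiv ℝ (fun y => f (c + s • y)) x = _ := h2.fderiv
  rw [h3]; simp

lemma pd_add_right {f : (ι → ℝ) → ℝ} (c : ι → ℝ) (i : ι) (x : ι → ℝ) :
    pd i (fun y => f (y + c)) x = pd i f (x + c) := by
  unfold pd; rw [fderiv_comp_add_right]

lemma fderiv_apply_eq (f : (ι → ℝ) → ℝ) (x v : ι → ℝ) :
    fderiv ℝ f x v = ∑ i, v i * pd i f x := by
  unfold pd
  conv_lhs => rw [pi_eq_sum_univ' v]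
  rw [map_sum]
  refine Finset.sum_congr rfl fun i _ => ?_
  rw [map_smul, smul_eq_mul]

lemma pd_comm {f : (ι → ℝ) → ℝ} (hf : ContDiff ℝ ∞ f) (i j : ι) :
    pd i (pd j f) = pd j (pd i f) := by
  funext x
  have h1 : ContDiff ℝ ∞ (fderiv ℝ f) := hf.fderiv_right (m := ∞) (by simp)
  have h2 : ∀ a b : ι, pd a (pd b f) x
      = fderiv ℝ (fderiv ℝ f) x (Pi.single a 1) (Pi.single b 1) := by
    intro a b
    unfold pd
    rw [fderiv_clm_apply (h1.differentiable (by simp) x) (differentiableAt_const _)]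
    simp
  rw [h2, h2]
  exact (hf.contDiffAt.isSymmSndFDerivAt (by
    rw [minSmoothness_of_isRCLikeNormedField]; exact WithTop.coe_le_coe.2 le_top)) _ _

lemma pd_eq_zero_of_not_mem {φ : (ι → ℝ) → ℝ} {x : ι → ℝ} {r : ℝ}
    (h : ∀ y, y ∉ closedBall x r → φ y = 0) (i : ι) (y : ι → ℝ) (hy : y ∉ closedBall x r) :
    pd i φ y = 0 := by
  have h1 : φ =ᶠ[nhds y] fun _ => 0 :=
    Filter.eventually_of_mem (isClosed_closedBall.isOpen_compl.mem_nhds hy) h
  unfold pd; rw [h1.fderiv_eq]; simp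

omit [DecidableEq ι] in
lemma hasCompactSupport_of_ball {φ : (ι → ℝ) → ℝ} {x : ι → ℝ} {r : ℝ}
    (h : ∀ y, y ∉ closedBall x r → φ y = 0) : HasCompactSupport φ :=
  HasCompactSupport.intro (isCompact_closedBall x r) h

omit [DecidableEq ι] in
lemma Test.zero {φ : (ι → ℝ) → ℝ} (h : Test φ) (y : ι → ℝ) (hy : y ∉ closedBall (0 : ι → ℝ) 1) :
    φ y = 0 := h.2 y (by simpa using hy)

omit [DecidableEq ι] in
lemma Test.compact {φ : (ι → ℝ) → ℝ} (h : Test φ) : HasCompactSupport φ :=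
  hasCompactSupport_of_ball h.zero

lemma Test.pd {φ : (ι → ℝ) → ℝ} (h : Test φ) (i : ι) : Test (pd i φ) :=
  ⟨contDiff_pd h.1 i, fun v hv => pd_eq_zero_of_not_mem h.zero i v (by simpa using hv)⟩

omit [DecidableEq ι] in
lemma Test.bdd {φ : (ι → ℝ) → ℝ} (h : Test φ) : ∃ M : ℝ, 0 < M ∧ ∀ v, |φ v| ≤ M := by
  obtain ⟨M, hM⟩ := h.1.continuous.bounded_above_of_compact_support h.compact
  exact ⟨|M| + 1, by positivity, fun v => (hM v).trans ((le_abs_self M).trans (by linarith))⟩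

/-- Integration by parts against a compactly supported function. -/
lemma integral_mul_pd {φ g : (ι → ℝ) → ℝ} (hφ : ContDiff ℝ ∞ φ) (hc : HasCompactSupport φ)
    (hg : ContDiff ℝ ∞ g) (i : ι) :
    ∫ y, φ y * pd i g y = -∫ y, pd i φ y * g y := by
  have hc' : HasCompactSupport (pd i φ) := by
    unfold pd
    exact (hc.fderiv (𝕜 := ℝ)).comp_left
      (g := fun A : (ι → ℝ) →L[ℝ] ℝ => A (Pi.single i 1)) rfl
  refine integral_mul_fderiv_eq_neg_fderiv_mul_of_integrable ?_ ?_ ?_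
    (fun x _ => hφ.differentiable (by simp) x) (fun x _ => hg.differentiable (by simp) x)
  · exact ((contDiff_pd hφ i).continuous.mul hg.continuous).integrable_of_hasCompactSupport
      hc'.mul_right
  · exact (hφ.continuous.mul (contDiff_pd hg i).continuous).integrable_of_hasCompactSupport
      hc.mul_right
  · exact (hφ.continuous.mul hg.continuous).integrable_of_hasCompactSupport hc.mul_right

omit [DecidableEq ι] in
lemma volume_real_cube (x : ι → ℝ) {r : ℝ} (hr : 0 ≤ r) :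
    volume.real (closedBall x r) = (2 * r) ^ Fintype.card ι := by
  rw [Measure.real, Real.volume_pi_closedBall x hr, ENNReal.toReal_ofReal (by positivity)]

omit [DecidableEq ι] in
lemma En_nonneg (k : ℕ) (w : (ι → ℝ) → W ι) (b : W ι) (x : ι → ℝ) (r : ℝ) : 0 ≤ En k w b x r :=
  integral_nonneg fun _ => G_nonneg _ _ _

omit [DecidableEq ι] in
lemma En_mono (k : ℕ) {w : (ι → ℝ) → W ι} (hw : Continuous w) (b : W ι) {x x' : ι → ℝ}
    {r r' : ℝ} (h : closedBall x r ⊆ closedBall x' r') : En k w b x r ≤ En k w b x' r' :=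
  setIntegral_mono_set
    ((continuous_G k b (hw.sub continuous_const)).continuousOn.integrableOn_compact
      (isCompact_closedBall _ _))
    (Filter.Eventually.of_forall fun _ => G_nonneg _ _ _) h.eventuallyLE

end Pool.Agent.Work.MP_bf98aa_gt
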