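import Pool.Agent.Work.MP_bf98aa_gt.DefsG
import Pool.Agent.Work.MP_bf98aa_gt.Basic

/-!
Linear changes of coordinates.
-/

set_option autoImplicit false
set_option linter.unusedSectionVars false

open Matrix
open scoped ContDiff

namespace Pool.Agent.Work.MP_bf98aa_gt

variable {ι : Type} [Fintype ι] [DecidableEq ι]

/-- The pullback by the linear map `C`. -/
def pull (C : Matrix ι ι ℝ) (w : (ι → ℝ) → Matrix ι ι ℝ) (y : ι → ℝ) : Matrix ι ι ℝ :=
  Cᵀ * w (C *ᵥ y) * C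

lemma pull_apply (C : Matrix ι ι ℝ) (w : (ι → ℝ) → Matrix ι ι ℝ) (y : ι → ℝ) (j l : ι) :
    pull C w y j l = ∑ p, ∑ q, C p j * C q l * w (C *ᵥ y) p q := by
  simp only [pull, Matrix.mul_apply, transpose_apply, Finset.sum_mul]
  rw [Finset.sum_comm]
  exact Finset.sum_congr rfl fun p _ => Finset.sum_congr rfl fun q _ => by ring

lemma contDiff_mulVec (C : Matrix ι ι ℝ) : ContDiff ℝ ∞ fun y : ι → ℝ => C *ᵥ y :=
  (LinearMap.toContinuousLinearMap (Matrix.toLin' C)).contDiff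

lemma pd_mulVec {f : (ι → ℝ) → ℝ} (hf : ContDiff ℝ ∞ f) (C : Matrix ι ι ℝ) (i : ι) (y : ι → ℝ) :
    pd i (fun y => f (C *ᵥ y)) y = ∑ r, C r i * pd r f (C *ᵥ y) := by
  have h1 : HasFDerivAt (fun y : ι → ℝ => C *ᵥ y)
      (LinearMap.toContinuousLinearMap (Matrix.toLin' C)) y :=
    (LinearMap.toContinuousLinearMap (Matrix.toLin' C)).hasFDerivAt
  have h2 := (hf.differentiable (by simp) (C *ᵥ y)).hasFDerivAt.comp y h1
  have h3 : fderiv ℝ (fun y => f (C *ᵥ y)) y = _ := h2.fderiv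
  rw [pd, h3, ContinuousLinearMap.comp_apply, fderiv_apply_eq]
  refine Finset.sum_congr rfl fun r _ => ?_
  simp

lemma NondegForm.pull {L L' C : Matrix ι ι ℝ} (hC : C.det ≠ 0) (hL : C * L' = L)
    {w : (ι → ℝ) → Matrix ι ι ℝ} (h : NondegForm L w) : NondegForm L' (pull C w) := by
  refine ⟨fun x => ?_, fun x => ?_, fun x z => ?_⟩
  · simp only [MP_bf98aa_gt.pull, transpose_mul, transpose_transpose, h.1, Matrix.mul_assoc,
      Matrix.neg_mul, Matrix.mul_neg]
  · simp only [MP_bf98aa_gt.pull, det_mul, det_transpose]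
    exact mul_ne_zero (mul_ne_zero hC (h.2.1 _)) hC
  · simp only [MP_bf98aa_gt.pull, mulVec_add, mulVec_mulVec, hL, h.2.2]

lemma Symplectic.pull {L L' C : Matrix ι ι ℝ} (hC : C.det ≠ 0) (hL : C * L' = L)
    {w : (ι → ℝ) → Matrix ι ι ℝ} (h : Symplectic L w) : Symplectic L' (pull C w) := by
  have hs : ∀ p q, ContDiff ℝ ∞ fun y => w (C *ᵥ y) p q := fun p q =>
    (h.1 p q).comp (contDiff_mulVec C)
  refine ⟨fun j l => ?_, h.2.1.pull hC hL, fun x i j l => ?_⟩
  · simp only [pull_apply]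
    exact ContDiff.sum fun p _ => ContDiff.sum fun q _ => contDiff_const.mul (hs p q)
  · have h1 : ∀ i j l, pd i (fun y => MP_bf98aa_gt.pull C w y j l) x
        = ∑ r, ∑ p, ∑ q, C r i * C p j * C q l * pd r (fun y => w y p q) (C *ᵥ x) := by
      intro i j l
      simp only [pull_apply]
      rw [pd_sum _ fun p _ => (ContDiff.sum fun q _ =>
        contDiff_const.mul (hs p q)).differentiable (by simp) x, Finset.sum_comm]
      refine Finset.sum_congr rfl fun p _ => ?_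
      rw [pd_sum _ fun q _ => (contDiff_const.mul (hs p q)).differentiable (by simp) x,
        Finset.sum_comm]
      refine Finset.sum_congr rfl fun q _ => ?_
      rw [pd_const_mul ((hs p q).differentiable (by simp) x), pd_mulVec (h.1 p q), Finset.mul_sum]
      exact Finset.sum_congr rfl fun r _ => by ring
    have h2 : pd j (fun y => MP_bf98aa_gt.pull C w y l i) x
        = ∑ r, ∑ p, ∑ q, C r i * C p j * C q l * pd p (fun y => w y q r) (C *ᵥ x) := by
      rw [h1]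
      conv_rhs => rw [Finset.sum_comm]
      refine Finset.sum_congr rfl fun p _ => ?_
      conv_rhs => rw [Finset.sum_comm]
      exact Finset.sum_congr rfl fun q _ => Finset.sum_congr rfl fun r _ => by ring
    have h3 : pd l (fun y => MP_bf98aa_gt.pull C w y i j) x
        = ∑ r, ∑ p, ∑ q, C r i * C p j * C q l * pd q (fun y => w y r p) (C *ᵥ x) := by
      rw [h1, Finset.sum_comm]
      refine Finset.sum_congr rfl fun r _ => ?_
      rw [Finset.sum_comm]
      exact Finset.sum_congr rfl fun p _ => Finset.sum_congr rfl fun q _ => by ring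
    rw [h1 i j l, h2, h3]
    simp only [← Finset.sum_add_distrib, ← mul_add]
    exact Finset.sum_eq_zero fun r _ => Finset.sum_eq_zero fun p _ =>
      Finset.sum_eq_zero fun q _ => by rw [h.2.2, mul_zero]

lemma Homotopic.pull {L L' C : Matrix ι ι ℝ} (hC : C.det ≠ 0) (hL : C * L' = L)
    {w₀ w₁ : (ι → ℝ) → Matrix ι ι ℝ} (h : Homotopic L w₀ w₁) :
    Homotopic L' (pull C w₀) (pull C w₁) := by
  obtain ⟨H, hc, h0, h1, ht⟩ := h
  refine ⟨fun t => MP_bf98aa_gt.pull C (H t), fun j l => ?_, by simp only [h0], by simp only [h1],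
    fun t ht' => (ht t ht').pull hC hL⟩
  simp only [pull_apply]
  refine continuousOn_finsetSum _ fun p _ => continuousOn_finsetSum _ fun q _ =>
    continuousOn_const.mul ?_
  exact (hc p q).comp (f := fun z : ℝ × (ι → ℝ) => (z.1, C *ᵥ z.2))
    (continuous_fst.prodMk ((contDiff_mulVec C).continuous.comp continuous_snd)).continuousOn
    fun z hz => ⟨hz.1, trivial⟩

lemma pull_pull {B : Matrix ι ι ℝ} (hB : B.det ≠ 0) (w : (ι → ℝ) → Matrix ι ι ℝ) :
    pull B (pull B⁻¹ w) = w := by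
  have h : B⁻¹ * B = 1 := nonsing_inv_mul B (Ne.isUnit hB)
  funext y
  simp only [pull, mulVec_mulVec, h, one_mulVec]
  calc _ = (B⁻¹ * B)ᵀ * w y * (B⁻¹ * B) := by simp only [transpose_mul, Matrix.mul_assoc]
    _ = _ := by simp [h]

lemma PinchedTo.pull {B : Matrix ι ι ℝ} (hB : B.det ≠ 0) {e : ℝ} {w : (ι → ℝ) → Matrix ι ι ℝ}
    (h : PinchedTo (Bᵀ * B) e w) : Pinched e (pull B⁻¹ w) := by
  intro y
  obtain ⟨m, hm, hv⟩ := h (B⁻¹ *ᵥ y)
  refine ⟨m, hm, fun v => ?_⟩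
  have hb : B * B⁻¹ = 1 := mul_nonsing_inv B (Ne.isUnit hB)
  have h1 : (B⁻¹ *ᵥ v) ⬝ᵥ (Bᵀ * B) *ᵥ (B⁻¹ *ᵥ v) = v ⬝ᵥ v := by
    rw [← mulVec_mulVec, dotProduct_mulVec, vecMul_transpose, mulVec_mulVec, hb, one_mulVec]
  have h2 : ∀ u : ι → ℝ, u ⬝ᵥ (Bᵀ * B)⁻¹ *ᵥ u = (B⁻¹ᵀ *ᵥ u) ⬝ᵥ (B⁻¹ᵀ *ᵥ u) := by
    intro u
    rw [Matrix.mul_inv_rev, ← mulVec_mulVec, dotProduct_mulVec, ← mulVec_transpose,
      transpose_nonsing_inv]
  have h3 := hv (B⁻¹ *ᵥ v)
  rw [h1, h2] at h3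
  simpa only [MP_bf98aa_gt.pull, mulVec_mulVec, Matrix.mul_assoc] using h3

lemma exists_factor {G : Matrix ι ι ℝ} (hG : G.PosDef) :
    ∃ B : Matrix ι ι ℝ, B.det ≠ 0 ∧ G = Bᵀ * B := by
  open scoped MatrixOrder in
  obtain ⟨B, hB⟩ := CStarAlgebra.nonneg_iff_eq_star_mul_self.1 hG.posSemidef.nonneg
  have hB' : G = Bᵀ * B := by rw [hB, star_eq_conjTranspose, conjTranspose_eq_transpose_of_trivial]
  refine ⟨B, fun h0 => hG.det_pos.ne' ?_, hB'⟩
  rw [hB', det_mul, h0, mul_zero]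

end Pool.Agent.Work.MP_bf98aa_gt
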