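import Pool.Agent.Work.MP_bf98aa_gt.Basic

/-!
Cutoff functions and the radial profile.

PLAN. exists_cutoff: f : ContDiffBump (0 : ι → ℝ) with rIn = 1, rOut = 2; the derivatives pd i f are
continuous with compact support, hence bounded by some Λ (finitely many i); φ y = f (-(r⁻¹ • x) + r⁻¹ • y),
pd_affine.
exists_prof: g = expNegInvGlue, g1 x = x⁻¹^2 * g x, g2 x = (x⁻¹^4 - 2 x⁻¹^3) * g x; g' = g1, g1' = g2 and
smoothness from expNegInvGlue.hasDerivAt_polynomial_eval_inv_mul and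
expNegInvGlue.contDiff_polynomial_eval_inv_mul. With q v = (1 - ∑ i, v i ^ 2) / 4 (pd i q v = - v i / 2) put
p2 = c g (q v), p1 = -(c / 2) g1 (q v), p0 = (c / 4) g2 (q v). g2 x ≥ 0 for x ≤ 1 / 4 and g2 (1 / 4) > 0, so the
integral of g2 (q v) is positive (Continuous.integral_pos_of_hasCompactSupport_nonneg_nonzero); choose c.
1 < ‖v‖ gives some 1 < |v i| so q v < 0 and g vanishes. Radial: ∑ (A v) i ^ 2 = (A v) ⬝ᵥ (A v) = v ⬝ᵥ v.
-/

set_option autoImplicit false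
set_option linter.unusedSectionVars false

open MeasureTheory Metric Matrix
open scoped ContDiff RealInnerProductSpace

namespace Pool.Agent.Work.MP_bf98aa_gt

variable {ι : Type} [Fintype ι] [DecidableEq ι]

lemma exists_cutoff : ∃ Λ : ℝ, 0 < Λ ∧ ∀ (x : ι → ℝ) (r : ℝ), 0 < r →
    ∃ φ : (ι → ℝ) → ℝ, ContDiff ℝ ∞ φ ∧ (∀ y, 0 ≤ φ y) ∧ (∀ y, φ y ≤ 1) ∧
      (∀ y ∈ closedBall x r, φ y = 1) ∧ (∀ y, y ∉ closedBall x (2 * r) → φ y = 0) ∧
      ∀ i y, |pd i φ y| ≤ Λ / r := by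
  let f : ContDiffBump (0 : ι → ℝ) := ⟨1, 2, one_pos, one_lt_two⟩
  have hf : ContDiff ℝ ∞ f := f.contDiff
  have hb : ∀ i, ∃ M : ℝ, ∀ y, |pd i f y| ≤ M := fun i =>
    (contDiff_pd hf i).continuous.bounded_above_of_compact_support
      (hasCompactSupport_of_ball (pd_eq_zero_of_not_mem (x := 0) (r := 2)
        (fun y hy => f.zero_of_le_dist (not_le.1 hy).le) i))
  choose M hM using hb
  have hs : 0 ≤ ∑ i, |M i| := Finset.sum_nonneg fun _ _ => abs_nonneg _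
  refine ⟨∑ i, |M i| + 1, by linarith, fun x r hr => ?_⟩
  have hd : ∀ y : ι → ℝ, dist (-(r⁻¹ • x) + r⁻¹ • y) 0 = dist y x / r := fun y => by
    rw [dist_zero_right, neg_add_eq_sub, ← smul_sub, norm_smul, dist_eq_norm, norm_inv,
      Real.norm_of_nonneg hr.le, inv_mul_eq_div]
  refine ⟨fun y => f (-(r⁻¹ • x) + r⁻¹ • y),
    hf.comp (contDiff_const.add (contDiff_id.const_smul r⁻¹)), fun y => f.nonneg,
    fun y => f.le_one, fun y hy => f.one_of_mem_closedBall ?_, fun y hy => f.zero_of_le_dist ?_,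
    fun i y => ?_⟩
  · rw [mem_closedBall, hd]
    exact (div_le_one hr).2 hy
  · rw [hd]
    exact (le_div_iff₀ hr).2 (not_le.1 hy).le
  · rw [pd_affine (hf.differentiable (by simp)), abs_mul, abs_of_pos (inv_pos.2 hr),
      inv_mul_eq_div]
    refine div_le_div_of_nonneg_right ((hM i _).trans ((le_abs_self _).trans ?_)) hr.le
    have h1 := Finset.single_le_sum (f := fun i => |M i|) (fun _ _ => abs_nonneg _)
      (Finset.mem_univ i)
    linarith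

/-- The flat function times a polynomial in the inverse. -/
noncomputable def Cut_g (p : Polynomial ℝ) (x : ℝ) : ℝ := p.eval x⁻¹ * expNegInvGlue x

/-- The polynomial of the derivative. -/
noncomputable def Cut_D (p : Polynomial ℝ) : Polynomial ℝ :=
  Polynomial.X ^ 2 * (p - Polynomial.derivative p)

/-- The quadratic function. -/
noncomputable def Cut_q (v : ι → ℝ) : ℝ := (1 - ∑ i, v i ^ 2) / 4

lemma Cut_q_smooth : ContDiff ℝ ∞ (Cut_q : (ι → ℝ) → ℝ) := by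
  unfold Cut_q
  fun_prop

lemma Cut_q_le (v : ι → ℝ) : Cut_q v ≤ 1 / 4 := by
  have h : 0 ≤ ∑ i, v i ^ 2 := Finset.sum_nonneg fun _ _ => sq_nonneg _
  unfold Cut_q
  linarith

lemma Cut_test (p : Polynomial ℝ) (c : ℝ) : Test fun v : ι → ℝ => c * Cut_g p (Cut_q v) := by
  refine ⟨contDiff_const.mul
    ((expNegInvGlue.contDiff_polynomial_eval_inv_mul (n := ⊤) p).comp Cut_q_smooth),
    fun v hv => ?_⟩
  obtain ⟨i, hi⟩ : ∃ i, 1 < ‖v i‖ := by
    by_contra h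
    push Not at h
    exact absurd ((pi_norm_le_iff_of_nonneg zero_le_one).2 h) (not_le.2 hv)
  have h1 := Finset.single_le_sum (f := fun i => v i ^ 2) (fun _ _ => sq_nonneg _)
    (Finset.mem_univ i)
  have h2 : 1 < v i ^ 2 := by
    rw [← sq_abs]
    rw [Real.norm_eq_abs] at hi
    nlinarith
  have h3 : Cut_q v ≤ 0 := by
    unfold Cut_q
    linarith
  simp only [Cut_g, expNegInvGlue.zero_of_nonpos h3, mul_zero]

lemma Cut_pd_q (i : ι) (v : ι → ℝ) : pd i Cut_q v = -v i / 2 := by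
  have h1 : ∀ j, HasFDerivAt (fun w : ι → ℝ => w j ^ 2)
      ((2 * v j) • ContinuousLinearMap.proj (R := ℝ) (φ := fun _ : ι => ℝ) j) v := fun j => by
    simpa using (hasFDerivAt_apply (𝕜 := ℝ) j v).pow 2
  have h2 := ((HasFDerivAt.fun_sum (u := Finset.univ) fun j _ => h1 j).const_sub 1).mul_const
    (4 : ℝ)⁻¹
  have h3 : (Cut_q : (ι → ℝ) → ℝ) = fun w => (1 - ∑ j, w j ^ 2) * (4 : ℝ)⁻¹ := rfl
  rw [pd, h3, h2.fderiv]
  simp [Pi.single_apply]
  ring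

lemma Cut_pd (p : Polynomial ℝ) (c : ℝ) (i : ι) (v : ι → ℝ) :
    pd i (fun v => c * Cut_g p (Cut_q v)) v = v i * (-(c / 2) * Cut_g (Cut_D p) (Cut_q v)) := by
  have h1 : HasDerivAt (Cut_g p) (Cut_g (Cut_D p) (Cut_q v)) (Cut_q v) :=
    expNegInvGlue.hasDerivAt_polynomial_eval_inv_mul p _
  have h2 := (h1.comp_hasFDerivAt v
    (Cut_q_smooth.differentiable (by simp) v).hasFDerivAt).const_mul c
  have h3 := Cut_pd_q i v
  unfold pd at h3 ⊢
  have h4 : fderiv ℝ (fun v => c * Cut_g p (Cut_q v)) v = _ := h2.fderiv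
  rw [h4]
  simp only [_root_.smul_apply, h3, smul_eq_mul]
  ring

lemma Cut_g2 (x : ℝ) : Cut_g (Cut_D (Cut_D 1)) x = x⁻¹ ^ 3 * (x⁻¹ - 2) * expNegInvGlue x := by
  simp [Cut_g, Cut_D]
  ring_nf
  simp

lemma Cut_g2_pos {x : ℝ} (h0 : 0 < x) (h : x ≤ 1 / 4) : 0 < Cut_g (Cut_D (Cut_D 1)) x := by
  have h1 : 4 ≤ x⁻¹ := by
    rw [le_inv_comm₀ (by norm_num) h0]
    linarith
  rw [Cut_g2]
  exact mul_pos (mul_pos (by positivity) (by linarith)) (expNegInvGlue.pos_of_pos h0)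

lemma Cut_g2_nonneg {x : ℝ} (h : x ≤ 1 / 4) : 0 ≤ Cut_g (Cut_D (Cut_D 1)) x := by
  rcases le_or_gt x 0 with h0 | h0
  · rw [Cut_g, expNegInvGlue.zero_of_nonpos h0, mul_zero]
  · exact (Cut_g2_pos h0 h).le

lemma exists_prof : Nonempty (Prof ι) := by
  have ht := Cut_test (ι := ι) (Cut_D (Cut_D 1)) 1
  simp only [one_mul] at ht
  have hI : 0 < ∫ v : ι → ℝ, Cut_g (Cut_D (Cut_D 1)) (Cut_q v) :=
    ht.1.continuous.integral_pos_of_hasCompactSupport_nonneg_nonzero (x := 0) ht.compact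
      (fun v => Cut_g2_nonneg (Cut_q_le v)) (Cut_g2_pos (by simp [Cut_q]) (Cut_q_le _)).ne'
  obtain ⟨c, hc⟩ : ∃ c, c = (∫ v : ι → ℝ, Cut_g (Cut_D (Cut_D 1)) (Cut_q v))⁻¹ := ⟨_, rfl⟩
  refine ⟨⟨fun v => c * Cut_g (Cut_D (Cut_D 1)) (Cut_q v),
    fun v => -(2 * c) * Cut_g (Cut_D 1) (Cut_q v), fun v => 4 * c * Cut_g 1 (Cut_q v),
    Cut_test _ _, Cut_test _ _, Cut_test _ _,
    fun v => mul_nonneg (by rw [hc]; positivity) (Cut_g2_nonneg (Cut_q_le v)), ?_,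
    fun i v => ?_, fun i v => ?_, fun A hA v => ?_⟩⟩
  · rw [integral_const_mul, hc, inv_mul_cancel₀ hI.ne']
  · rw [Cut_pd]
    ring
  · rw [Cut_pd]
    ring
  · have h1 : ∀ w : ι → ℝ, ∑ i, w i ^ 2 = w ⬝ᵥ w := fun w => by simp [dotProduct, sq]
    have h2 : Cut_q (A *ᵥ v) = Cut_q v := by
      rw [Cut_q, Cut_q, h1, h1, dotProduct_mulVec, vecMul_mulVec, hA, vecMul_one]
    simp only [h2]

end Pool.Agent.Work.MP_bf98aa_gt
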