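import Pool.Agent.Work.MP_bf98aa_gt.Basic

/-!
Pointwise inequalities, part 3 (linearisation at a unit vector).

PLAN. t = ‖a + z‖ - 1, Z = ‖z‖, |t| ≤ Z, and t - ⟪a, z⟫ = (Z^2 - t^2) / 2 (norm_add_sq_real). The vector is
((1+t)^k - 1 - k t) • a + (k (t - ⟪a, z⟫)) • a + ((1+t)^k - 1) • z. By induction on k:
|(1+t)^k - 1| ≤ k |t| (1+|t|)^k and |(1+t)^k - 1 - k t| ≤ k^2 t^2 (1+|t|)^k; finally
(1 + Z)^k ≤ 2^k (1 + Z^k) and G k a z = (1 + Z^k) Z^2.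
remainder_le: ‖a + z‖^(k+1) ≤ 2^(k+1) (1 + Z^(k+1)), Z^(k+1) ≤ 1 + Z^(k+2), pow_le_G, e ≤ 1.
-/

set_option autoImplicit false
set_option linter.unusedSectionVars false

open MeasureTheory Metric Matrix
open scoped ContDiff RealInnerProductSpace

namespace Pool.Agent.Work.MP_bf98aa_gt

variable {E : Type} [NormedAddCommGroup E] [InnerProductSpace ℝ E]

lemma Point3_one (t : ℝ) (k : ℕ) : |(1 + t) ^ k - 1| ≤ k * |t| * (1 + |t|) ^ k := by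
  have h0 := abs_nonneg t
  induction k with
  | zero => simp
  | succ k ih =>
    have h1 : |1 + t| ≤ 1 + |t| := by simpa using abs_add_le 1 t
    have h2 : (1 : ℝ) ≤ (1 + |t|) ^ (k + 1) := one_le_pow₀ (by linarith)
    have e : (1 + t) ^ (k + 1) - 1 = (1 + t) * ((1 + t) ^ k - 1) + t := by ring
    calc |(1 + t) ^ (k + 1) - 1| ≤ |1 + t| * |(1 + t) ^ k - 1| + |t| := by
          rw [e, ← abs_mul]; exact abs_add_le _ _
      _ ≤ (1 + |t|) * (k * |t| * (1 + |t|) ^ k) + |t| * (1 + |t|) ^ (k + 1) := by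
          gcongr
          exact le_mul_of_one_le_right h0 h2
      _ = ((k + 1 : ℕ) : ℝ) * |t| * (1 + |t|) ^ (k + 1) := by push_cast; ring

lemma Point3_two (t : ℝ) (k : ℕ) :
    |(1 + t) ^ k - 1 - k * t| ≤ k ^ 2 * t ^ 2 * (1 + |t|) ^ k := by
  have h0 := abs_nonneg t
  induction k with
  | zero => simp
  | succ k ih =>
    have h2 : (1 + |t|) ^ k ≤ (1 + |t|) ^ (k + 1) :=
      pow_le_pow_right₀ (by linarith) (Nat.le_succ k)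
    have h3 : (0 : ℝ) ≤ (1 + |t|) ^ (k + 1) := by positivity
    have e : (1 + t) ^ (k + 1) - 1 - ((k + 1 : ℕ) : ℝ) * t
        = ((1 + t) ^ k - 1 - k * t) + t * ((1 + t) ^ k - 1) := by push_cast; ring
    have e2 : |t| * |t| = t ^ 2 := by rw [← sq, sq_abs]
    calc |(1 + t) ^ (k + 1) - 1 - ((k + 1 : ℕ) : ℝ) * t|
        ≤ |(1 + t) ^ k - 1 - k * t| + |t| * |(1 + t) ^ k - 1| := by
          rw [e, ← abs_mul]; exact abs_add_le _ _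
      _ ≤ k ^ 2 * t ^ 2 * (1 + |t|) ^ k + |t| * (k * |t| * (1 + |t|) ^ k) := by
          gcongr
          exact Point3_one t k
      _ = (k ^ 2 + k) * t ^ 2 * (1 + |t|) ^ k := by rw [← e2]; ring
      _ ≤ ((k + 1 : ℕ) : ℝ) ^ 2 * t ^ 2 * (1 + |t|) ^ (k + 1) := by
          gcongr
          push_cast
          nlinarith [(Nat.cast_nonneg k : (0 : ℝ) ≤ k)]

lemma Point3_pow {Z : ℝ} (hZ : 0 ≤ Z) (k : ℕ) : (1 + Z) ^ k ≤ 2 ^ k * (1 + Z ^ k) := by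
  have h1 : 0 ≤ Z ^ k := by positivity
  rcases le_total Z 1 with h | h
  · calc (1 + Z) ^ k ≤ 2 ^ k := by gcongr; linarith
      _ ≤ 2 ^ k * (1 + Z ^ k) := le_mul_of_one_le_right (by positivity) (by linarith)
  · calc (1 + Z) ^ k ≤ (2 * Z) ^ k := by gcongr; linarith
      _ = 2 ^ k * Z ^ k := mul_pow _ _ _
      _ ≤ 2 ^ k * (1 + Z ^ k) := by gcongr; linarith

lemma taylor_G (k : ℕ) : ∃ C : ℝ, 0 < C ∧ ∀ a z : E, ‖a‖ = 1 →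
    ‖‖a + z‖ ^ k • (a + z) - a - z - ((k : ℝ) * ⟪a, z⟫) • a‖ ≤ C * G k a z := by
  refine ⟨((k : ℝ) ^ 2 + 2 * k + 1) * 2 ^ k, by positivity, fun a z ha => ?_⟩
  obtain ⟨t, ht⟩ : ∃ t : ℝ, t = ‖a + z‖ - 1 := ⟨_, rfl⟩
  have hn : ‖a + z‖ = 1 + t := by linarith
  have hZ := norm_nonneg z
  have hk : (0 : ℝ) ≤ k := Nat.cast_nonneg k
  have htZ : |t| ≤ ‖z‖ := by
    have := abs_norm_sub_norm_le (a + z) a
    rwa [add_sub_cancel_left, ha, ← ht] at this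
  have ht2 : t ^ 2 ≤ ‖z‖ ^ 2 := by
    rw [← sq_abs t]; gcongr
  have hin : t - ⟪a, z⟫ = (‖z‖ ^ 2 - t ^ 2) / 2 := by
    have := norm_add_sq_real a z
    rw [hn, ha] at this
    linarith
  have hin' : |t - ⟪a, z⟫| ≤ ‖z‖ ^ 2 := by
    rw [hin, abs_le]
    constructor <;> nlinarith [sq_nonneg t, sq_nonneg ‖z‖]
  have hP : (1 + |t|) ^ k ≤ (1 + ‖z‖) ^ k := by gcongr
  have hP1 : (1 : ℝ) ≤ (1 + ‖z‖) ^ k := one_le_pow₀ (by linarith)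
  have e : ‖a + z‖ ^ k • (a + z) - a - z - ((k : ℝ) * ⟪a, z⟫) • a
      = ((1 + t) ^ k - 1 - k * t) • a + ((k : ℝ) * (t - ⟪a, z⟫)) • a + ((1 + t) ^ k - 1) • z := by
    rw [hn]; module
  have b1 : ‖((1 + t) ^ k - 1 - k * t) • a‖ ≤ k ^ 2 * ‖z‖ ^ 2 * (1 + ‖z‖) ^ k := by
    rw [norm_smul, ha, mul_one, Real.norm_eq_abs]
    refine (Point3_two t k).trans ?_
    gcongr
  have b2 : ‖((k : ℝ) * (t - ⟪a, z⟫)) • a‖ ≤ k * ‖z‖ ^ 2 * (1 + ‖z‖) ^ k := by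
    rw [norm_smul, ha, mul_one, Real.norm_eq_abs, abs_mul, abs_of_nonneg hk]
    calc (k : ℝ) * |t - ⟪a, z⟫| ≤ k * ‖z‖ ^ 2 := by gcongr
      _ ≤ k * ‖z‖ ^ 2 * (1 + ‖z‖) ^ k := le_mul_of_one_le_right (by positivity) hP1
  have b3 : ‖((1 + t) ^ k - 1) • z‖ ≤ k * ‖z‖ ^ 2 * (1 + ‖z‖) ^ k := by
    rw [norm_smul, Real.norm_eq_abs]
    calc |(1 + t) ^ k - 1| * ‖z‖ ≤ (k * |t| * (1 + |t|) ^ k) * ‖z‖ := by
          gcongr
          exact Point3_one t k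
      _ ≤ (k * ‖z‖ * (1 + ‖z‖) ^ k) * ‖z‖ := by gcongr
      _ = k * ‖z‖ ^ 2 * (1 + ‖z‖) ^ k := by ring
  have hG : G k a z = (1 + ‖z‖ ^ k) * ‖z‖ ^ 2 := by
    simp [G, ha]
  rw [e, hG]
  calc ‖((1 + t) ^ k - 1 - k * t) • a + ((k : ℝ) * (t - ⟪a, z⟫)) • a + ((1 + t) ^ k - 1) • z‖
      ≤ k ^ 2 * ‖z‖ ^ 2 * (1 + ‖z‖) ^ k + k * ‖z‖ ^ 2 * (1 + ‖z‖) ^ k
        + k * ‖z‖ ^ 2 * (1 + ‖z‖) ^ k :=
        (norm_add₃_le).trans (add_le_add (add_le_add b1 b2) b3)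
    _ = (k ^ 2 + 2 * k) * (1 + ‖z‖) ^ k * ‖z‖ ^ 2 := by ring
    _ ≤ (k ^ 2 + 2 * k + 1) * (2 ^ k * (1 + ‖z‖ ^ k)) * ‖z‖ ^ 2 := by
        exact mul_le_mul_of_nonneg_right (mul_le_mul (by linarith) (Point3_pow hZ k)
          (by positivity) (by positivity)) (by positivity)
    _ = ((k : ℝ) ^ 2 + 2 * k + 1) * 2 ^ k * ((1 + ‖z‖ ^ k) * ‖z‖ ^ 2) := by ring

lemma remainder_le (k : ℕ) : ∃ C : ℝ, 0 < C ∧ ∀ e : ℝ, 0 ≤ e → e ≤ 1 → ∀ a z f : E, ‖a‖ = 1 →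
    ‖f - ‖a + z‖ ^ k • (a + z)‖ ≤ e * ‖a + z‖ ^ (k + 1) →
    ‖f - a - z - ((k : ℝ) * ⟪a, z⟫) • a‖ ≤ C * (G k a z + e) := by
  obtain ⟨C, hC, hT⟩ := taylor_G (E := E) k
  refine ⟨C + 2 ^ (k + 1) * 2, by positivity, fun e he he1 a z f ha hf => ?_⟩
  have hZ := norm_nonneg z
  have hG := G_nonneg k a z
  have h1 : ‖a + z‖ ^ (k + 1) ≤ 2 ^ (k + 1) * (1 + ‖z‖ ^ (k + 1)) := by
    refine le_trans ?_ (Point3_pow hZ (k + 1))
    gcongr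
    exact (norm_add_le a z).trans (by rw [ha])
  have h2 : ‖z‖ ^ (k + 1) ≤ 1 + G k a z := by
    have h3 := pow_le_G k a z
    rcases le_total ‖z‖ 1 with h | h
    · have := pow_le_one₀ hZ h (n := k + 1)
      linarith
    · have : ‖z‖ ^ (k + 1) ≤ ‖z‖ ^ (k + 2) := pow_le_pow_right₀ h (by omega)
      linarith
  have h4 : e * ‖a + z‖ ^ (k + 1) ≤ 2 ^ (k + 1) * 2 * (G k a z + e) := by
    calc e * ‖a + z‖ ^ (k + 1) ≤ e * (2 ^ (k + 1) * (1 + (1 + G k a z))) := by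
          gcongr
          exact h1.trans (by gcongr)
      _ = 2 ^ (k + 1) * (e * G k a z + 2 * e) := by ring
      _ ≤ 2 ^ (k + 1) * (2 * (G k a z + e)) := by
          gcongr
          nlinarith
      _ = 2 ^ (k + 1) * 2 * (G k a z + e) := by ring
  have e1 : f - a - z - ((k : ℝ) * ⟪a, z⟫) • a = (f - ‖a + z‖ ^ k • (a + z))
      + (‖a + z‖ ^ k • (a + z) - a - z - ((k : ℝ) * ⟪a, z⟫) • a) := by abel
  rw [e1]
  calc ‖(f - ‖a + z‖ ^ k • (a + z))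
      + (‖a + z‖ ^ k • (a + z) - a - z - ((k : ℝ) * ⟪a, z⟫) • a)‖
      ≤ 2 ^ (k + 1) * 2 * (G k a z + e) + C * G k a z :=
        (norm_add_le _ _).trans (add_le_add (hf.trans h4) (hT a z ha))
    _ ≤ 2 ^ (k + 1) * 2 * (G k a z + e) + C * (G k a z + e) := by
        gcongr
        linarith
    _ = (C + 2 ^ (k + 1) * 2) * (G k a z + e) := by ring

end Pool.Agent.Work.MP_bf98aa_gt
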