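import Pool.Agent.Work.MP_bf98aa_gt.HA
import Pool.Agent.Work.MP_bf98aa_gt.Av2
import Pool.Agent.Work.MP_bf98aa_gt.Point3

/-!
Oscillation of the mollified form on the unit cube.

PLAN. ha_vector: norm_le_card_mul and av_apply; first part is ha_scalar with the word []; second part: for each p
the function g y = av p0 η(p) y ρ is differentiable (contDiff_av), pd l g y = av p0 (pd l η(p)) y ρ (pd_av) is
bounded by ha_scalar with the word [l], so ‖fderiv g y‖ ≤ N * bound (fderiv_apply_eq, opNorm_le_bound) on the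
convex cube; Convex.norm_image_sub_le_of_norm_fderiv_le.
osc_unit: a = w y0, η y = w y - a, h y = F y - a - η y - (k ⟪a, η y⟫) • a, so that η + (k ⟪a, η⟫) • a + h = F - a;
Lin follows from Sys (pd_sub, pd_const). ‖η‖ ≤ t + ‖η‖^2 / t ≤ t + G / t with t = sqrt d (pow_mul_sq_le_G), so
E1 = (2^N + 1) sqrt d; remainder_le gives E2 = C (d + 2^N e); e E1 ≤ C e. av p0 w y ρ = av p0 η y ρ + a
(av_sub, av_const, P.one).
-/

set_option autoImplicit false
set_option linter.unusedSectionVars false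

open MeasureTheory Metric Matrix
open scoped ContDiff RealInnerProductSpace

namespace Pool.Agent.Work.MP_bf98aa_gt

variable {ι : Type} [Fintype ι] [DecidableEq ι]

lemma DecayA_fderiv (g : (ι → ℝ) → ℝ) (x : ι → ℝ) {B : ℝ} (hB : 0 ≤ B)
    (h : ∀ l, |pd l g x| ≤ B) : ‖fderiv ℝ g x‖ ≤ Fintype.card ι * B := by
  refine ContinuousLinearMap.opNorm_le_bound _ (by positivity) fun v => ?_
  rw [fderiv_apply_eq, Real.norm_eq_abs]
  refine (Finset.abs_sum_le_sum_abs _ _).trans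
    ((Finset.sum_le_sum (g := fun _ => ‖v‖ * B) fun i _ => ?_).trans_eq ?_)
  · rw [abs_mul]
    exact mul_le_mul (norm_le_pi_norm v i) (h i) (abs_nonneg _) (norm_nonneg _)
  · rw [Finset.sum_const, Finset.card_univ, nsmul_eq_mul]
    ring

lemma DecayA_pd {w : (ι → ℝ) → W ι} (hw : SmoothW w) (a : W ι) (p : ι × ι) (i : ι) (x : ι → ℝ) :
    pd i (fun y => (w y - a) p) x = pd i (fun y => w y p) x := by
  simp only [PiLp.sub_apply]
  rw [pd_sub ((hw p).differentiable (by simp) x) (differentiableAt_const _), pd_const, sub_zero]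

lemma DecayA_int {f g : (ι → ℝ) → ℝ} (hf : Continuous f) (hg : Continuous g) {c α : ℝ}
    (h : ∀ y, f y ≤ c + α * g y) : ∫ y in closedBall (0 : ι → ℝ) 1, f y ≤
      2 ^ Fintype.card ι * c + α * ∫ y in closedBall (0 : ι → ℝ) 1, g y := by
  have i : ∀ u : (ι → ℝ) → ℝ, Continuous u → IntegrableOn u (closedBall (0 : ι → ℝ) 1) :=
    fun u hu => hu.continuousOn.integrableOn_compact (isCompact_closedBall _ _)
  refine (setIntegral_mono (i f hf) (i (fun y => c + α * g y) (by fun_prop)) h).trans_eq ?_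
  rw [integral_add (i _ continuous_const) (i (fun y => α * g y) (by fun_prop)),
    integral_const_mul, setIntegral_const, volume_real_cube _ zero_le_one, mul_one, smul_eq_mul]

lemma DecayA_num {V R C e d t : ℝ} (hV : 0 ≤ V) (hR : 0 ≤ R) (hC : 0 ≤ C) (he : 0 ≤ e)
    (hd : 0 ≤ d) (ht : 0 ≤ t) (ht1 : t ≤ 1) :
    (V + 1) * t + R * (C * (d + V * e) + e * ((V + 1) * t)) ≤
      (C + 1) * (V + 1) * (t + R * (d + e)) := by
  have h1 : e * ((V + 1) * t) ≤ e * ((V + 1) * 1) := by gcongr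
  have h2 : C * (d + V * e) + e * ((V + 1) * t) ≤ (C + 1) * (V + 1) * (d + e) := by
    nlinarith [mul_nonneg hC he, mul_nonneg (mul_nonneg hC hV) hd, mul_nonneg hV hd]
  have h3 := mul_le_mul_of_nonneg_left h2 hR
  nlinarith [mul_nonneg (mul_nonneg hC (add_nonneg hV zero_le_one)) ht]

lemma ha_vector (P : Prof ι) (k : ℕ) : ∃ C : ℝ, 0 < C ∧ ∀ e : ℝ, 0 ≤ e →
    ∀ (a : W ι) (η h : (ι → ℝ) → W ι), ‖a‖ = 1 → SkewW a → PinW e a → Lin k a η h →
    ∀ E1 E2 : ℝ, (∫ y in closedBall (0 : ι → ℝ) 1, ‖η y‖) ≤ E1 →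
    (∫ y in closedBall (0 : ι → ℝ) 1, ‖h y‖) ≤ E2 →
    ∀ ρ : ℝ, 0 < ρ → ρ ≤ 1 / 2 →
    ‖av P.p0 η 0 ρ‖ ≤ C * (E1 + ρ⁻¹ ^ (Fintype.card ι + 5) * (E2 + e * E1)) ∧
    ∀ y ∈ closedBall (0 : ι → ℝ) (1 / 2), ‖av P.p0 η y ρ - av P.p0 η 0 ρ‖
      ≤ C * (E1 + ρ⁻¹ ^ (Fintype.card ι + 5) * (E2 + e * E1)) * ‖y‖ := by
  obtain ⟨C, hC, H⟩ := ha_scalar P k
  refine ⟨((Fintype.card ι : ℝ) ^ 2 * (Fintype.card ι + 1) + 1) * C, by positivity,
    fun e he a η h ha hs hp hL E1 E2 h1 h2 ρ hρ hρ' => ?_⟩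
  have H' := H e he a η h ha hs hp hL E1 E2 h1 h2 ρ hρ hρ'
  have hE1 : 0 ≤ E1 := (integral_nonneg fun _ => norm_nonneg _).trans h1
  have hE2 : 0 ≤ E2 := (integral_nonneg fun _ => norm_nonneg _).trans h2
  have hX : 0 ≤ E1 + ρ⁻¹ ^ (Fintype.card ι + 5) * (E2 + e * E1) := by positivity
  generalize E1 + ρ⁻¹ ^ (Fintype.card ι + 5) * (E2 + e * E1) = X at H' hX ⊢
  have hc := hL.sη.continuous
  have hB : 0 ≤ C * X := by positivity
  have hN : (0 : ℝ) ≤ Fintype.card ι := by positivity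
  constructor
  · refine (norm_le_card_mul _ (M := C * X) fun p => ?_).trans ?_
    · rw [av_apply P.t0 hc]
      exact H' 0 (mem_closedBall_self (by norm_num)) [] (by simp) p
    · nlinarith [mul_nonneg (mul_nonneg (sq_nonneg (Fintype.card ι : ℝ)) hN) hB]
  · intro y hy
    refine (norm_le_card_mul _ (M := Fintype.card ι * (C * X) * ‖y‖) fun p => ?_).trans ?_
    · have hd : Differentiable ℝ fun x => av P.p0 (fun z => η z p) x ρ :=
        ((contDiff_av P.t0 (hL.sη p)).comp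
          (f := fun x : ι → ℝ => (ρ, x)) (by fun_prop)).differentiable (by simp)
      have := (convex_closedBall (0 : ι → ℝ) (1 / 2)).norm_image_sub_le_of_norm_fderiv_le
        (fun x _ => hd x) (fun x hx => DecayA_fderiv _ x hB fun l => by
          rw [pd_av P.t0 (hL.sη p)]
          exact H' x hx [l] (by simp) p) (mem_closedBall_self (by norm_num)) hy
      rw [sub_zero] at this
      rw [PiLp.sub_apply, av_apply P.t0 hc, av_apply P.t0 hc]
      exact this
    · nlinarith [mul_nonneg (mul_nonneg (sq_nonneg (Fintype.card ι : ℝ)) hB) (norm_nonneg y),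
        mul_nonneg hB (norm_nonneg y)]

lemma osc_unit (P : Prof ι) (k : ℕ) : ∃ C : ℝ, 0 < C ∧ ∀ e d ρ : ℝ, 0 ≤ e → e ≤ 1 → 0 < d → d ≤ 1 →
    0 < ρ → ρ ≤ 1 / 2 → ∀ w F : (ι → ℝ) → W ι, Sys k e w F → ∀ y0 : ι → ℝ, ‖w y0‖ = 1 →
    En k w (w y0) 0 1 ≤ d →
    ‖av P.p0 w 0 ρ - w y0‖ ≤ C * (√d + ρ⁻¹ ^ (Fintype.card ι + 5) * (d + e)) ∧
    ∀ y ∈ closedBall (0 : ι → ℝ) (1 / 2), ‖av P.p0 w y ρ - av P.p0 w 0 ρ‖
      ≤ C * (√d + ρ⁻¹ ^ (Fintype.card ι + 5) * (d + e)) * ‖y‖ := by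
  obtain ⟨C1, hC1, H1⟩ := ha_vector P k
  obtain ⟨C2, hC2, H2⟩ := remainder_le (E := W ι) k
  refine ⟨C1 * ((C2 + 1) * (2 ^ Fintype.card ι + 1)), by positivity,
    fun e d ρ he he1 hd hd1 hρ hρ' w F S y0 ha hE => ?_⟩
  set a := w y0
  have hw := S.sw.contDiff
  have hη : ContDiff ℝ ∞ fun y => w y - a := hw.sub contDiff_const
  have hh : ContDiff ℝ ∞ fun y => F y - a - (w y - a) - ((k : ℝ) * ⟪a, w y - a⟫) • a :=
    ((S.sF.contDiff.sub contDiff_const).sub hη).sub
      ((contDiff_const.mul (contDiff_const.inner ℝ hη)).smul contDiff_const)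
  have hL : Lin k a (fun y => w y - a)
      fun y => F y - a - (w y - a) - ((k : ℝ) * ⟪a, w y - a⟫) • a := by
    refine ⟨contDiff_euclidean.1 hη, contDiff_euclidean.1 hh, fun x i j => ?_,
      fun x i j l => ?_, ?_⟩
    · rw [PiLp.sub_apply, PiLp.sub_apply, S.skw x i j, S.skw y0 i j]
      ring
    · simp only [DecayA_pd S.sw]
      exact S.closed x i j l
    · have e : (fun y => w y - a + ((k : ℝ) * ⟪a, w y - a⟫) • a +
          (F y - a - (w y - a) - ((k : ℝ) * ⟪a, w y - a⟫) • a)) = fun y => F y - a := by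
        funext y
        abel
      rw [e]
      intro x j
      simp only [DecayA_pd S.sF]
      exact S.coclosed x j
  have hG : Continuous fun y => G k a (w y - a) := continuous_G k a hη.continuous
  have ht : 0 < √d := Real.sqrt_pos.2 hd
  have ht1 : √d ≤ 1 := Real.sqrt_le_one.2 hd1
  have i1 : (∫ y in closedBall (0 : ι → ℝ) 1, ‖w y - a‖) ≤ (2 ^ Fintype.card ι + 1) * √d := by
    refine (DecayA_int hη.continuous.norm hG (c := √d) (α := (√d)⁻¹) fun y => ?_).trans ?_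
    · have h1 := pow_mul_sq_le_G k a (w y - a)
      rw [ha, one_pow, one_mul] at h1
      rw [← sub_le_iff_le_add', ← div_eq_inv_mul, le_div_iff₀ ht]
      nlinarith [sq_nonneg (‖w y - a‖ - √d), mul_nonneg (norm_nonneg (w y - a)) ht.le]
    · have h1 : (√d)⁻¹ * En k w a 0 1 ≤ √d := by
        rw [← div_eq_inv_mul, div_le_iff₀ ht, Real.mul_self_sqrt hd.le]
        exact hE
      unfold En at h1
      linarith
  have i2 : (∫ y in closedBall (0 : ι → ℝ) 1,
      ‖F y - a - (w y - a) - ((k : ℝ) * ⟪a, w y - a⟫) • a‖) ≤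
        C2 * (d + 2 ^ Fintype.card ι * e) := by
    refine (DecayA_int hh.continuous.norm hG (c := C2 * e) (α := C2) fun y => ?_).trans ?_
    · have h1 := H2 e he he1 a (w y - a) (F y) ha (by simpa using S.near y)
      linarith
    · have h1 := mul_le_mul_of_nonneg_left hE hC2.le
      unfold En at h1
      linarith
  obtain ⟨k1, k2⟩ := H1 e he a _ _ ha (S.skw y0) (S.pin y0) hL _ _ i1 i2 ρ hρ hρ'
  have hav : ∀ y, av P.p0 (fun y => w y - a) y ρ = av P.p0 w y ρ - a := fun y => by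
    rw [av_sub P.t0 hw.continuous continuous_const, av_const, P.one, one_smul]
  simp only [hav, sub_sub_sub_cancel_right] at k1 k2
  have key := mul_le_mul_of_nonneg_left (DecayA_num (V := 2 ^ Fintype.card ι)
    (R := ρ⁻¹ ^ (Fintype.card ι + 5)) (by positivity) (by positivity) hC2.le he hd.le ht.le ht1)
    hC1.le
  rw [← mul_assoc C1 (_ * _)] at key
  exact ⟨k1.trans key, fun y hy =>
    (k2 y hy).trans (mul_le_mul_of_nonneg_right key (norm_nonneg y))⟩

end Pool.Agent.Work.MP_bf98aa_gt
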