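import Pool.Agent.Work.MP_bf98aa_gt.Point1

/-!
Pointwise inequalities, part 2 (Young type inequalities and change of the base point).

PLAN. B = ‖b‖, Z = ‖x - b‖, C0 from near_le.
* young_s: C0 s B^k Z ≤ t B^k Z^2 + C0^2 s^2 B^k / (4 t); C0 s Z^(k+1) ≤ t Z^(k+2) + C s^(k+2) (cases
  C0 s ≤ t Z, or Z ≤ C0 s / t); s e B^(k+1) ≤ s^2 B^k + e^2 B^(k+2).
* young_z: with Y = ‖z‖: Y B^k Z ≤ B^k Y^2 + B^k Z^2, Y Z^(k+1) ≤ Y^(k+2) + Z^(k+2) (cases Y ≤ Z),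
  Y e B^(k+1) ≤ B^k Y^2 + e^2 B^(k+2); use pow_mul_sq_le_G, pow_le_G.
* G_transfer: z = x - b, y = a - b, x - a = z - y, ‖a‖ ≤ B + Y; both ‖a‖^k and ‖z - y‖^k are at most
  2^k (B^k + Y^k + Z^k), ‖z - y‖^2 ≤ 2 (Y^2 + Z^2), Y^k Z^2 ≤ Y^(k+2) + Z^(k+2) by cases.
  Second part: B ≤ ‖a‖ + Y.
-/

set_option autoImplicit false
set_option linter.unusedSectionVars false

open MeasureTheory Metric Matrix
open scoped ContDiff RealInnerProductSpace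

namespace Pool.Agent.Work.MP_bf98aa_gt

variable {E : Type} [NormedAddCommGroup E] [InnerProductSpace ℝ E]

lemma Point2_y {Y Z : ℝ} (hY : 0 ≤ Y) (hZ : 0 ≤ Z) (i j : ℕ) :
    Y ^ i * Z ^ j ≤ Y ^ (i + j) + Z ^ (i + j) := by
  rcases le_total Y Z with h | h
  · refine le_add_of_nonneg_of_le (by positivity) ?_
    rw [pow_add]
    gcongr
  · refine le_add_of_le_of_nonneg ?_ (by positivity)
    rw [pow_add]
    gcongr

lemma Point2_p {p q r : ℝ} (hp : 0 ≤ p) (hq : 0 ≤ q) (hr : 0 ≤ r) (h : r ≤ p + q) (k : ℕ) :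
    r ^ k ≤ 2 ^ k * (p ^ k + q ^ k) := by
  rw [mul_add, ← mul_pow, ← mul_pow]
  rcases le_total p q with h' | h'
  · exact le_add_of_nonneg_of_le (by positivity) (pow_le_pow_left₀ hr (by linarith) k)
  · exact le_add_of_le_of_nonneg (pow_le_pow_left₀ hr (by linarith) k) (by positivity)

lemma young_s (k : ℕ) {t : ℝ} (ht : 0 < t) : ∃ C : ℝ, 0 < C ∧ ∀ e : ℝ, 0 ≤ e → e ≤ 1 →
    ∀ (x f b : E) (s : ℝ), 0 ≤ s → ‖f - ‖x‖ ^ k • x‖ ≤ e * ‖x‖ ^ (k + 1) →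
    s * ‖f - ‖b‖ ^ k • b‖ ≤ t * G k b (x - b)
      + C * (s ^ 2 * ‖b‖ ^ k + s ^ (k + 2) + e ^ 2 * ‖b‖ ^ (k + 2)) := by
  obtain ⟨C, hC, h⟩ := near_le (E := E) k
  obtain ⟨u, hu, rfl⟩ : ∃ u, 0 < u ∧ C = t * u := ⟨C / t, by positivity, by field_simp⟩
  refine ⟨t * u ^ 2 + t * u ^ (k + 2) + t * u, by positivity, fun e e0 e1 x f b s hs hx => ?_⟩
  refine (mul_le_mul_of_nonneg_left (h e e0 e1 x f b hx) hs).trans ?_
  rw [G]
  have hB := norm_nonneg b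
  have hZ := norm_nonneg (x - b)
  generalize ‖b‖ = B at hB
  generalize ‖x - b‖ = Z at hZ
  have a1 := mul_le_mul_of_nonneg_left (Point2_y (mul_nonneg hu.le hs) hZ 1 1)
    (show 0 ≤ t * B ^ k by positivity)
  have a2 := mul_le_mul_of_nonneg_left (Point2_y hZ (mul_nonneg hu.le hs) (k + 1) 1) ht.le
  have a3 := mul_le_mul_of_nonneg_left (Point2_y hs (mul_nonneg e0 hB) 1 1)
    (show 0 ≤ t * u * B ^ k by positivity)
  have a4 : 0 ≤ t * u ^ 2 * (s ^ (k + 2) + e ^ 2 * B ^ (k + 2)) + t * u ^ (k + 2) *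
      (s ^ 2 * B ^ k + e ^ 2 * B ^ (k + 2)) + t * u * s ^ (k + 2) := by positivity
  linear_combination a1 + a2 + a3 + a4

lemma young_z (k : ℕ) : ∃ C : ℝ, 0 < C ∧ ∀ e : ℝ, 0 ≤ e → e ≤ 1 →
    ∀ x f b z : E, ‖f - ‖x‖ ^ k • x‖ ≤ e * ‖x‖ ^ (k + 1) →
    ‖z‖ * ‖f - ‖b‖ ^ k • b‖ ≤ C * (G k b z + G k b (x - b) + e ^ 2 * ‖b‖ ^ (k + 2)) := by
  obtain ⟨C, hC, h⟩ := young_s (E := E) k one_pos
  refine ⟨C + 1, by positivity, fun e e0 e1 x f b z hx => ?_⟩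
  refine (h e e0 e1 x f b _ (norm_nonneg z) hx).trans ?_
  have a1 : ‖z‖ ^ 2 * ‖b‖ ^ k + ‖z‖ ^ (k + 2) = G k b z := by
    rw [G]
    ring
  have a2 := G_nonneg k b z
  have a3 := mul_nonneg hC.le (G_nonneg k b (x - b))
  have a4 : 0 ≤ e ^ 2 * ‖b‖ ^ (k + 2) := by positivity
  rw [a1]
  linarith

lemma G_transfer (k : ℕ) : ∃ C : ℝ, 0 < C ∧ ∀ a b x : E,
    G k a (x - a) ≤ C * (G k b (x - b) + G k b (a - b)) ∧
    ‖b‖ ^ (k + 2) ≤ C * (‖a‖ ^ (k + 2) + G k b (a - b)) := by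
  refine ⟨10 * 2 ^ k, by positivity, fun a b x => ⟨?_, ?_⟩⟩
  · have hB := norm_nonneg b
    have hY := norm_nonneg (a - b)
    have hZ := norm_nonneg (x - b)
    have hD := norm_nonneg (x - a)
    have h1 : ‖a‖ ≤ ‖b‖ + ‖a - b‖ := norm_le_norm_add_norm_sub' a b
    have h2 : ‖x - a‖ ≤ ‖x - b‖ + ‖a - b‖ := by
      rw [norm_sub_rev a b]
      exact norm_sub_le_norm_sub_add_norm_sub x b a
    have a1 := Point2_p hB hY (norm_nonneg a) h1 k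
    have a2 := Point2_p hZ hY hD h2 k
    have a3 : ‖x - a‖ ^ 2 ≤ 2 * (‖x - b‖ ^ 2 + ‖a - b‖ ^ 2) :=
      (pow_le_pow_left₀ hD h2 2).trans (by nlinarith [sq_nonneg (‖x - b‖ - ‖a - b‖)])
    simp only [G]
    refine (mul_le_mul (add_le_add a1 a2) a3 (by positivity) (by positivity)).trans ?_
    generalize ‖b‖ = B at hB
    generalize ‖a - b‖ = Y at hY
    generalize ‖x - b‖ = Z at hZ
    have a4 := mul_le_mul_of_nonneg_left (Point2_y hY hZ k 2) (show (0 : ℝ) ≤ 2 ^ k by positivity)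
    have a5 := mul_le_mul_of_nonneg_left (Point2_y hZ hY k 2) (show (0 : ℝ) ≤ 2 ^ k by positivity)
    have a6 : 0 ≤ 2 ^ k * (8 * (B ^ k * Y ^ 2) + 8 * (B ^ k * Z ^ 2) + 2 * Z ^ (k + 2)) := by
      positivity
    linear_combination 4 * a4 + 2 * a5 + a6
  · have h1 : ‖b‖ ≤ ‖a‖ + ‖a - b‖ := by
      rw [norm_sub_rev]
      exact norm_le_norm_add_norm_sub' b a
    refine (Point2_p (norm_nonneg a) (norm_nonneg _) (norm_nonneg b) h1 (k + 2)).trans ?_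
    refine mul_le_mul ?_ (add_le_add le_rfl (pow_le_G k b _)) (by positivity) (by positivity)
    have : (0 : ℝ) ≤ 2 ^ k := by positivity
    rw [pow_add]
    linarith

end Pool.Agent.Work.MP_bf98aa_gt
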