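import Pool.Agent.Work.MP_bf98aa_gt.TE
import Pool.Agent.Work.MP_bf98aa_gt.Point2
import Pool.Agent.Work.MP_bf98aa_gt.Cut
import Pool.Agent.Work.MP_bf98aa_gt.AvBasic

/-!
The energy lemma (a Caccioppoli inequality against a mollified comparison).

PLAN. b' = ‖b‖ ^ k • b (skew), D y = F y - b', φ from exists_cutoff x r, c, C1, e1 from coercive, e0 = min e1 1.
A y = av p0 w y ρ. Pointwise ⟪D y, w y - b⟫ = ⟪A y - b, D y⟫ - ⟪A y - w y, D y⟫ and
⟪A y - w y, D y⟫ = ∫ v, p0 v * ⟪w (y + ρ • v) - w y, D y⟫ (integral_inner, P.one). Fubini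
(integral_integral_swap_of_hasCompactSupport or integral_integral_swap for a continuous function with compact
support on the product): ∫ φ ⟪A - w, D⟫ = ∫ v, p0 v * ∫ y, φ y * ⟪w (y + ρ • v) - w y, D y⟫. For ‖v‖ ≤ 1,
translate_estimate with the vector ρ • v, radius 2 r, Λ / r and B = C3 (2 En k w b x (3 r) + e^2 ‖b‖^(k+2) (4 r)^N)
(young_z; the translate of the cube of radius 2 r by t • ρ • v lies in the cube of radius 3 r;
setIntegral over a translate: use integral_add_right_eq_self with indicators, En_mono). So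
c ∫ φ G ≤ ∫ φ (s ‖D‖) + 2 N^3 ρ (Λ / r) B + C1 e^2 ‖b‖^(k+2) ∫ φ; young_s with t = c / 2 absorbs;
En k w b x r ≤ ∫ φ G, ∫ φ ≤ (4 r)^N, ρ / r ≤ 1.
-/

set_option autoImplicit false
set_option linter.unusedSectionVars false

open MeasureTheory Metric Matrix
open scoped ContDiff RealInnerProductSpace

namespace Pool.Agent.Work.MP_bf98aa_gt

variable {ι : Type} [Fintype ι] [DecidableEq ι]

lemma EL_shift (k : ℕ) (w : (ι → ℝ) → W ι) (b : W ι) (x u : ι → ℝ) (r : ℝ) :
    ∫ y in closedBall x r, G k b (w (y + u) - b) = En k w b (x + u) r := by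
  have e : (fun y => y + u) ⁻¹' closedBall (x + u) r = closedBall x r := by
    ext y
    simp only [Set.mem_preimage, mem_closedBall, dist_add_right]
  rw [← e]
  exact (measurePreserving_add_right volume u).setIntegral_preimage_emb
    (measurableEmbedding_addRight u) (fun y => G k b (w y - b)) _

lemma EL_io {f : (ι → ℝ) → ℝ} (hf : Continuous f) (x : ι → ℝ) (r : ℝ) :
    IntegrableOn f (closedBall x r) :=
  hf.continuousOn.integrableOn_compact (isCompact_closedBall x r)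

lemma EL_B {k : ℕ} {w F : (ι → ℝ) → W ι} (hw : Continuous w) (hF : Continuous F) {b b' : W ι}
    {C a : ℝ} (hC : 0 ≤ C)
    (h : ∀ y z, ‖z‖ * ‖F y - b'‖ ≤ C * (G k b z + G k b (w y - b) + a)) (x u : ι → ℝ) {r : ℝ}
    (hr : 0 < r) (hu : ‖u‖ ≤ r) :
    ∫ y in closedBall x (2 * r), ‖w (y + u) - b‖ * ‖F y - b'‖ ≤
      C * (2 * En k w b x (3 * r) + a * (4 * r) ^ Fintype.card ι) := by
  have c1 : Continuous fun y => G k b (w (y + u) - b) := continuous_G k b (by fun_prop)
  have c2 : Continuous fun y => G k b (w y - b) := continuous_G k b (by fun_prop)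
  refine (setIntegral_mono (EL_io (by fun_prop) x _) (EL_io (by fun_prop) x _)
    fun y => h y (w (y + u) - b)).trans ?_
  have c3 : Continuous fun y => G k b (w (y + u) - b) + G k b (w y - b) := c1.add c2
  rw [integral_const_mul, integral_add (EL_io c3 x _) (EL_io continuous_const x _),
    integral_add (EL_io c1 x _) (EL_io c2 x _), EL_shift, setIntegral_const,
    volume_real_cube x (by positivity), smul_eq_mul]
  refine mul_le_mul_of_nonneg_left ?_ hC
  have h1 : En k w b (x + u) (2 * r) ≤ En k w b x (3 * r) :=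
    En_mono k hw b (closedBall_subset_closedBall' (by
      rw [dist_eq_norm, add_sub_cancel_left]
      linarith))
  have h2 : ∫ y in closedBall x (2 * r), G k b (w y - b) ≤ En k w b x (3 * r) :=
    En_mono k hw b (closedBall_subset_closedBall (by linarith))
  rw [show 2 * (2 * r) = 4 * r by ring]
  linarith

lemma EL_inner (P : Prof ι) {w : (ι → ℝ) → W ι} (hw : Continuous w) (y : ι → ℝ) (ρ : ℝ) (d : W ι) :
    ∫ v, P.p0 v * ⟪w (y + ρ • v) - w y, d⟫ = ⟪av P.p0 w y ρ - w y, d⟫ := by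
  have e : av P.p0 w y ρ - w y = av P.p0 (fun z => w z - w y) y ρ := by
    rw [av_sub P.t0 hw continuous_const, av_const, P.one, one_smul]
  rw [e, av, real_inner_comm,
    ← integral_inner (integrable_av P.t0 (f := fun z => w z - w y) (by fun_prop) y ρ)]
  simp only [real_inner_smul_right, real_inner_comm d]

lemma EL_fub (P : Prof ι) {w D : (ι → ℝ) → W ι} (hw : Continuous w) (hD : Continuous D)
    {φ : (ι → ℝ) → ℝ} (hφ : Continuous φ) {x : ι → ℝ} {r : ℝ}
    (h0 : ∀ y, y ∉ closedBall x r → φ y = 0) (ρ : ℝ) {M : ℝ}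
    (hM : ∀ v, ‖v‖ ≤ 1 → |∫ y, φ y * ⟪w (y + ρ • v) - w y, D y⟫| ≤ M) :
    Integrable (fun y => φ y * ⟪av P.p0 w y ρ - w y, D y⟫) ∧
      |∫ y, φ y * ⟪av P.p0 w y ρ - w y, D y⟫| ≤ M := by
  have hp := P.t0.1.continuous
  have hI : Integrable (Function.uncurry fun y v => φ y * (P.p0 v * ⟪w (y + ρ • v) - w y, D y⟫))
      ((volume : Measure (ι → ℝ)).prod (volume : Measure (ι → ℝ))) := by
    refine Continuous.integrable_of_hasCompactSupport ?_ ?_
    · unfold Function.uncurry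
      fun_prop
    · refine HasCompactSupport.intro
        ((isCompact_closedBall x r).prod (isCompact_closedBall (0 : ι → ℝ) 1)) fun p hp => ?_
      rw [Set.mem_prod, not_and_or] at hp
      rcases hp with hp | hp
      · simp only [Function.uncurry, h0 _ hp, zero_mul]
      · simp only [Function.uncurry, P.t0.zero _ hp, zero_mul, mul_zero]
  have e : ∀ y, φ y * ⟪av P.p0 w y ρ - w y, D y⟫ =
      ∫ v, φ y * (P.p0 v * ⟪w (y + ρ • v) - w y, D y⟫) := fun y => by
    rw [integral_const_mul, EL_inner P hw]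
  simp only [e]
  refine ⟨hI.integral_prod_left, ?_⟩
  rw [integral_integral_swap hI, ← Real.norm_eq_abs]
  have hi : Integrable fun v => P.p0 v * M :=
    (hp.integrable_of_hasCompactSupport P.t0.compact).mul_const M
  refine (norm_integral_le_of_norm_le hi (Filter.Eventually.of_forall fun v => ?_)).trans_eq ?_
  · simp only [mul_left_comm _ (P.p0 v)]
    rw [integral_const_mul, Real.norm_eq_abs, abs_mul, abs_of_nonneg (P.nonneg v)]
    rcases le_or_gt ‖v‖ 1 with h | h
    · exact mul_le_mul_of_nonneg_left (hM v h) (P.nonneg v)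
    · rw [P.t0.2 v h, zero_mul, zero_mul]
  · rw [integral_mul_const, P.one, one_mul]

lemma EL_arith {c C1 C2 Q T S E R x X Y I J : ℝ} (hc : 0 < c) (hC1 : 0 < C1) (hC2 : 0 < C2)
    (hQ : 0 ≤ Q) (hT : 0 ≤ T) (hE : 0 ≤ E) (hES : E ≤ S) (hR : 0 ≤ R) (hx : 0 ≤ x) (hx1 : x ≤ 1)
    (hY : 0 ≤ Y) (h1 : X ≤ I) (h2 : J ≤ T * R)
    (h3 : c / 2 * I ≤ J * (C2 * S + C1 * E) + Q * x * (2 * Y + E * (T * R))) :
    X ≤ 2 / c * ((C1 + C2 + Q) * T + 2 * Q) * S * R +
      2 / c * ((C1 + C2 + Q) * T + 2 * Q) * x * Y := by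
  have hS : 0 ≤ S := hE.trans hES
  have a1 : J * (C2 * S + C1 * E) ≤ T * R * (C2 * S + C1 * S) := by gcongr
  have a2 : Q * x * (E * (T * R)) ≤ Q * 1 * (S * (T * R)) := by gcongr
  have a3 : 0 ≤ 2 * Q * S * R := by positivity
  have a4 : 0 ≤ (C1 + C2 + Q) * T * x * Y := by positivity
  have a5 : c / 2 * X ≤ c / 2 * I := by gcongr
  refine le_of_mul_le_mul_left ?_ (half_pos hc)
  have e : c / 2 * (2 / c * ((C1 + C2 + Q) * T + 2 * Q) * S * R +
      2 / c * ((C1 + C2 + Q) * T + 2 * Q) * x * Y) =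
      ((C1 + C2 + Q) * T + 2 * Q) * S * R + ((C1 + C2 + Q) * T + 2 * Q) * x * Y := by
    field_simp
  rw [e]
  linarith

lemma energy_lemma (k : ℕ) : ∃ C e0 : ℝ, 0 < C ∧ 0 < e0 ∧ ∀ P : Prof ι, ∀ e : ℝ, 0 ≤ e → e ≤ e0 →
    ∀ w F : (ι → ℝ) → W ι, Sys k e w F → ∀ b : W ι, SkewW b →
    ∀ (x : ι → ℝ) (r ρ s : ℝ), 0 < r → 0 < ρ → ρ ≤ r → 0 ≤ s →
    (∀ y ∈ closedBall x (2 * r), ‖av P.p0 w y ρ - b‖ ≤ s) →
    En k w b x r ≤ C * (s ^ 2 * ‖b‖ ^ k + s ^ (k + 2) + e ^ 2 * ‖b‖ ^ (k + 2)) * r ^ Fintype.card ι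
      + C * (ρ / r) * En k w b x (3 * r) := by
  obtain ⟨c, C1, e1, hc, hC1, he1, hco⟩ := coercive (E := W ι) k
  obtain ⟨C2, hC2, hys⟩ := young_s (E := W ι) k (half_pos hc)
  obtain ⟨C3, hC3, hyz⟩ := young_z (E := W ι) k
  obtain ⟨Λ, hΛ, hcut⟩ := exists_cutoff (ι := ι)
  refine ⟨2 / c * ((C1 + C2 + 2 * (Fintype.card ι : ℝ) ^ 3 * Λ * C3) * 4 ^ Fintype.card ι +
    2 * (2 * (Fintype.card ι : ℝ) ^ 3 * Λ * C3)), min e1 1, by positivity, lt_min he1 one_pos, ?_⟩
  intro P e he he0 w F hS b hb x r ρ s hr hρ hρr hs hA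
  obtain ⟨φ, hφ, p0, p1, p2, p3, p4⟩ := hcut x r hr
  have he1' := he0.trans (min_le_left _ _)
  have he2 := he0.trans (min_le_right _ _)
  have hw := hS.sw.continuous
  have hF := hS.sF.continuous
  have hφc := hφ.continuous
  have hb' : SkewW (‖b‖ ^ k • b) := fun i j => by
    simp only [PiLp.smul_apply, smul_eq_mul, hb i j, mul_neg]
  have hEn := En_nonneg k w b x (3 * r)
  obtain ⟨hI, hM⟩ := EL_fub P hw (D := fun y => F y - ‖b‖ ^ k • b) (by fun_prop) hφc p3 ρ
    (M := 2 * (Fintype.card ι : ℝ) ^ 3 * ρ * (Λ / r) * (C3 * (2 * En k w b x (3 * r) +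
      e ^ 2 * ‖b‖ ^ (k + 2) * (4 * r) ^ Fintype.card ι))) fun v hv => by
      have hv' : ‖ρ • v‖ ≤ ρ := by
        rw [norm_smul, Real.norm_of_nonneg hρ.le]
        exact mul_le_of_le_one_right hρ.le hv
      refine (translate_estimate hS.sw hS.sF hS.skw hS.skF hS.closed hS.coclosed hφ p3 p4 b _ hb'
        (ρ • v) fun t ht => EL_B hw hF hC3.le
          (fun y z => hyz e he he2 (w y) (F y) b z (hS.near y)) x _ hr ?_).trans ?_
      · rw [norm_smul, Real.norm_of_nonneg ht.1]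
        exact (mul_le_of_le_one_left (norm_nonneg _) ht.2).trans (hv'.trans hρr)
      · gcongr
  have hcs := hasCompactSupport_of_ball p3
  have cG : Continuous fun y => G k b (w y - b) := continuous_G k b (by fun_prop)
  have i1 : Integrable φ := hφc.integrable_of_hasCompactSupport hcs
  have i2 : Integrable fun y => φ y * G k b (w y - b) :=
    (hφc.mul cG).integrable_of_hasCompactSupport hcs.mul_right
  have hpt : ∀ y, c / 2 * (φ y * G k b (w y - b)) ≤
      φ y * (C2 * (s ^ 2 * ‖b‖ ^ k + s ^ (k + 2) + e ^ 2 * ‖b‖ ^ (k + 2)) +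
        C1 * (e ^ 2 * ‖b‖ ^ (k + 2))) - φ y * ⟪av P.p0 w y ρ - w y, F y - ‖b‖ ^ k • b⟫ := by
    intro y
    by_cases hy : y ∈ closedBall x (2 * r)
    · rw [← mul_sub, mul_left_comm]
      refine mul_le_mul_of_nonneg_left ?_ (p0 y)
      have a1 := hco e he he1' (w y) (F y) b (hS.near y)
      have a2 := hys e he he2 (w y) (F y) b s hs (hS.near y)
      have a3 := (real_inner_le_norm (av P.p0 w y ρ - b) (F y - ‖b‖ ^ k • b)).trans
        (mul_le_mul_of_nonneg_right (hA y hy) (norm_nonneg _))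
      have a4 : ⟪F y - ‖b‖ ^ k • b, w y - b⟫ = ⟪av P.p0 w y ρ - b, F y - ‖b‖ ^ k • b⟫ -
          ⟪av P.p0 w y ρ - w y, F y - ‖b‖ ^ k • b⟫ := by
        rw [← inner_sub_left, sub_sub_sub_cancel_left, real_inner_comm]
      linarith
    · simp only [p3 y hy, zero_mul, mul_zero, sub_zero, le_refl]
  have h3 := integral_mono (i2.const_mul _) ((i1.mul_const _).sub hI) hpt
  rw [integral_const_mul] at h3
  erw [integral_sub (i1.mul_const _) hI] at h3
  rw [integral_mul_const] at h3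
  have h1 : En k w b x r ≤ ∫ y, φ y * G k b (w y - b) := by
    rw [En, ← setIntegral_congr_fun (f := fun y => φ y * G k b (w y - b)) measurableSet_closedBall
      fun y hy => by simp only [p2 y hy, one_mul]]
    exact setIntegral_le_integral i2
      (Filter.Eventually.of_forall fun y => mul_nonneg (p0 y) (G_nonneg _ _ _))
  have h2 : ∫ y, φ y ≤ 4 ^ Fintype.card ι * r ^ Fintype.card ι := by
    rw [← setIntegral_eq_integral_of_forall_compl_eq_zero p3]
    refine (setIntegral_mono (EL_io hφc x _) (EL_io continuous_const x _) p1).trans_eq ?_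
    rw [setIntegral_const, volume_real_cube x (by positivity), smul_eq_mul, mul_one, ← mul_pow]
    congr 1
    ring
  refine EL_arith (E := e ^ 2 * ‖b‖ ^ (k + 2)) hc hC1 hC2 (by positivity) (by positivity)
    (by positivity) (le_add_of_nonneg_left (by positivity)) (by positivity) (by positivity)
    ((div_le_one hr).2 hρr) hEn h1 h2 (h3.trans ?_)
  have h4 := (abs_le.1 hM).1
  rw [mul_pow 4 r] at h4
  have e : 2 * (Fintype.card ι : ℝ) ^ 3 * ρ * (Λ / r) * (C3 * (2 * En k w b x (3 * r) +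
      e ^ 2 * ‖b‖ ^ (k + 2) * (4 ^ Fintype.card ι * r ^ Fintype.card ι))) =
      2 * (Fintype.card ι : ℝ) ^ 3 * Λ * C3 * (ρ / r) * (2 * En k w b x (3 * r) +
        e ^ 2 * ‖b‖ ^ (k + 2) * (4 ^ Fintype.card ι * r ^ Fintype.card ι)) := by ring
  linarith

end Pool.Agent.Work.MP_bf98aa_gt
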