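import Pool.Agent.Work.MP_bf98aa_gt.Point2

/-!
Change of the base point in the energy, and selection of a value of `w` as base point.

PLAN. C4 from G_transfer. En_transfer: integrate the pointwise inequality over the cube
(setIntegral_mono_on, continuous_G, ContinuousOn.integrableOn_compact, setIntegral_const,
volume_real_cube). select: g = q ‖b‖^(k+2) + l; take y in the cube minimising G k b (w y - b)
(IsCompact.exists_isMinOn); then G k b (w y - b) (2r)^N ≤ En ≤ g r^N, so G k b (w y - b) ≤ g.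
With q0 = 1 / (2 C4): ‖b‖^(k+2) ≤ C4 (‖w y‖^(k+2) + g) gives g ≤ 2 (q C4 ‖w y‖^(k+2) + l); En_transfer.
-/

set_option autoImplicit false
set_option linter.unusedSectionVars false

open MeasureTheory Metric Matrix
open scoped ContDiff RealInnerProductSpace

namespace Pool.Agent.Work.MP_bf98aa_gt

variable {ι : Type} [Fintype ι] [DecidableEq ι]

lemma Sel_int (k : ℕ) {w : (ι → ℝ) → W ι} (hw : Continuous w) (b : W ι) (x : ι → ℝ) (r : ℝ) :
    IntegrableOn (fun y => G k b (w y - b)) (closedBall x r) :=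
  (continuous_G k b (hw.sub continuous_const)).continuousOn.integrableOn_compact
    (isCompact_closedBall x r)

lemma Sel_const (c : ℝ) (x : ι → ℝ) (r : ℝ) : IntegrableOn (fun _ => c) (closedBall x r) :=
  continuous_const.continuousOn.integrableOn_compact (isCompact_closedBall x r)

lemma En_transfer (k : ℕ) : ∃ C : ℝ, 0 < C ∧ ∀ w : (ι → ℝ) → W ι, Continuous w →
    ∀ (a b : W ι) (x : ι → ℝ) (r : ℝ), 0 ≤ r →
    En k w a x r ≤ C * (En k w b x r + G k b (a - b) * r ^ Fintype.card ι) := by
  obtain ⟨C, hC, h⟩ := G_transfer (E := W ι) k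
  refine ⟨C * 2 ^ Fintype.card ι, by positivity, fun w hw a b x r hr => ?_⟩
  have h1 : En k w a x r ≤ ∫ y in closedBall x r, C * (G k b (w y - b) + G k b (a - b)) :=
    setIntegral_mono_on (Sel_int k hw a x r)
      (((Sel_int k hw b x r).add (Sel_const _ x r)).const_mul C) measurableSet_closedBall
      fun y _ => (h a b (w y)).1
  rw [integral_const_mul, integral_add (Sel_int k hw b x r) (Sel_const _ x r), setIntegral_const,
    volume_real_cube x hr, smul_eq_mul, mul_pow] at h1
  have h2 : (1 : ℝ) ≤ 2 ^ Fintype.card ι := one_le_pow₀ (by norm_num)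
  have h3 : En k w b x r ≤ 2 ^ Fintype.card ι * En k w b x r :=
    le_mul_of_one_le_left (En_nonneg k w b x r) h2
  refine h1.trans ?_
  rw [mul_assoc C]
  refine mul_le_mul_of_nonneg_left ?_ hC.le
  change En k w b x r + _ ≤ _
  rw [mul_add]
  linarith

lemma select (k : ℕ) : ∃ C q0 : ℝ, 0 < C ∧ 0 < q0 ∧ ∀ w : (ι → ℝ) → W ι, Continuous w →
    ∀ (b : W ι) (x : ι → ℝ) (r q l : ℝ), 0 < r → 0 ≤ q → q ≤ q0 → 0 ≤ l →
    En k w b x r ≤ (q * ‖b‖ ^ (k + 2) + l) * r ^ Fintype.card ι →
    ∃ y, En k w (w y) x r ≤ C * (q * ‖w y‖ ^ (k + 2) + l) * r ^ Fintype.card ι := by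
  obtain ⟨C1, hC1, h1⟩ := En_transfer (ι := ι) k
  obtain ⟨C, hC, h⟩ := G_transfer (E := W ι) k
  refine ⟨4 * C1 * (C + 1), 1 / (2 * C), by positivity, by positivity, ?_⟩
  intro w hw b x r q l hr hq hq0 hl hE
  obtain ⟨y, _, hy⟩ := (isCompact_closedBall x r).exists_isMinOn
    (nonempty_closedBall.2 hr.le) (continuous_G k b (hw.sub continuous_const)).continuousOn
  refine ⟨y, ?_⟩
  have h2 : ∫ _ in closedBall x r, G k b (w y - b) ≤ En k w b x r :=
    setIntegral_mono_on (Sel_const _ x r) (Sel_int k hw b x r) measurableSet_closedBall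
      fun z hz => hy hz
  rw [setIntegral_const, volume_real_cube x hr.le, smul_eq_mul, mul_pow] at h2
  have h3 : (1 : ℝ) ≤ 2 ^ Fintype.card ι := one_le_pow₀ (by norm_num)
  have hR : 0 < r ^ Fintype.card ι := pow_pos hr _
  have h4 := h1 w hw (w y) b x r hr.le
  have h5 := (h (w y) b b).2
  have hG := G_nonneg k b (w y - b)
  have hA : 0 ≤ ‖w y‖ ^ (k + 2) := by positivity
  generalize r ^ Fintype.card ι = R at *
  generalize (2 : ℝ) ^ Fintype.card ι = T at *
  generalize G k b (w y - b) = G0 at *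
  generalize ‖w y‖ ^ (k + 2) = A at *
  generalize ‖b‖ ^ (k + 2) = B at *
  generalize En k w b x r = Eb at *
  generalize En k w (w y) x r = Ey at *
  have h6 : G0 * R ≤ Eb := by
    have := mul_le_mul_of_nonneg_right h3 (mul_nonneg hG hR.le)
    nlinarith
  have h7 : G0 ≤ q * B + l := le_of_mul_le_mul_right (h6.trans hE) hR
  have h8 : q * C ≤ 1 / 2 := by
    rw [le_div_iff₀ (by positivity)] at hq0
    linarith
  have h9 : q * B ≤ q * C * A + q * C * G0 := by
    have := mul_le_mul_of_nonneg_left h5 hq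
    linarith
  have h10 : q * C * G0 ≤ 1 / 2 * G0 := mul_le_mul_of_nonneg_right h8 hG
  have h11 : q * B + l ≤ 2 * (C + 1) * (q * A + l) := by
    have := mul_nonneg hq hA
    have := mul_nonneg hC.le hl
    nlinarith
  have h12 : Eb + G0 * R ≤ 2 * (2 * (C + 1) * (q * A + l) * R) := by
    have := mul_le_mul_of_nonneg_right h11 hR.le
    linarith
  have h13 := mul_le_mul_of_nonneg_left h12 hC1.le
  calc Ey ≤ _ := h4.trans h13
    _ = _ := by ring

end Pool.Agent.Work.MP_bf98aa_gt
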