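import Pool.Agent.Work.MP_bf98aa_gt.DecayA
import Pool.Agent.Work.MP_bf98aa_gt.EL
import Pool.Agent.Work.MP_bf98aa_gt.Sel

/-!
The decay lemma on the unit cube.

PLAN. P from exists_prof; constants: Co (osc_unit), Ce, ee (energy_lemma), Ct (En_transfer), Cs, q0 (select).
a = w y0, b = av p0 w 0 ρ (skewW_av). For given θ ≤ 1/4, ρ ≤ θ choose d0 so small that
ρ⁻¹^(N+5) * 2 d ≤ sqrt d and 2 Co sqrt d ≤ 1/2 for d ≤ d0, and e0 ≤ min d ee. Then ‖b - a‖ ≤ 2 Co sqrt d ≤ 1/2,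
1/2 ≤ ‖b‖ ≤ 2, s = 4 Co θ sqrt d ≤ 1 bounds ‖av p0 w y ρ - b‖ on the cube of radius 2 θ. G k a (b - a) ≤ 2 ‖b - a‖^2
≤ 8 Co^2 d, so En k w b 0 (3 θ) ≤ En k w b 0 1 ≤ Ct (1 + 8 Co^2) d. energy_lemma: En k w b 0 θ ≤ q1 θ^N with
q1 = K (θ^2 + d + ρ / θ^(N+1)) d, K depending only on the constants (e^2 ≤ d^2, s^(k+2) ≤ s^2, ‖b‖^k ≤ 2^k);
1 ≤ 2^(k+2) ‖b‖^(k+2), so select applies with q = 2^(k+2) q1, l = 0. Choose θ, then ρ, then d0 with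
Cs 2^(k+2) K (θ^2 + d0 + ρ / θ^(N+1)) ≤ 1 and d0 ≤ Cs q0.
-/

set_option autoImplicit false
set_option linter.unusedSectionVars false

open MeasureTheory Metric Matrix
open scoped ContDiff RealInnerProductSpace

namespace Pool.Agent.Work.MP_bf98aa_gt

variable {ι : Type} [Fintype ι] [DecidableEq ι]

lemma DecayB_arith {Ce Co T θ t e β E3 : ℝ} (k N : ℕ) (hCe : 0 < Ce) (hCo : 0 < Co) (hθ : 0 < θ)
    (hθ1 : θ ≤ 1 / 4) (ht : 0 ≤ t) (ht1 : Co * t ≤ 1 / 4) (ht2 : t ^ 2 ≤ θ) (he : 0 ≤ e)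
    (he1 : e ≤ t ^ 2) (hβ : 0 ≤ β) (hβ1 : β ≤ 2) (hE : E3 ≤ T * t ^ 2) :
    Ce * ((4 * Co * t * θ) ^ 2 * β ^ k + (4 * Co * t * θ) ^ (k + 2) + e ^ 2 * β ^ (k + 2)) * θ ^ N
      + Ce * (θ ^ (N + 2) / θ) * E3
      ≤ Ce * (16 * Co ^ 2 * (2 ^ k + 1) + 2 ^ (k + 2) + T) * θ * t ^ 2 * θ ^ N := by
  have s0 : 0 ≤ 4 * Co * t * θ := by positivity
  have s1 : 4 * Co * t * θ ≤ 1 := by nlinarith
  have s2 : (4 * Co * t * θ) ^ 2 ≤ 16 * Co ^ 2 * θ * t ^ 2 := by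
    have : 16 * Co ^ 2 * θ * t ^ 2 * θ ≤ 16 * Co ^ 2 * θ * t ^ 2 :=
      mul_le_of_le_one_right (by positivity) (by linarith)
    linarith
  have a1 : (4 * Co * t * θ) ^ 2 * β ^ k ≤ 16 * Co ^ 2 * θ * t ^ 2 * 2 ^ k := by gcongr
  have a2 : (4 * Co * t * θ) ^ (k + 2) ≤ 16 * Co ^ 2 * θ * t ^ 2 :=
    (pow_le_pow_of_le_one s0 s1 (Nat.le_add_left 2 k)).trans s2
  have a3 : e ^ 2 * β ^ (k + 2) ≤ θ * t ^ 2 * 2 ^ (k + 2) := by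
    rw [sq e]
    gcongr
    exact he1.trans ht2
  have e1 : θ ^ (N + 2) / θ = θ * θ ^ N := by
    field_simp
    ring
  rw [e1]
  calc _ ≤ Ce * (16 * Co ^ 2 * θ * t ^ 2 * 2 ^ k + 16 * Co ^ 2 * θ * t ^ 2
        + θ * t ^ 2 * 2 ^ (k + 2)) * θ ^ N + Ce * (θ * θ ^ N) * (T * t ^ 2) := by gcongr
    _ = _ := by ring

lemma decay_unit (k : ℕ) : ∃ θ : ℝ, 0 < θ ∧ θ < 1 ∧ ∃ d0 : ℝ, 0 < d0 ∧ ∀ d : ℝ, 0 < d → d ≤ d0 →
    ∃ e0 : ℝ, 0 < e0 ∧ ∀ e : ℝ, 0 ≤ e → e ≤ e0 → ∀ w F : (ι → ℝ) → W ι, Sys k e w F →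
    ∀ y0 : ι → ℝ, ‖w y0‖ = 1 → En k w (w y0) 0 1 ≤ d → Good k d w 0 θ := by
  obtain ⟨P⟩ := exists_prof (ι := ι)
  obtain ⟨Co, hCo, hosc⟩ := osc_unit P k
  obtain ⟨Ce, ee, hCe, hee, hen⟩ := energy_lemma (ι := ι) k
  obtain ⟨Ct, hCt, htr⟩ := En_transfer (ι := ι) k
  obtain ⟨Cs, q0, hCs, hq0, hsel⟩ := select (ι := ι) k
  obtain ⟨K, hK⟩ : ∃ K, K = Ce * (16 * Co ^ 2 * (2 ^ k + 1) + 2 ^ (k + 2) + Ct * (1 + 8 * Co ^ 2)) :=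
    ⟨_, rfl⟩
  have hK0 : 0 < K := by rw [hK]; positivity
  obtain ⟨θ, hθ, hθ1, hθ2⟩ : ∃ θ : ℝ, 0 < θ ∧ θ ≤ 1 / 4 ∧ θ ≤ (1 / 2) ^ (k + 2) / (Cs * K) :=
    ⟨min _ _, lt_min (by norm_num) (by positivity), min_le_left _ _, min_le_right _ _⟩
  obtain ⟨ρ, hρ⟩ : ∃ ρ, ρ = θ ^ (Fintype.card ι + 2) := ⟨_, rfl⟩
  have hρ0 : 0 < ρ := by rw [hρ]; positivity
  have hρ1 : ρ ≤ θ := by
    rw [hρ]
    exact pow_le_of_le_one hθ.le (by linarith) (by omega)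
  obtain ⟨σ, hσ, hσ1, hσ2⟩ : ∃ σ : ℝ, 0 < σ ∧ σ ≤ 1 / (4 * Co) ∧
      σ ≤ ρ ^ (Fintype.card ι + 5) / 2 :=
    ⟨min _ _, lt_min (by positivity) (by positivity), min_le_left _ _, min_le_right _ _⟩
  refine ⟨θ, hθ, by linarith, min (min θ (Cs * q0)) (σ ^ 2),
    lt_min (lt_min hθ (by positivity)) (by positivity), fun d hd hd0 => ⟨min d ee, lt_min hd hee, ?_⟩⟩
  intro e he he0 w F hS y0 hy hE
  obtain ⟨⟨d1, d2⟩, d3⟩ : (d ≤ θ ∧ d ≤ Cs * q0) ∧ d ≤ σ ^ 2 := by simpa only [le_min_iff] using hd0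
  obtain ⟨e1, e2⟩ := le_min_iff.1 he0
  have hw := hS.sw.continuous
  obtain ⟨o1, o2⟩ := hosc e d ρ he (by linarith) hd (by linarith) hρ0 (by linarith) w F hS y0 hy hE
  have t0 := Real.sqrt_nonneg d
  have t1 : √d ≤ σ := Real.sqrt_le_iff.2 ⟨hσ.le, d3⟩
  have t2 : √d ^ 2 = d := Real.sq_sqrt hd.le
  generalize √d = t at o1 o2 t0 t1 t2
  subst t2
  have t3 : Co * t ≤ 1 / 4 := by
    have := t1.trans hσ1
    rw [le_div_iff₀ (by positivity)] at this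
    linarith
  have t4 : Co * (t + ρ⁻¹ ^ (Fintype.card ι + 5) * (t ^ 2 + e)) ≤ 2 * Co * t := by
    have a1 : ρ⁻¹ ^ (Fintype.card ι + 5) * (t ^ 2 + e) ≤ t := by
      rw [inv_pow, inv_mul_le_iff₀ (by positivity)]
      nlinarith [mul_le_mul_of_nonneg_right (t1.trans hσ2) t0]
    nlinarith
  have hskew := skewW_av P.t0 hw hS.skw 0 ρ
  generalize av P.p0 w 0 ρ = b at o1 o2 hskew
  replace o1 := o1.trans t4
  have b1 := abs_le.1 ((abs_norm_sub_norm_le b (w y0)).trans o1)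
  rw [hy] at b1
  have g1 : G k (w y0) (b - w y0) ≤ 8 * Co ^ 2 * t ^ 2 := by
    have a1 : ‖b - w y0‖ ^ k ≤ 1 := pow_le_one₀ (norm_nonneg _) (by linarith)
    have a2 := pow_le_pow_left₀ (norm_nonneg _) o1 2
    rw [G, hy, one_pow]
    nlinarith [mul_le_mul_of_nonneg_right a1 (sq_nonneg ‖b - w y0‖)]
  have g2 : En k w b 0 (3 * θ) ≤ Ct * (1 + 8 * Co ^ 2) * t ^ 2 := by
    refine (En_mono k hw b (closedBall_subset_closedBall (by linarith : 3 * θ ≤ 1))).trans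
      ((htr w hw b (w y0) 0 1 zero_le_one).trans ?_)
    rw [one_pow, mul_one, mul_assoc]
    exact mul_le_mul_of_nonneg_left (by linarith) hCt.le
  have g3 := hen P e he e2 w F hS b hskew 0 θ ρ (4 * Co * t * θ) hθ hρ0 hρ1 (by positivity)
    fun y hy' => by
      refine (o2 y (closedBall_subset_closedBall (by linarith) hy')).trans ?_
      rw [mem_closedBall_zero_iff] at hy'
      exact (mul_le_mul t4 hy' (norm_nonneg _) (by positivity)).trans (le_of_eq (by ring))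
  rw [hρ] at g3
  have g4 := g3.trans (DecayB_arith k _ hCe hCo hθ hθ1 t0 t3 d1 he e1 (norm_nonneg b)
    (by linarith [b1.2]) g2)
  rw [← hK] at g4
  obtain ⟨y, hy⟩ := hsel w hw b 0 θ (t ^ 2 / Cs) 0 hθ (by positivity)
    (by rw [div_le_iff₀ hCs]; linarith) le_rfl (g4.trans (by
      refine mul_le_mul_of_nonneg_right ?_ (by positivity)
      have a1 : (1 / 2 : ℝ) ^ (k + 2) ≤ ‖b‖ ^ (k + 2) :=
        pow_le_pow_left₀ (by norm_num) (by linarith [b1.1]) _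
      rw [le_div_iff₀ (by positivity)] at hθ2
      rw [add_zero, div_mul_eq_mul_div, le_div_iff₀ hCs]
      nlinarith [mul_le_mul_of_nonneg_left (hθ2.trans a1) (sq_nonneg t)]))
  refine ⟨y, hy.trans (le_of_eq ?_)⟩
  field_simp
  ring

end Pool.Agent.Work.MP_bf98aa_gt
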