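import Mathlib

/-!
Differential 2-forms on the flat torus `ℝ^ι / L ℤ^ι`, written as matrix valued functions on `ℝ^ι`:
the entry `w x i j` is the value of the form at `x` on the pair of standard basis vectors `i`, `j`.
The flat metric is the standard Euclidean one, `L` is an arbitrary basis of the lattice.
-/

set_option autoImplicit false

open Matrix
open scoped ContDiff

namespace Pool.Agent.Work.MP_bf98aa_gt

variable {ι : Type} [Fintype ι] [DecidableEq ι]

/-- The partial derivative in the direction of the `i`-th coordinate. -/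
noncomputable def pd (i : ι) (f : (ι → ℝ) → ℝ) (x : ι → ℝ) : ℝ :=
  fderiv ℝ f x (Pi.single i 1)

/-- At every point the matrix is skew and invertible, and the family is periodic for the lattice
`L ℤ^ι`: a nondegenerate 2-form on the torus (no regularity imposed here). -/
def NondegForm (L : Matrix ι ι ℝ) (w : (ι → ℝ) → Matrix ι ι ℝ) : Prop :=
  (∀ x, (w x)ᵀ = -w x) ∧ (∀ x, (w x).det ≠ 0) ∧
    ∀ (x : ι → ℝ) (z : ι → ℤ), w (x + L *ᵥ fun i => (z i : ℝ)) = w x

/-- All coefficients are smooth. -/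
def SmoothForm (w : (ι → ℝ) → Matrix ι ι ℝ) : Prop :=
  ∀ i j, ContDiff ℝ ∞ fun x => w x i j

/-- A symplectic form on the torus: smooth, nondegenerate and closed. -/
def Symplectic (L : Matrix ι ι ℝ) (w : (ι → ℝ) → Matrix ι ι ℝ) : Prop :=
  SmoothForm w ∧ NondegForm L w ∧
    ∀ x i j l, pd i (fun y => w y j l) x + pd j (fun y => w y l i) x
      + pd l (fun y => w y i j) x = 0

/-- At every point the squares of the singular values of the form lie in an interval
`[m, (1 + e) m]`, where `m > 0` may depend on the point. -/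
def Pinched (e : ℝ) (w : (ι → ℝ) → Matrix ι ι ℝ) : Prop :=
  ∀ x, ∃ m : ℝ, 0 < m ∧ ∀ v : ι → ℝ,
    m * (v ⬝ᵥ v) ≤ (w x *ᵥ v) ⬝ᵥ (w x *ᵥ v) ∧ (w x *ᵥ v) ⬝ᵥ (w x *ᵥ v) ≤ (1 + e) * m * (v ⬝ᵥ v)

/-- The mean value of the coefficients over the torus. -/
noncomputable def mean (L : Matrix ι ι ℝ) (w : (ι → ℝ) → Matrix ι ι ℝ) : Matrix ι ι ℝ :=
  Matrix.of fun i j => ∫ u in Set.Icc (0 : ι → ℝ) 1, w (L *ᵥ u) i j

/-- Homotopic through nondegenerate 2-forms on the torus (joint continuity only). -/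
def Homotopic (L : Matrix ι ι ℝ) (w₀ w₁ : (ι → ℝ) → Matrix ι ι ℝ) : Prop :=
  ∃ H : ℝ → (ι → ℝ) → Matrix ι ι ℝ,
    (∀ i j, ContinuousOn (fun p : ℝ × (ι → ℝ) => H p.1 p.2 i j) (Set.Icc 0 1 ×ˢ Set.univ)) ∧
    H 0 = w₀ ∧ H 1 = w₁ ∧ ∀ t ∈ Set.Icc (0 : ℝ) 1, NondegForm L (H t)

/-- The form is preserved by the affine map `x ↦ A x + c`. -/
def Preserves (A : Matrix ι ι ℝ) (c : ι → ℝ) (w : (ι → ℝ) → Matrix ι ι ℝ) : Prop :=
  ∀ x, Aᵀ * w (A *ᵥ x + c) * A = w x

end Pool.Agent.Work.MP_bf98aa_gt
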