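import Pool.Agent.Work.MP_bf98aa_gt.Defs

/-!
Pinching with respect to an arbitrary flat metric.
-/

set_option autoImplicit false

open Matrix

namespace Pool.Agent.Work.MP_bf98aa_gt

variable {ι : Type} [Fintype ι] [DecidableEq ι]

/-- At every point the squares of the singular values of the form with respect to the constant
metric `G` (vectors measured by `G`, covectors by `G⁻¹`) lie in an interval `[m, (1 + e) m]`, where
`m > 0` may depend on the point. -/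
def PinchedTo (G : Matrix ι ι ℝ) (e : ℝ) (w : (ι → ℝ) → Matrix ι ι ℝ) : Prop :=
  ∀ x, ∃ m : ℝ, 0 < m ∧ ∀ v : ι → ℝ,
    m * (v ⬝ᵥ G *ᵥ v) ≤ (w x *ᵥ v) ⬝ᵥ G⁻¹ *ᵥ (w x *ᵥ v) ∧
      (w x *ᵥ v) ⬝ᵥ G⁻¹ *ᵥ (w x *ᵥ v) ≤ (1 + e) * m * (v ⬝ᵥ G *ᵥ v)

end Pool.Agent.Work.MP_bf98aa_gt
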