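import Pool.Agent.Work.MP_bf98aa_gt.Defs

/-!
An orthogonal almost complex structure on the 2-torus parameters `(s, t)` with nonzero first Chern class.

PLAN. Dm^2 = Dm, Em^2 = - Dm, Dm Em = Em Dm = Em, Dmᵀ = Dm, Emᵀ = - Em (ext, Matrix.mul_apply or single_mul_single_same,
single_mul_single_of_ne; write Dm = single p p 1 + single q q 1). tauM_sq: fromBlocks_multiply, then noncomm_ring style
rewriting with these relations. xa s * xb s = 0 (expNegInvGlue.zero_of_nonpos), xr s > 0 (if cos = 0 then sin = 1 or -1,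
expNegInvGlue.pos_of_pos). Smoothness: expNegInvGlue.contDiff, ContDiff.sqrt, ContDiff.div; the entries of tauM are
affine in x1 x2 x3 (cases on the two indices). tau0 0 0: xa 0 = xb 0 = 0, xr 0 = 1.
-/

set_option autoImplicit false
set_option linter.unusedSectionVars false

open Matrix
open scoped ContDiff Real

namespace Pool.Agent.Work.MP_bf98aa_gt



variable {l : Type} [Fintype l] [DecidableEq l]

/-- The projection onto the coordinates `p`, `q`. -/
def Dm (R : Type) [CommRing R] (p q : l) : Matrix l l R := single p p 1 + single q q 1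

/-- The rotation by a right angle in the coordinates `p`, `q`. -/
def Em (R : Type) [CommRing R] (p q : l) : Matrix l l R := single p q 1 - single q p 1

/-- The family of complex structures parametrised by the unit sphere. -/
def tauM {R : Type} [CommRing R] (p q : l) (x1 x2 x3 : R) : Matrix (l ⊕ l) (l ⊕ l) R :=
  fromBlocks (x2 • Em R p q) (-(1 - Dm R p q + x3 • Dm R p q + x1 • Em R p q))
    (1 - Dm R p q + x3 • Dm R p q - x1 • Em R p q) (-(x2 • Em R p q))

noncomputable def xa (s : ℝ) : ℝ := expNegInvGlue (Real.sin (2 * π * s))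
noncomputable def xb (s : ℝ) : ℝ := expNegInvGlue (-Real.sin (2 * π * s))
noncomputable def xr (s : ℝ) : ℝ := √(xa s ^ 2 + xb s ^ 2 + Real.cos (2 * π * s) ^ 2)
noncomputable def x1 (s t : ℝ) : ℝ := (xa s * Real.cos (2 * π * t) + xb s) / xr s
noncomputable def x2 (s t : ℝ) : ℝ := xa s * Real.sin (2 * π * t) / xr s
noncomputable def x3 (s : ℝ) : ℝ := Real.cos (2 * π * s) / xr s

/-- The example. -/
noncomputable def tau0 (p q : l) (s t : ℝ) : Matrix (l ⊕ l) (l ⊕ l) ℝ :=
  tauM p q (x1 s t) (x2 s t) (x3 s)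

section
variable {R : Type} [CommRing R] {p q : l}

lemma Dm_mul_Dm (h : p ≠ q) : Dm R p q * Dm R p q = Dm R p q := by
  unfold Dm
  simp [add_mul, mul_add, single_mul_single_same, single_mul_single_of_ne, h, h.symm]

lemma Em_mul_Em (h : p ≠ q) : Em R p q * Em R p q = -Dm R p q := by
  unfold Dm Em
  simp [sub_mul, mul_sub, single_mul_single_same, single_mul_single_of_ne, h, h.symm]
  abel

lemma Dm_mul_Em (h : p ≠ q) : Dm R p q * Em R p q = Em R p q := by
  unfold Dm Em
  simp [add_mul, mul_sub, single_mul_single_same, single_mul_single_of_ne, h, h.symm]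

lemma Em_mul_Dm (h : p ≠ q) : Em R p q * Dm R p q = Em R p q := by
  unfold Dm Em
  simp [sub_mul, mul_add, single_mul_single_same, single_mul_single_of_ne, h, h.symm]
  abel

lemma Dm_transpose : (Dm R p q)ᵀ = Dm R p q := by
  unfold Dm
  simp [transpose_add, transpose_single]

lemma Em_transpose : (Em R p q)ᵀ = -Em R p q := by
  unfold Em
  simp [transpose_sub, transpose_single]

lemma tauM_skew (a b c : R) : (tauM p q a b c)ᵀ = -tauM p q a b c := by
  unfold tauM
  rw [fromBlocks_transpose, fromBlocks_neg]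
  congr 1 <;>
    simp only [transpose_smul, transpose_neg, transpose_add, transpose_sub, transpose_one,
      Dm_transpose, Em_transpose, smul_neg, neg_neg] <;> abel

lemma tauM_sq (h : p ≠ q) {a b c : R} (h1 : a ^ 2 + b ^ 2 + c ^ 2 = 1) :
    tauM p q a b c * tauM p q a b c = -1 := by
  have hc : c ^ 2 = 1 - a ^ 2 - b ^ 2 := by rw [← h1]; ring
  unfold tauM
  rw [fromBlocks_multiply, ← fromBlocks_one, fromBlocks_neg]
  congr 1 <;>
    simp only [mul_add, add_mul, mul_sub, sub_mul, mul_neg, neg_mul, Matrix.smul_mul,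
      Matrix.mul_smul, one_mul, mul_one, Dm_mul_Dm h, Em_mul_Em h, Dm_mul_Em h, Em_mul_Dm h,
      smul_neg, neg_zero] <;>
    match_scalars <;> first | ring1 | linear_combination h1 | linear_combination -h1

end

lemma tauM_map (p q : l) (a b c : ℝ) :
    (tauM p q a b c).map Complex.ofReal = tauM p q (a : ℂ) (b : ℂ) (c : ℂ) := by
  ext i j
  rcases i with i | i <;> rcases j with j | j <;>
    simp [tauM, Dm, Em, single_apply, one_apply, apply_ite Complex.ofReal]

lemma xa_mul_xb (s : ℝ) : xa s * xb s = 0 := by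
  unfold xa xb
  rcases le_total (Real.sin (2 * π * s)) 0 with h | h
  · rw [expNegInvGlue.zero_of_nonpos h, zero_mul]
  · rw [expNegInvGlue.zero_of_nonpos (neg_nonpos.2 h), mul_zero]

lemma Example_pos (s : ℝ) : 0 < xa s ^ 2 + xb s ^ 2 + Real.cos (2 * π * s) ^ 2 := by
  by_cases hc : Real.cos (2 * π * s) = 0
  · have h1 := Real.sin_sq_add_cos_sq (2 * π * s)
    rw [hc] at h1
    rcases lt_trichotomy (Real.sin (2 * π * s)) 0 with h | h | h
    · have h2 : 0 < xb s := expNegInvGlue.pos_of_pos (neg_pos.2 h)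
      positivity
    · rw [h] at h1; norm_num at h1
    · have h2 : 0 < xa s := expNegInvGlue.pos_of_pos h
      positivity
  · positivity

lemma xr_pos (s : ℝ) : 0 < xr s := by
  exact Real.sqrt_pos.2 (Example_pos s)

lemma xr_sq (s : ℝ) : xr s ^ 2 = xa s ^ 2 + xb s ^ 2 + Real.cos (2 * π * s) ^ 2 := by
  exact Real.sq_sqrt (Example_pos s).le

lemma x_unit (s t : ℝ) : x1 s t ^ 2 + x2 s t ^ 2 + x3 s ^ 2 = 1 := by
  have h1 := xr_pos s
  have h2 := xr_sq s
  have h3 := xa_mul_xb s
  have h4 := Real.sin_sq_add_cos_sq (2 * π * t)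
  unfold x1 x2 x3
  field_simp
  linear_combination (-1) * h2 + 2 * Real.cos (2 * π * t) * h3 + xa s ^ 2 * h4

lemma Example_xa : ContDiff ℝ ∞ xa :=
  expNegInvGlue.contDiff.comp (Real.contDiff_sin.comp (contDiff_const.mul contDiff_id))

lemma Example_xb : ContDiff ℝ ∞ xb :=
  expNegInvGlue.contDiff.comp (Real.contDiff_sin.comp (contDiff_const.mul contDiff_id)).neg

lemma Example_cos : ContDiff ℝ ∞ fun s : ℝ => Real.cos (2 * π * s) :=
  Real.contDiff_cos.comp (contDiff_const.mul contDiff_id)

lemma Example_sin : ContDiff ℝ ∞ fun s : ℝ => Real.sin (2 * π * s) :=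
  Real.contDiff_sin.comp (contDiff_const.mul contDiff_id)

lemma Example_xr : ContDiff ℝ ∞ xr :=
  ContDiff.sqrt (((Example_xa.pow 2).add (Example_xb.pow 2)).add (Example_cos.pow 2))
    fun s => (Example_pos s).ne'

lemma Example_x1 : ContDiff ℝ ∞ fun z : ℝ × ℝ => x1 z.1 z.2 :=
  ContDiff.div (((Example_xa.comp contDiff_fst).mul (Example_cos.comp contDiff_snd)).add
    (Example_xb.comp contDiff_fst)) (Example_xr.comp contDiff_fst) fun z => (xr_pos z.1).ne'

lemma Example_x2 : ContDiff ℝ ∞ fun z : ℝ × ℝ => x2 z.1 z.2 :=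
  ContDiff.div ((Example_xa.comp contDiff_fst).mul (Example_sin.comp contDiff_snd))
    (Example_xr.comp contDiff_fst) fun z => (xr_pos z.1).ne'

lemma contDiff_x3 : ContDiff ℝ ∞ x3 := by
  exact ContDiff.div Example_cos Example_xr fun s => (xr_pos s).ne'

lemma tau0_smooth (p q : l) (i j : l ⊕ l) :
    ContDiff ℝ ∞ fun z : ℝ × ℝ => tau0 p q z.1 z.2 i j := by
  have h1 := Example_x1
  have h2 := Example_x2
  have h3 : ContDiff ℝ ∞ fun z : ℝ × ℝ => x3 z.1 := contDiff_x3.comp contDiff_fst
  rcases i with i | i <;> rcases j with j | j <;>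
    simp only [tau0, tauM, fromBlocks_apply₁₁, fromBlocks_apply₁₂, fromBlocks_apply₂₁,
      fromBlocks_apply₂₂, Matrix.neg_apply, Matrix.add_apply, Matrix.sub_apply, Matrix.smul_apply,
      smul_eq_mul] <;> fun_prop

lemma Example_cos_per (s : ℝ) (m : ℤ) : Real.cos (2 * π * (s + m)) = Real.cos (2 * π * s) := by
  rw [← Real.cos_add_int_mul_two_pi (2 * π * s) m]; congr 1; ring

lemma Example_sin_per (s : ℝ) (m : ℤ) : Real.sin (2 * π * (s + m)) = Real.sin (2 * π * s) := by
  rw [← Real.sin_add_int_mul_two_pi (2 * π * s) m]; congr 1; ring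

lemma tau0_periodic (p q : l) (s t : ℝ) (m n : ℤ) : tau0 p q (s + m) (t + n) = tau0 p q s t := by
  simp only [tau0, x1, x2, x3, xr, xa, xb, Example_cos_per, Example_sin_per]

lemma tau0_zero (p q : l) (t : ℝ) : tau0 p q 0 t = Matrix.J l ℝ := by
  simp [tau0, tauM, x1, x2, x3, xr, xa, xb, Matrix.J, expNegInvGlue.zero]

end Pool.Agent.Work.MP_bf98aa_gt
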