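import Pool.Agent.Work.MP_bf98aa_gt.NotHom

/-!
The example on the torus `ℝ^(l ⊕ l) / L ℤ^(l ⊕ l)` and transitivity of homotopy.

PLAN. Homotopic.trans: K t = if t ≤ 1/2 then H (2 t) else H' (2 t - 1); for continuity write the entries as
H (min (2 t) 1) x i j + H' (max (2 t - 1) 0) x i j - w₁ x i j (w₁ = H 1 is continuous in x).
exists_exotic: τ x = tau0 p q ((L⁻¹ *ᵥ x) (Sum.inl p)) ((L⁻¹ *ᵥ x) (Sum.inl q)); L⁻¹ *ᵥ (x + L *ᵥ z) = L⁻¹ *ᵥ x + z; det ≠ 0 from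
τ * τ = -1. Given a homotopy K apply tau0_not_homotopic to
H r s t = K r (L *ᵥ (Pi.single (Sum.inl p) s + Pi.single (Sum.inl q) t)).
-/

set_option autoImplicit false
set_option linter.unusedSectionVars false

open Matrix
open scoped ContDiff Real

namespace Pool.Agent.Work.MP_bf98aa_gt



lemma Homotopic.trans {ι : Type} [Fintype ι] [DecidableEq ι] {L : Matrix ι ι ℝ}
    {w₀ w₁ w₂ : (ι → ℝ) → Matrix ι ι ℝ} (h : Homotopic L w₀ w₁) (h' : Homotopic L w₁ w₂) :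
    Homotopic L w₀ w₂ := by
  obtain ⟨H, hc, h0, h1, hn⟩ := h
  obtain ⟨H', hc', h0', h1', hn'⟩ := h'
  have ma : ∀ t ∈ Set.Icc (0 : ℝ) 1, min (2 * t) 1 ∈ Set.Icc (0 : ℝ) 1 := fun t ht =>
    ⟨le_min (by linarith [ht.1]) zero_le_one, min_le_right _ _⟩
  have mb : ∀ t ∈ Set.Icc (0 : ℝ) 1, max (2 * t - 1) 0 ∈ Set.Icc (0 : ℝ) 1 := fun t ht =>
    ⟨le_max_right _ _, max_le (by linarith [ht.2]) zero_le_one⟩
  refine ⟨fun t x => H (min (2 * t) 1) x + H' (max (2 * t - 1) 0) x - w₁ x, fun i j => ?_, ?_, ?_,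
    fun t ht => ?_⟩
  · have c1 : ContinuousOn (fun p : ℝ × (ι → ℝ) => H (min (2 * p.1) 1) p.2 i j)
        (Set.Icc 0 1 ×ˢ Set.univ) :=
      (hc i j).comp (f := fun p : ℝ × (ι → ℝ) => (min (2 * p.1) 1, p.2)) (by fun_prop)
        fun p hp => ⟨ma _ hp.1, trivial⟩
    have c2 : ContinuousOn (fun p : ℝ × (ι → ℝ) => H' (max (2 * p.1 - 1) 0) p.2 i j)
        (Set.Icc 0 1 ×ˢ Set.univ) :=
      (hc' i j).comp (f := fun p : ℝ × (ι → ℝ) => (max (2 * p.1 - 1) 0, p.2)) (by fun_prop)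
        fun p hp => ⟨mb _ hp.1, trivial⟩
    have c3 : ContinuousOn (fun p : ℝ × (ι → ℝ) => H 1 p.2 i j) (Set.Icc 0 1 ×ˢ Set.univ) :=
      (hc i j).comp (f := fun p : ℝ × (ι → ℝ) => ((1 : ℝ), p.2)) (by fun_prop)
        fun p _ => ⟨⟨zero_le_one, le_rfl⟩, trivial⟩
    rw [h1] at c3
    exact (c1.add c2).sub c3
  · funext x
    simp [h0, h0']
  · funext x
    norm_num [h1, h1']
  · rcases le_total (2 * t) 1 with e | e
    · have := hn _ (ma t ht)
      have e' : max (2 * t - 1) 0 = 0 := max_eq_right (by linarith)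
      simp only [e', h0', add_sub_cancel_right]
      exact this
    · have := hn' _ (mb t ht)
      simp only [min_eq_right e, h1, add_sub_cancel_left]
      exact this

lemma exists_exotic {l : Type} [Fintype l] [DecidableEq l] {p q : l} (h : p ≠ q)
    {L : Matrix (l ⊕ l) (l ⊕ l) ℝ} (hL : L.det ≠ 0) :
    ∃ τ : ((l ⊕ l) → ℝ) → Matrix (l ⊕ l) (l ⊕ l) ℝ, SmoothForm τ ∧ NondegForm L τ ∧
      (∀ x, τ x * τ x = -1) ∧ τ 0 = Matrix.J l ℝ ∧ ∀ c, ¬Homotopic L τ fun _ => c := by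
  have hu : IsUnit L.det := isUnit_iff_ne_zero.2 hL
  have hi : ∀ y, L⁻¹ *ᵥ (L *ᵥ y) = y := fun y => by
    rw [mulVec_mulVec, nonsing_inv_mul _ hu, one_mulVec]
  have sq : ∀ s t, tau0 p q s t * tau0 p q s t = -1 := fun s t => tauM_sq h (x_unit s t)
  refine ⟨fun x => tau0 p q ((L⁻¹ *ᵥ x) (Sum.inl p)) ((L⁻¹ *ᵥ x) (Sum.inl q)), fun i j => ?_,
    ⟨fun x => tauM_skew _ _ _, fun x e => ?_, fun x z => ?_⟩, fun x => sq _ _, ?_, ?_⟩
  · have hl : ∀ a, ContDiff ℝ ∞ fun x : (l ⊕ l) → ℝ => (L⁻¹ *ᵥ x) a := fun a => by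
      simp only [mulVec, dotProduct]
      fun_prop
    exact ContDiff.comp (g := fun z : ℝ × ℝ => tau0 p q z.1 z.2 i j)
      (f := fun x : (l ⊕ l) → ℝ => ((L⁻¹ *ᵥ x) (Sum.inl p), (L⁻¹ *ᵥ x) (Sum.inl q)))
      (tau0_smooth p q i j) ((hl _).prodMk (hl _))
  · have := congrArg Matrix.det (sq ((L⁻¹ *ᵥ x) (Sum.inl p)) ((L⁻¹ *ᵥ x) (Sum.inl q)))
    beta_reduce at e
    rw [det_mul, e, det_neg, det_one, mul_one, mul_zero] at this
    exact pow_ne_zero _ (by norm_num) this.symm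
  · simp only [mulVec_add, hi, Pi.add_apply]
    exact tau0_periodic p q _ _ _ _
  · simp only [mulVec_zero, Pi.zero_apply]
    exact tau0_zero p q 0
  · rintro c ⟨K, hc, h0, h1, hn⟩
    let v : ℝ → ℝ → (l ⊕ l) → ℝ := fun s t a =>
      (if a = Sum.inl p then s else 0) + if a = Sum.inl q then t else 0
    have hv : Continuous fun z : ℝ × ℝ × ℝ => (z.1, L *ᵥ v z.2.1 z.2.2) := by
      refine continuous_fst.prodMk (continuous_const.matrix_mulVec (continuous_pi fun a => ?_))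
      simp only [v]
      split_ifs <;> fun_prop
    refine tau0_not_homotopic h (fun r s t => K r (L *ᵥ v s t))
      (fun i j => ?_) (fun r hr s t => ⟨(hn r hr).1 _, (hn r hr).2.1 _⟩) (fun r hr t => ?_)
      (fun r hr s => ?_) (fun s t => ?_) c fun s t => by rw [h1]
    · exact ContinuousOn.comp (f := fun z : ℝ × ℝ × ℝ => (z.1, L *ᵥ v z.2.1 z.2.2)) (hc i j)
        hv.continuousOn fun z hz => ⟨(Set.mem_prod.1 hz).1, trivial⟩
    · refine Eq.trans ?_ ((hn r hr).2.2 (L *ᵥ v 0 t) (Pi.single (Sum.inl p) 1))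
      rw [← mulVec_add]
      congr 2
      funext a
      simp only [v, Pi.add_apply, Pi.single_apply]
      split_ifs <;> simp [add_comm]
    · refine Eq.trans ?_ ((hn r hr).2.2 (L *ᵥ v s 0) (Pi.single (Sum.inl q) 1))
      rw [← mulVec_add]
      congr 2
      funext a
      simp only [v, Pi.add_apply, Pi.single_apply]
      split_ifs <;> simp
    · simp only [h0, hi]
      simp [v, h, h.symm]

end Pool.Agent.Work.MP_bf98aa_gt
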