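import Pool.Agent.Work.MP_bf98aa_gt.Example

/-!
A frame of the positive eigenspace of `i τ` over the square.

PLAN. frameM_mul: with X = 1 - D + α D, Y = β E one has Xᴴ = 1 - D + conj α D, Yᴴ = - conj β E, X Xᴴ = 1 - D + |α|^2 D,
Y Yᴴ = |β|^2 D, X Yᴴ = - α conj β E, Y Xᴴ = β conj α E; use conjTranspose_fromRows_eq_fromCols_conjTranspose,
fromRows_mul_fromCols and compare blocks (fromBlocks_one, fromBlocks_add, fromBlocks_smul).
For s in [0, 1/2]: sin (2 π s) ≥ 0 so xb s = 0, max s (1/2) = 1/2, fa (1/2) = 0 since x3 (1/2) = -1, so alpha = fa s;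
for s in [1/2, 1]: xa s = 0 and alpha = fa s * exp (2 π i t). 2 fa s * fb s = sqrt (1 - x3^2) = (xa s + xb s) / xr s.
frame_one: x3 1 = 1 = x3 0, so fb = 0 and fa = 1 there. det_U: 1 - D + z D is the diagonal matrix with entries z at
p, q and 1 elsewhere (det_diagonal, Finset.prod_ite or prod_eq_mul).
-/

set_option autoImplicit false
set_option linter.unusedSectionVars false

open Matrix
open scoped ContDiff Real

namespace Pool.Agent.Work.MP_bf98aa_gt



variable {l : Type} [Fintype l] [DecidableEq l]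

/-- The frame attached to a unit vector `(α, β)` of `ℂ²`. -/
noncomputable def frameM (p q : l) (α β : ℂ) : Matrix (l ⊕ l) l ℂ :=
  fromRows (1 - Dm ℂ p q + α • Dm ℂ p q + β • Em ℂ p q)
    (Complex.I • (1 - Dm ℂ p q + α • Dm ℂ p q - β • Em ℂ p q))

lemma Frame_mul {p q : l} (h : p ≠ q) (u v u' v' : ℂ) :
    (1 - Dm ℂ p q + u • Dm ℂ p q + v • Em ℂ p q) * (1 - Dm ℂ p q + u' • Dm ℂ p q + v' • Em ℂ p q)
      = 1 - Dm ℂ p q + (u * u' - v * v') • Dm ℂ p q + (u * v' + v * u') • Em ℂ p q := by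
  simp only [add_mul, mul_add, sub_mul, mul_sub, one_mul, mul_one, smul_mul_assoc, mul_smul_comm,
    Dm_mul_Dm h, Em_mul_Em h, Dm_mul_Em h, Em_mul_Dm h]
  module

lemma Frame_Dm_conj (p q : l) : (Dm ℂ p q)ᴴ = Dm ℂ p q := by
  unfold Dm
  rw [conjTranspose_add, conjTranspose_single, conjTranspose_single, star_one]

lemma Frame_Em_conj (p q : l) : (Em ℂ p q)ᴴ = -Em ℂ p q := by
  unfold Em
  rw [conjTranspose_sub, conjTranspose_single, conjTranspose_single, star_one, neg_sub]

lemma Frame_conj (p q : l) (u v : ℂ) :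
    (1 - Dm ℂ p q + u • Dm ℂ p q + v • Em ℂ p q)ᴴ
      = 1 - Dm ℂ p q + (starRingEnd ℂ) u • Dm ℂ p q + (-(starRingEnd ℂ) v) • Em ℂ p q := by
  rw [conjTranspose_add, conjTranspose_add, conjTranspose_sub, conjTranspose_one,
    conjTranspose_smul, conjTranspose_smul, Frame_Dm_conj, Frame_Em_conj, smul_neg, neg_smul]
  rfl

lemma frameM_mul {p q : l} (h : p ≠ q) {α β : ℂ} {a b c : ℝ}
    (h1 : Complex.normSq α + Complex.normSq β = 1) (h3 : Complex.normSq α - Complex.normSq β = c)
    (h2 : 2 * (β * (starRingEnd ℂ) α) = a + b * Complex.I) :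
    frameM p q α β * (frameM p q α β)ᴴ = 1 + Complex.I • tauM p q (a : ℂ) (b : ℂ) (c : ℂ) := by
  have e1 : (1 - Dm ℂ p q + α • Dm ℂ p q - β • Em ℂ p q)
      = 1 - Dm ℂ p q + α • Dm ℂ p q + (-β) • Em ℂ p q := by
    rw [neg_smul, sub_eq_add_neg]
  have ha : α * (starRingEnd ℂ) α = Complex.normSq α := Complex.mul_conj α
  have hb : β * (starRingEnd ℂ) β = Complex.normSq β := Complex.mul_conj β
  have h1' : α * (starRingEnd ℂ) α + β * (starRingEnd ℂ) β = 1 := by
    rw [ha, hb]; exact_mod_cast h1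
  have h3' : α * (starRingEnd ℂ) α - β * (starRingEnd ℂ) β = c := by
    rw [ha, hb]; exact_mod_cast h3
  have h2' : 2 * (α * (starRingEnd ℂ) β) = a - b * Complex.I := by
    have := congrArg (starRingEnd ℂ) h2
    simp only [map_mul, map_add, Complex.conj_conj, Complex.conj_ofReal, Complex.conj_I,
      map_ofNat] at this
    linear_combination this
  have hI : Complex.I * Complex.I = -1 := Complex.I_mul_I
  unfold frameM tauM
  rw [e1, conjTranspose_fromRows_eq_fromCols_conjTranspose, fromRows_mul_fromCols,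
    conjTranspose_smul, Frame_conj, Frame_conj]
  simp only [smul_mul_assoc, mul_smul_comm, Frame_mul h]
  rw [← fromBlocks_one, fromBlocks_smul, fromBlocks_add]
  have hs : star Complex.I = -Complex.I := Complex.conj_I
  rw [hs]
  simp only [map_neg]
  congr 1
  · match_scalars
    · ring
    · linear_combination h1'
    · linear_combination (1 / 2 : ℂ) * h2 - (1 / 2 : ℂ) * h2'
  · match_scalars
    · ring
    · linear_combination (-Complex.I) * h3'
    · linear_combination (-Complex.I / 2) * h2 + (-Complex.I / 2) * h2'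
  · match_scalars
    · ring
    · linear_combination Complex.I * h3'
    · linear_combination (-Complex.I / 2) * h2 + (-Complex.I / 2) * h2'
  · match_scalars
    · linear_combination -hI
    · linear_combination h1' - (α * (starRingEnd ℂ) α + β * (starRingEnd ℂ) β - 1) * hI
    · linear_combination (-1 / 2 : ℂ) * h2 + (1 / 2 : ℂ) * h2'
        - (α * (starRingEnd ℂ) β - β * (starRingEnd ℂ) α) * hI

noncomputable def fa (s : ℝ) : ℝ := √((1 + x3 s) / 2)
noncomputable def fb (s : ℝ) : ℝ := √((1 - x3 s) / 2)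

noncomputable def alpha (s t : ℝ) : ℂ :=
  fa (min s (1 / 2)) + fa (max s (1 / 2)) * Complex.exp (2 * π * Complex.I * t)

noncomputable def beta (s t : ℝ) : ℂ := fb s * Complex.exp (2 * π * Complex.I * t)

/-- The frame over the square. -/
noncomputable def frame (p q : l) (s t : ℝ) : Matrix (l ⊕ l) l ℂ :=
  frameM p q (alpha s t) (beta s t)

lemma Frame_xa_zero {s : ℝ} (h : Real.sin (2 * π * s) ≤ 0) : xa s = 0 :=
  expNegInvGlue.zero_of_nonpos h

lemma Frame_xb_zero {s : ℝ} (h : 0 ≤ Real.sin (2 * π * s)) : xb s = 0 :=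
  expNegInvGlue.zero_of_nonpos (by linarith)

lemma Frame_x3_eq {s : ℝ} (h : Real.sin (2 * π * s) = 0) : x3 s = Real.cos (2 * π * s) := by
  have h1 : Real.cos (2 * π * s) ^ 2 = 1 := by
    have := Real.sin_sq_add_cos_sq (2 * π * s)
    rw [h] at this; linarith
  have h2 : xr s = 1 := by
    unfold xr
    rw [Frame_xa_zero h.le, Frame_xb_zero h.ge, h1]; simp
  unfold x3
  rw [h2, div_one]

lemma Frame_x3_zero : x3 0 = 1 := by
  rw [Frame_x3_eq (by simp)]; simp

lemma Frame_x3_one : x3 1 = 1 := by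
  rw [Frame_x3_eq (by simp)]; simp

lemma Frame_x3_half : x3 (1 / 2) = -1 := by
  have h : 2 * π * (1 / 2) = π := by ring
  rw [Frame_x3_eq (by rw [h]; exact Real.sin_pi), h, Real.cos_pi]

lemma Frame_fa_half : fa (1 / 2) = 0 := by
  unfold fa; rw [Frame_x3_half]; simp

lemma Frame_fa_zero : fa 0 = 1 := by
  unfold fa; rw [Frame_x3_zero]; simp

lemma Frame_fa_one : fa 1 = 1 := by
  unfold fa; rw [Frame_x3_one]; simp

lemma Frame_fb_zero : fb 0 = 0 := by
  unfold fb; rw [Frame_x3_zero]; simp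

lemma Frame_fb_one : fb 1 = 0 := by
  unfold fb; rw [Frame_x3_one]; simp

lemma Frame_x3_sq (s : ℝ) : x3 s ^ 2 ≤ 1 := by
  have := x_unit s 0
  nlinarith [sq_nonneg (x1 s 0), sq_nonneg (x2 s 0)]

lemma Frame_fa_sq (s : ℝ) : fa s ^ 2 = (1 + x3 s) / 2 := by
  have := abs_le.1 (sq_le_one_iff_abs_le_one _ |>.1 (Frame_x3_sq s))
  unfold fa
  exact Real.sq_sqrt (by linarith [this.1])

lemma Frame_fb_sq (s : ℝ) : fb s ^ 2 = (1 - x3 s) / 2 := by
  have := abs_le.1 (sq_le_one_iff_abs_le_one _ |>.1 (Frame_x3_sq s))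
  unfold fb
  exact Real.sq_sqrt (by linarith [this.2])

lemma Frame_fa_fb (s : ℝ) : 2 * (fa s * fb s) = (xa s + xb s) / xr s := by
  have ha : 0 ≤ fa s := Real.sqrt_nonneg _
  have hb : 0 ≤ fb s := Real.sqrt_nonneg _
  have hxa : 0 ≤ xa s := expNegInvGlue.nonneg _
  have hxb : 0 ≤ xb s := expNegInvGlue.nonneg _
  have hr := xr_pos s
  refine (pow_left_inj₀ (by positivity) (by positivity) two_ne_zero).1 ?_
  have h1 : (2 * (fa s * fb s)) ^ 2 = 1 - x3 s ^ 2 := by
    have : (2 * (fa s * fb s)) ^ 2 = 4 * (fa s ^ 2 * fb s ^ 2) := by ring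
    rw [this, Frame_fa_sq, Frame_fb_sq]; ring
  rw [h1]
  unfold x3
  have h2 := xr_sq s
  have h3 := xa_mul_xb s
  field_simp
  linear_combination h2 - 2 * h3

lemma Frame_exp (t : ℝ) : Complex.exp (2 * π * Complex.I * t)
    = Real.cos (2 * π * t) + Real.sin (2 * π * t) * Complex.I := by
  have : (2 * π * Complex.I * t : ℂ) = ((2 * π * t : ℝ) : ℂ) * Complex.I := by push_cast; ring
  rw [this, Complex.exp_mul_I, Complex.ofReal_cos, Complex.ofReal_sin]

lemma Frame_normSq_exp (t : ℝ) : Complex.normSq (Complex.exp (2 * π * Complex.I * t)) = 1 := by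
  rw [Frame_exp, Complex.normSq_add_mul_I]
  exact Real.cos_sq_add_sin_sq _

lemma Frame_alpha_le {s : ℝ} (hs : s ≤ 1 / 2) (t : ℝ) : alpha s t = fa s := by
  unfold alpha
  rw [min_eq_left hs, max_eq_right hs, Frame_fa_half]; simp

lemma Frame_alpha_ge {s : ℝ} (hs : 1 / 2 ≤ s) (t : ℝ) :
    alpha s t = fa s * Complex.exp (2 * π * Complex.I * t) := by
  unfold alpha
  rw [min_eq_right hs, max_eq_left hs, Frame_fa_half]; simp

lemma Frame_normSq_alpha (s t : ℝ) : Complex.normSq (alpha s t) = (1 + x3 s) / 2 := by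
  rw [← Frame_fa_sq]
  rcases le_total s (1 / 2) with hs | hs
  · rw [Frame_alpha_le hs, Complex.normSq_ofReal, pow_two]
  · rw [Frame_alpha_ge hs, map_mul, Frame_normSq_exp, Complex.normSq_ofReal, pow_two, mul_one]

lemma Frame_normSq_beta (s t : ℝ) : Complex.normSq (beta s t) = (1 - x3 s) / 2 := by
  rw [← Frame_fb_sq]
  unfold beta
  rw [map_mul, Frame_normSq_exp, Complex.normSq_ofReal, pow_two, mul_one]

lemma Frame_cont_alpha : Continuous fun z : ℝ × ℝ => alpha z.1 z.2 := by
  have h3 : Continuous x3 := contDiff_x3.continuous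
  have ha : Continuous fa := by unfold fa; fun_prop
  unfold alpha
  fun_prop

lemma Frame_cont_beta : Continuous fun z : ℝ × ℝ => beta z.1 z.2 := by
  have h3 : Continuous x3 := contDiff_x3.continuous
  have hb : Continuous fb := by unfold fb; fun_prop
  unfold beta
  fun_prop

lemma continuous_frame (p q : l) : Continuous fun z : ℝ × ℝ => frame p q z.1 z.2 := by
  have ha := Frame_cont_alpha
  have hb := Frame_cont_beta
  refine continuous_matrix fun i j => ?_
  unfold frame frameM
  rcases i with i | i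
  · simp only [fromRows_apply_inl, Matrix.add_apply, Matrix.smul_apply, smul_eq_mul]
    fun_prop
  · simp only [fromRows_apply_inr, Matrix.add_apply, Matrix.sub_apply, Matrix.smul_apply,
      smul_eq_mul]
    fun_prop

lemma frame_mul {p q : l} (h : p ≠ q) {s : ℝ} (hs : s ∈ Set.Icc (0 : ℝ) 1) (t : ℝ) :
    frame p q s t * (frame p q s t)ᴴ = 1 + Complex.I • (tau0 p q s t).map Complex.ofReal := by
  unfold frame tau0
  rw [tauM_map]
  refine frameM_mul h ?_ ?_ ?_
  · rw [Frame_normSq_alpha, Frame_normSq_beta]; ring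
  · rw [Frame_normSq_alpha, Frame_normSq_beta]; ring
  have hf : (2 * (fa s * fb s) : ℂ) = ((xa s + xb s) / xr s : ℝ) := by
    rw [← Frame_fa_fb]; push_cast; ring
  have hπ := Real.pi_pos
  rcases le_total s (1 / 2) with h2 | h2
  · have hb : xb s = 0 := Frame_xb_zero
      (Real.sin_nonneg_of_nonneg_of_le_pi (by have := hs.1; positivity) (by nlinarith))
    rw [Frame_alpha_le h2]
    unfold beta x1 x2
    rw [Frame_exp, Complex.conj_ofReal]
    rw [hb] at hf ⊢
    push_cast at hf ⊢
    linear_combination (Complex.cos (2 * π * t) + Complex.sin (2 * π * t) * Complex.I) * hf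
  · have ha : xa s = 0 := by
      refine Frame_xa_zero ?_
      rw [← Real.sin_sub_two_pi]
      exact Real.sin_nonpos_of_nonpos_of_neg_pi_le (by nlinarith [hs.2]) (by nlinarith)
    have he : Complex.exp (2 * π * Complex.I * t)
        * (starRingEnd ℂ) (Complex.exp (2 * π * Complex.I * t)) = 1 := by
      rw [Complex.mul_conj, Frame_normSq_exp]; simp
    rw [Frame_alpha_ge h2]
    unfold beta x1 x2
    rw [map_mul, Complex.conj_ofReal]
    rw [ha] at hf ⊢
    push_cast at hf ⊢
    linear_combination hf + 2 * (fa s * fb s : ℂ) * he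

lemma frame_per (p q : l) (s : ℝ) : frame p q s 1 = frame p q s 0 := by
  have h : Complex.exp (2 * π * Complex.I * (1 : ℝ)) = Complex.exp (2 * π * Complex.I * (0 : ℝ)) := by
    simp
  unfold frame alpha beta
  rw [h]

lemma frame_zero (p q : l) (t : ℝ) :
    frame p q 0 t = fromRows (1 : Matrix l l ℂ) (Complex.I • (1 : Matrix l l ℂ)) := by
  unfold frame frameM beta
  rw [Frame_alpha_le (by norm_num), Frame_fa_zero, Frame_fb_zero]
  simp

lemma frame_one {p q : l} (t : ℝ) : frame p q 1 t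
    = frame p q 0 t * (1 - Dm ℂ p q + Complex.exp (2 * π * Complex.I * t) • Dm ℂ p q) := by
  rw [frame_zero, fromRows_mul]
  unfold frame frameM beta
  rw [Frame_alpha_ge (by norm_num), Frame_fa_one, Frame_fb_one]
  simp

lemma det_U {p q : l} (h : p ≠ q) (z : ℂ) : (1 - Dm ℂ p q + z • Dm ℂ p q).det = z ^ 2 := by
  have e : (1 - Dm ℂ p q + z • Dm ℂ p q)
      = diagonal fun i => (if i = p then z else 1) * (if i = q then z else 1) := by
    ext i j
    unfold Dm
    by_cases hij : i = j
    · subst hij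
      by_cases hp : i = p
      · subst hp
        simp [h, h.symm]
      · by_cases hq : i = q
        · subst hq
          simp [h, h.symm]
        · simp [hp, hq, Ne.symm hp, Ne.symm hq]
    · have h1 : ∀ (r : l) (y : ℂ), single r r y i j = 0 := fun r y =>
        single_apply_of_ne _ _ _ _ _ (by rintro ⟨rfl, rfl⟩; exact hij rfl)
      simp [hij, h1]
  rw [e, det_diagonal, Finset.prod_mul_distrib]
  simp [pow_two]

end Pool.Agent.Work.MP_bf98aa_gt
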