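import Pool.Agent.Work.MP_bf98aa_gt.Lin
import Pool.Agent.Work.MP_bf98aa_gt.Av1

/-!
Harmonic approximation for the linearised system, scalar form.

PLAN. N = card ι ≥ 1 because ‖a‖ = 1. u = ⟪a, η⟫, |u y| ≤ ‖η y‖, |η y p| ≤ ‖η y‖, |h y p| ≤ ‖h y‖, |a p| ≤ 1. For x in the
cube of radius 1/2 and 0 < s ≤ 1/2 the cube closedBall x s lies in the unit cube, so av_pdw_le bounds
|av φ (pdw v f) x s| by C s⁻¹^(N+5) E1 (f = u, η(p)) or C s⁻¹^(N+5) E2 (f = h(p)) for words of length ≤ 5, and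
s⁻¹ ≤ ρ⁻¹ for s ≥ ρ. Put Y = ρ⁻¹^(N+5) (E2 + e E1).
1. For words v of length ≤ 3 and s in [ρ, 1/2]: |av p2 (lap (pdw v u)) x s| ≤ C Y: lap_pdw, apply pdw v to lap_u
   (pdw_const_mul, pdw_add, pdw_sum, pdw_append), av_const_mul, av_add, av_sum; the coefficients are at most
   2 k e (PinW divided by N) and 2; the factor 1 + 2 k / N is at least 1.
2. av_mean_value (p1, p2) on [s, 1/2]: |av p1 (pdw v u) x s| ≤ C E1 + C Y.
3. For words u0 of length ≤ 1: |av p1 (lap (pdw u0 η(j,l))) x s| ≤ C (E1 + Y) by lap_eta and step 2.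
4. av_mean_value (p0, p1) on [ρ, 1/2].
-/

set_option autoImplicit false
set_option linter.unusedSectionVars false

open MeasureTheory Metric Matrix
open scoped ContDiff RealInnerProductSpace

namespace Pool.Agent.Work.MP_bf98aa_gt

variable {ι : Type} [Fintype ι] [DecidableEq ι]

section
variable {φ : (ι → ℝ) → ℝ} {x : ι → ℝ} {s : ℝ} {v : List ι}

lemma HA_sum (hφ : Test φ) {f : ι → (ι → ℝ) → ℝ} (hf : ∀ a, ContDiff ℝ ∞ (f a)) {B : ℝ}
    (hB : ∀ a, |av φ (pdw v (f a)) x s| ≤ B) :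
    |av φ (pdw v fun y => ∑ a, f a y) x s| ≤ Fintype.card ι * B := by
  rw [pdw_sum _ (fun a _ => hf a), av_sum hφ _ fun a _ => (contDiff_pdw (hf a) v).continuous]
  refine (Finset.abs_sum_le_sum_abs _ _).trans ?_
  refine (Finset.sum_le_sum fun a _ => hB a).trans ?_
  simp

lemma HA_mul {f : (ι → ℝ) → ℝ} (hf : ContDiff ℝ ∞ f) {c K B : ℝ} (hc : |c| ≤ K)
    (hB : |av φ (pdw v f) x s| ≤ B) : |av φ (pdw v fun y => c * f y) x s| ≤ K * B := by
  rw [pdw_const_mul hf, av_const_mul, abs_mul]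
  exact mul_le_mul hc hB (abs_nonneg _) ((abs_nonneg _).trans hc)

lemma HA_add (hφ : Test φ) {f g : (ι → ℝ) → ℝ} (hf : ContDiff ℝ ∞ f) (hg : ContDiff ℝ ∞ g)
    {A B : ℝ} (hA : |av φ (pdw v f) x s| ≤ A) (hB : |av φ (pdw v g) x s| ≤ B) :
    |av φ (pdw v fun y => f y + g y) x s| ≤ A + B := by
  rw [pdw_add hf hg, av_add hφ (contDiff_pdw hf v).continuous (contDiff_pdw hg v).continuous]
  exact (abs_add_le _ _).trans (add_le_add hA hB)

lemma HA_sub (hφ : Test φ) {f g : (ι → ℝ) → ℝ} (hf : ContDiff ℝ ∞ f) (hg : ContDiff ℝ ∞ g)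
    {A B : ℝ} (hA : |av φ (pdw v f) x s| ≤ A) (hB : |av φ (pdw v g) x s| ≤ B) :
    |av φ (pdw v fun y => f y - g y) x s| ≤ A + B := by
  rw [pdw_sub hf hg, av_sub hφ (contDiff_pdw hf v).continuous (contDiff_pdw hg v).continuous]
  exact (abs_sub _ _).trans (add_le_add hA hB)

end

lemma HA_bound {φ : (ι → ℝ) → ℝ} (hφ : Test φ) : ∃ C : ℝ, 0 < C ∧
    ∀ (f : (ι → ℝ) → ℝ) (g : (ι → ℝ) → W ι) (E : ℝ), ContDiff ℝ ∞ f → Continuous g →
    (∀ y, |f y| ≤ ‖g y‖) → (∫ y in closedBall (0 : ι → ℝ) 1, ‖g y‖) ≤ E →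
    ∀ x ∈ closedBall (0 : ι → ℝ) (1 / 2), ∀ ρ s : ℝ, 0 < ρ → ρ ≤ s → s ≤ 1 / 2 →
    ∀ u : List ι, u.length ≤ 5 →
    |av φ (pdw u f) x s| ≤ C * (ρ⁻¹ ^ (Fintype.card ι + 5) * E) := by
  obtain ⟨C, hC, h⟩ := av_pdw_le hφ 5
  refine ⟨C, hC, fun f g E hf hg hfg hE x hx ρ s hρ hρs hs u hu => ?_⟩
  have hs0 : 0 < s := hρ.trans_le hρs
  have hsub : closedBall x s ⊆ closedBall (0 : ι → ℝ) 1 := by
    refine closedBall_subset_closedBall' ?_
    have := mem_closedBall.1 hx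
    linarith
  have hi : IntegrableOn (fun y => ‖g y‖) (closedBall (0 : ι → ℝ) 1) :=
    hg.norm.continuousOn.integrableOn_compact (isCompact_closedBall _ _)
  have h1 : ∫ y in closedBall x s, |f y| ≤ ∫ y in closedBall x s, ‖g y‖ :=
    setIntegral_mono_on
      (hf.continuous.abs.continuousOn.integrableOn_compact (isCompact_closedBall _ _))
      (hi.mono_set hsub) measurableSet_closedBall fun y _ => hfg y
  have h2 : ∫ y in closedBall x s, ‖g y‖ ≤ ∫ y in closedBall (0 : ι → ℝ) 1, ‖g y‖ :=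
    setIntegral_mono_set hi (Filter.Eventually.of_forall fun y => norm_nonneg _)
      hsub.eventuallyLE
  have h3 : s⁻¹ ^ (Fintype.card ι + 5) ≤ ρ⁻¹ ^ (Fintype.card ι + 5) :=
    pow_le_pow_left₀ (by positivity) (inv_anti₀ hρ hρs) _
  have h4 : 0 ≤ ∫ y in closedBall x s, |f y| := integral_nonneg fun y => abs_nonneg _
  refine (h u hu f hf x s hs0 (by linarith)).trans ?_
  rw [mul_assoc]
  exact mul_le_mul_of_nonneg_left
    (mul_le_mul h3 (h1.trans (h2.trans hE)) h4 (by positivity)) hC.le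

lemma HA_card {a : W ι} (ha : ‖a‖ = 1) : (1 : ℝ) ≤ Fintype.card ι := by
  rcases isEmpty_or_nonempty ι with h | h
  · have : a = 0 := by
      ext p
      exact isEmptyElim p.1
    rw [this, norm_zero] at ha
    exact absurd ha zero_ne_one
  · exact_mod_cast Fintype.card_pos

lemma HA_coef {k : ℕ} {e : ℝ} (he : 0 ≤ e) {a : W ι} (ha : ‖a‖ = 1) (hp : PinW e a) (i j : ι) :
    |-2 * (k : ℝ) * (∑ l, a (i, l) * a (j, l)
      - if i = j then (Fintype.card ι : ℝ)⁻¹ else 0)| ≤ 2 * k * e := by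
  have hN := HA_card ha
  have h := hp i j
  rw [ha, one_pow, mul_one] at h
  have e1 : (Fintype.card ι : ℝ) * ∑ l, a (i, l) * a (j, l) - (if i = j then 1 else 0) =
      Fintype.card ι * (∑ l, a (i, l) * a (j, l)
        - if i = j then (Fintype.card ι : ℝ)⁻¹ else 0) := by
    split_ifs
    · field_simp
    · ring
  rw [e1, abs_mul, abs_of_nonneg (by linarith : (0 : ℝ) ≤ Fintype.card ι)] at h
  have h2 := (le_mul_of_one_le_left (abs_nonneg _) hN).trans h
  rw [abs_mul]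
  refine mul_le_mul (le_of_eq ?_) h2 (abs_nonneg _) (by positivity)
  rw [abs_mul, abs_neg, abs_two, Nat.abs_cast]

lemma ha_scalar (P : Prof ι) (k : ℕ) : ∃ C : ℝ, 0 < C ∧ ∀ e : ℝ, 0 ≤ e →
    ∀ (a : W ι) (η h : (ι → ℝ) → W ι), ‖a‖ = 1 → SkewW a → PinW e a → Lin k a η h →
    ∀ E1 E2 : ℝ, (∫ y in closedBall (0 : ι → ℝ) 1, ‖η y‖) ≤ E1 →
    (∫ y in closedBall (0 : ι → ℝ) 1, ‖h y‖) ≤ E2 →
    ∀ ρ : ℝ, 0 < ρ → ρ ≤ 1 / 2 → ∀ x ∈ closedBall (0 : ι → ℝ) (1 / 2),
    ∀ u : List ι, u.length ≤ 1 → ∀ p : ι × ι,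
    |av P.p0 (pdw u fun y => η y p) x ρ|
      ≤ C * (E1 + ρ⁻¹ ^ (Fintype.card ι + 5) * (E2 + e * E1)) := by
  obtain ⟨C0, hC0, b0⟩ := HA_bound P.t0
  obtain ⟨C1, hC1, b1⟩ := HA_bound P.t1
  obtain ⟨C2, hC2, b2⟩ := HA_bound P.t2
  set n : ℝ := (Fintype.card ι : ℝ) with hn
  have hn0 : 0 ≤ n := by positivity
  set T : ℝ := (1 / 2 : ℝ)⁻¹ ^ (Fintype.card ι + 5) with hT
  have hT0 : 0 < T := by positivity
  set D : ℝ := n * (n * (2 * k * C2)) + n * (n * (n * (2 * C2))) with hD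
  have hD0 : 0 ≤ D := by positivity
  refine ⟨C0 * T + n * (2 * k * (C1 * T + D) + 2 * C1), by positivity, ?_⟩
  intro e he a η h ha hsk hpin H E1 E2 hE1 hE2 ρ hρ hρ1 x hx u hu p
  have hE10 : 0 ≤ E1 := (integral_nonneg fun y => norm_nonneg _).trans hE1
  have hE20 : 0 ≤ E2 := (integral_nonneg fun y => norm_nonneg _).trans hE2
  have hU := H.smooth_u
  have hUb : ∀ y, |⟪a, η y⟫| ≤ ‖η y‖ := fun y => by
    have := abs_real_inner_le_norm a (η y)
    rwa [ha, one_mul] at this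
  have hab : ∀ q, |a q| ≤ 1 := fun q => ha ▸ abs_apply_le a q
  set R : ℝ := ρ⁻¹ ^ (Fintype.card ι + 5) with hR
  have hR0 : 0 ≤ R := by positivity
  set Y : ℝ := R * (E2 + e * E1) with hY
  have hY1 : R * E2 ≤ Y := mul_le_mul_of_nonneg_left (le_add_of_nonneg_right (by positivity)) hR0
  have hY2 : e * (R * E1) ≤ Y := by
    have : 0 ≤ R * E2 := by positivity
    rw [hY]; linarith
  have hY0 : 0 ≤ Y := by positivity
  have bu2 := fun s h1 h2 w hw =>
    b2 _ η E1 hU H.sη.continuous hUb hE1 x hx ρ s hρ h1 h2 w hw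
  have bh2 := fun q s h1 h2 w hw =>
    b2 _ h E2 (H.sh q) H.sh.continuous (fun y => abs_apply_le _ q) hE2 x hx ρ s hρ h1 h2 w hw
  have bh1 := fun q s h1 h2 w hw =>
    b1 _ h E2 (H.sh q) H.sh.continuous (fun y => abs_apply_le _ q) hE2 x hx ρ s hρ h1 h2 w hw
  have hlen : ∀ (v : List ι) (i j : ι), (v ++ [i, j]).length = v.length + 2 := by
    intro v i j; simp
  have step1 : ∀ v : List ι, v.length ≤ 3 → ∀ s, ρ ≤ s → s ≤ 1 / 2 →
      |av P.p2 (lap (pdw v fun y => ⟪a, η y⟫)) x s| ≤ D * Y := by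
    intro v hv s h1 h2
    have hA : |av P.p2 (pdw v fun y => ∑ i, ∑ j, (-2 * (k : ℝ) * (∑ l, a (i, l) * a (j, l)
          - if i = j then (Fintype.card ι : ℝ)⁻¹ else 0)) *
          pdw [j, i] (fun y => ⟪a, η y⟫) y) x s| ≤ n * (n * (2 * k * e * (C2 * (R * E1)))) := by
      refine HA_sum P.t2 (fun i => ContDiff.sum fun j _ =>
        contDiff_const.mul (contDiff_pdw hU _)) fun i => ?_
      refine HA_sum P.t2 (fun j => contDiff_const.mul (contDiff_pdw hU _)) fun j => ?_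
      refine HA_mul (contDiff_pdw hU _) (HA_coef he ha hpin i j) ?_
      rw [← pdw_append]
      exact bu2 s h1 h2 _ (by rw [hlen]; omega)
    have hB : |av P.p2 (pdw v fun y => ∑ j, ∑ l, ∑ i, (-2 * a (j, l)) *
          pdw [j, i] (fun y => h y (i, l)) y) x s| ≤ n * (n * (n * (2 * (C2 * (R * E2))))) := by
      refine HA_sum P.t2 (fun j => ContDiff.sum fun l _ => ContDiff.sum fun i _ =>
        contDiff_const.mul (contDiff_pdw (H.sh _) _)) fun j => ?_
      refine HA_sum P.t2 (fun l => ContDiff.sum fun i _ =>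
        contDiff_const.mul (contDiff_pdw (H.sh _) _)) fun l => ?_
      refine HA_sum P.t2 (fun i => contDiff_const.mul (contDiff_pdw (H.sh _) _)) fun i => ?_
      refine HA_mul (contDiff_pdw (H.sh _) _) ?_ ?_
      · rw [abs_mul, abs_neg, abs_two]
        linarith [hab (j, l)]
      · rw [← pdw_append]
        exact bh2 _ s h1 h2 _ (by rw [hlen]; omega)
    have hAB := HA_add P.t2 (ContDiff.sum fun i _ => ContDiff.sum fun j _ =>
        contDiff_const.mul (contDiff_pdw hU _))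
      (ContDiff.sum fun j _ => ContDiff.sum fun l _ => ContDiff.sum fun i _ =>
        contDiff_const.mul (contDiff_pdw (H.sh _) _)) hA hB
    rw [← H.lap_u hsk, pdw_const_mul (contDiff_lap hU), av_const_mul, abs_mul,
      abs_of_nonneg (by positivity)] at hAB
    have hone : (1 : ℝ) ≤ 1 + 2 * (k : ℝ) / Fintype.card ι :=
      le_add_of_nonneg_right (by positivity)
    have h3 := (le_mul_of_one_le_left (abs_nonneg _) hone).trans hAB
    rw [lap_pdw hU]
    refine h3.trans ?_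
    have h4 := mul_le_mul_of_nonneg_left hY2 (by positivity : 0 ≤ n * (n * (2 * k * C2)))
    have h5 := mul_le_mul_of_nonneg_left hY1 (by positivity : 0 ≤ n * (n * (n * (2 * C2))))
    rw [hD]
    linarith
  have step2 : ∀ v : List ι, v.length ≤ 3 → ∀ s, ρ ≤ s → s ≤ 1 / 2 →
      |av P.p1 (pdw v fun y => ⟪a, η y⟫) x s| ≤ C1 * (T * E1) + D * Y := by
    intro v hv s h1 h2
    have h3 := av_mean_value P.t1 P.t2 P.d2 (contDiff_pdw hU v) x (hρ.trans_le h1) h2
      (by norm_num) fun s' hs' => step1 v hv s' (h1.trans hs'.1) hs'.2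
    have h4 := b1 _ η E1 hU H.sη.continuous hUb hE1 x hx (1 / 2) (1 / 2) (by norm_num) le_rfl
      le_rfl v (by omega)
    rw [← hT] at h4
    have h5 := abs_sub_abs_le_abs_sub (av P.p1 (pdw v fun y => ⟪a, η y⟫) x s)
      (av P.p1 (pdw v fun y => ⟪a, η y⟫) x (1 / 2))
    linarith
  obtain ⟨j, l⟩ := p
  have step3 : ∀ s, ρ ≤ s → s ≤ 1 / 2 →
      |av P.p1 (lap (pdw u fun y => η y (j, l))) x s| ≤
        n * ((k * (C1 * (T * E1) + D * Y) + k * (C1 * (T * E1) + D * Y)) +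
          (C1 * (R * E2) + C1 * (R * E2))) := by
    intro s h1 h2
    have hka : ∀ q, |(k : ℝ) * a q| ≤ k := fun q => by
      rw [abs_mul, Nat.abs_cast]
      exact mul_le_of_le_one_right (by positivity) (hab q)
    rw [lap_pdw (H.sη _), H.lap_eta]
    refine HA_sum P.t1 (fun i => ((contDiff_const.mul (contDiff_pdw hU _)).sub
      (contDiff_const.mul (contDiff_pdw hU _))).add
      ((contDiff_pdw (H.sh _) _).sub (contDiff_pdw (H.sh _) _))) fun i => ?_
    refine HA_add P.t1 ((contDiff_const.mul (contDiff_pdw hU _)).sub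
      (contDiff_const.mul (contDiff_pdw hU _)))
      ((contDiff_pdw (H.sh _) _).sub (contDiff_pdw (H.sh _) _)) ?_ ?_
    · refine HA_sub P.t1 (contDiff_const.mul (contDiff_pdw hU _))
        (contDiff_const.mul (contDiff_pdw hU _)) ?_ ?_
      · refine HA_mul (contDiff_pdw hU _) (hka _) ?_
        rw [← pdw_append]
        exact step2 _ (by rw [hlen]; omega) s h1 h2
      · refine HA_mul (contDiff_pdw hU _) (hka _) ?_
        rw [← pdw_append]
        exact step2 _ (by rw [hlen]; omega) s h1 h2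
    · refine HA_sub P.t1 (contDiff_pdw (H.sh _) _) (contDiff_pdw (H.sh _) _) ?_ ?_
      · rw [← pdw_append]
        exact bh1 _ s h1 h2 _ (by rw [hlen]; omega)
      · rw [← pdw_append]
        exact bh1 _ s h1 h2 _ (by rw [hlen]; omega)
  have h3 := av_mean_value P.t0 P.t1 P.d1 (contDiff_pdw (H.sη (j, l)) u) x hρ hρ1
    (by norm_num) fun s' hs' => step3 s' hs'.1 hs'.2
  have h4 := b0 _ η E1 (H.sη (j, l)) H.sη.continuous (fun y => abs_apply_le _ _) hE1 x hx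
    (1 / 2) (1 / 2) (by norm_num) le_rfl le_rfl u (by omega)
  rw [← hT] at h4
  have h5 := abs_sub_abs_le_abs_sub (av P.p0 (pdw u fun y => η y (j, l)) x ρ)
    (av P.p0 (pdw u fun y => η y (j, l)) x (1 / 2))
  have h6 := mul_le_mul_of_nonneg_left hY1 (by positivity : 0 ≤ n * (2 * C1))
  have p1 : 0 ≤ C0 * T * Y := by positivity
  have p2 : 0 ≤ n * (2 * k * (C1 * T)) * Y := by positivity
  have p3 : 0 ≤ n * (2 * k * D) * E1 := by positivity
  have p4 : 0 ≤ n * (2 * C1) * E1 := by positivity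
  linarith

end Pool.Agent.Work.MP_bf98aa_gt
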