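import Pool.Agent.Work.MP_bf98aa_gt.DecayB

/-!
Scaling and iteration of the decay lemma.

PLAN. Sys.scale: components of c • w (x + r • y) are c * w (x + r • y) p; pd_const_mul, pd_affine; norm_smul;
PinW is homogeneous of degree 2. En_scale: G k (c • b) (c • z) = c^(k+2) G k b z, then the change of variables
y ↦ x + r • y (Measure.integral_comp_smul, integral_add_left_eq_self, with indicators;
x + r • y lies in closedBall x (r t) iff y lies in closedBall 0 t). good_step: Good gives y1; c = ‖w y1‖⁻¹,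
y0 = r⁻¹ • (y1 - x); apply decay_unit to the scaled system and scale back. good_all: choose j with
R0 ≤ r / θ^j (exists_pow_lt_of_lt_one), induction on j.
-/

set_option autoImplicit false
set_option linter.unusedSectionVars false

open MeasureTheory Metric Matrix
open scoped ContDiff RealInnerProductSpace

namespace Pool.Agent.Work.MP_bf98aa_gt

variable {ι : Type} [Fintype ι] [DecidableEq ι]

lemma Iter_smooth {w : (ι → ℝ) → W ι} (h : SmoothW w) (x : ι → ℝ) (r c : ℝ) :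
    SmoothW fun y => c • w (x + r • y) := fun p => by
  have h1 : ContDiff ℝ ∞ fun y : ι → ℝ => x + r • y := contDiff_const.add (contDiff_id.const_smul r)
  exact contDiff_const.mul ((h p).comp h1)

lemma Iter_pd {w : (ι → ℝ) → W ι} (h : SmoothW w) (x : ι → ℝ) (r c : ℝ) (i : ι) (p : ι × ι)
    (z : ι → ℝ) : pd i (fun y => (c • w (x + r • y)) p) z =
      c * r * pd i (fun y => w y p) (x + r • z) := by
  have hd : Differentiable ℝ fun y => w y p := (h p).differentiable (by simp)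
  have h1 : Differentiable ℝ fun y : ι → ℝ => x + r • y := by fun_prop
  have h2 := pd_const_mul (f := fun y => w (x + r • y) p) ((hd.comp h1) z) c i
  have h3 := pd_affine hd x r i z
  rw [mul_assoc, ← h3, ← h2]
  rfl

lemma Iter_G {E : Type} [NormedAddCommGroup E] [NormedSpace ℝ E] (k : ℕ) (b z : E) {c : ℝ}
    (hc : 0 < c) : G k (c • b) (c • z) = c ^ (k + 2) * G k b z := by
  unfold G
  rw [norm_smul, norm_smul, Real.norm_of_nonneg hc.le]
  ring

lemma Sys.scale {k : ℕ} {e : ℝ} {w F : (ι → ℝ) → W ι} (h : Sys k e w F) (x : ι → ℝ) {r c : ℝ}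
    (hc : 0 < c) :
    Sys k e (fun y => c • w (x + r • y)) fun y => c ^ (k + 1) • F (x + r • y) := by
  have hn : ∀ a : W ι, ‖c • a‖ = c * ‖a‖ := fun a => by
    rw [norm_smul, Real.norm_of_nonneg hc.le]
  refine ⟨Iter_smooth h.sw x r c, Iter_smooth h.sF x r _, fun y i j => ?_, fun y i j => ?_,
    fun y i j l => ?_, fun y j => ?_, fun y => ?_, fun y i j => ?_,
    fun y => smul_ne_zero hc.ne' (h.ne _)⟩
  · simp only [PiLp.smul_apply, smul_eq_mul]
    rw [h.skw _ i j, mul_neg]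
  · simp only [PiLp.smul_apply, smul_eq_mul]
    rw [h.skF _ i j, mul_neg]
  · rw [Iter_pd h.sw, Iter_pd h.sw, Iter_pd h.sw, ← mul_add, ← mul_add, h.closed, mul_zero]
  · simp only [Iter_pd h.sF]
    rw [← Finset.mul_sum, h.coclosed, mul_zero]
  · have e1 : c ^ (k + 1) • F (x + r • y) - ‖c • w (x + r • y)‖ ^ k • c • w (x + r • y) =
        c ^ (k + 1) • (F (x + r • y) - ‖w (x + r • y)‖ ^ k • w (x + r • y)) := by
      rw [hn, smul_sub, smul_smul, smul_smul]
      congr 2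
      ring
    rw [e1, norm_smul, Real.norm_of_nonneg (pow_pos hc _).le, hn, mul_pow, mul_left_comm]
    exact mul_le_mul_of_nonneg_left (h.near _) (pow_pos hc _).le
  · have h1 := mul_le_mul_of_nonneg_left (h.pin (x + r • y) i j) (pow_pos hc 2).le
    rw [← abs_of_pos (pow_pos hc 2), ← abs_mul, abs_of_pos (pow_pos hc 2)] at h1
    rw [hn]
    have e1 : ∑ l, (c • w (x + r • y)) (i, l) * (c • w (x + r • y)) (j, l) =
        c ^ 2 * ∑ l, w (x + r • y) (i, l) * w (x + r • y) (j, l) := by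
      rw [Finset.mul_sum]
      refine Finset.sum_congr rfl fun l _ => ?_
      simp only [PiLp.smul_apply, smul_eq_mul]
      ring
    have e2 : (if i = j then (c * ‖w (x + r • y)‖) ^ 2 else 0) =
        c ^ 2 * if i = j then ‖w (x + r • y)‖ ^ 2 else 0 := by
      split_ifs <;> ring
    rw [e1, e2, mul_left_comm _ (c ^ 2), ← mul_sub, mul_pow, mul_left_comm e]
    exact h1

lemma En_scale (k : ℕ) (w : (ι → ℝ) → W ι) (b : W ι) (x : ι → ℝ) {r c : ℝ} (hr : 0 < r)
    (hc : 0 < c) (t : ℝ) : En k (fun y => c • w (x + r • y)) (c • b) 0 t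
      = c ^ (k + 2) * r⁻¹ ^ Fintype.card ι * En k w b x (r * t) := by
  unfold En
  have e1 : ∀ y, G k (c • b) (c • w (x + r • y) - c • b) =
      c ^ (k + 2) * G k b (w (x + r • y) - b) := fun y => by rw [← smul_sub, Iter_G _ _ _ hc]
  simp only [e1]
  rw [integral_const_mul, mul_assoc]
  congr 1
  rw [← integral_indicator measurableSet_closedBall, ← integral_indicator measurableSet_closedBall]
  set f := (closedBall x (r * t)).indicator fun y => G k b (w y - b) with hf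
  have e2 : ((closedBall (0 : ι → ℝ) t).indicator fun y => G k b (w (x + r • y) - b)) =
      fun y => f (x + r • y) := by
    funext y
    have e3 : x + r • y ∈ closedBall x (r * t) ↔ y ∈ closedBall (0 : ι → ℝ) t := by
      rw [mem_closedBall_iff_norm, mem_closedBall_iff_norm, add_sub_cancel_left, sub_zero,
        norm_smul, Real.norm_of_nonneg hr.le, mul_le_mul_iff_right₀ hr]
    by_cases hy : y ∈ closedBall (0 : ι → ℝ) t
    · rw [hf, Set.indicator_of_mem hy, Set.indicator_of_mem (e3.2 hy)]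
    · rw [hf, Set.indicator_of_notMem hy, Set.indicator_of_notMem fun h => hy (e3.1 h)]
  rw [e2, Measure.integral_comp_smul volume (fun y => f (x + y)) r, integral_add_left_eq_self,
    Module.finrank_fintype_fun_eq_card, abs_of_pos (by positivity), inv_pow, smul_eq_mul]

lemma good_step (k : ℕ) : ∃ θ : ℝ, 0 < θ ∧ θ < 1 ∧ ∃ d0 : ℝ, 0 < d0 ∧ ∀ d : ℝ, 0 < d → d ≤ d0 →
    ∃ e0 : ℝ, 0 < e0 ∧ ∀ e : ℝ, 0 ≤ e → e ≤ e0 → ∀ w F : (ι → ℝ) → W ι, Sys k e w F →
    ∀ (x : ι → ℝ) (r : ℝ), 0 < r → Good k d w x r → Good k d w x (θ * r) := by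
  obtain ⟨θ, h0, h1, d0, hd0, H⟩ := decay_unit (ι := ι) k
  refine ⟨θ, h0, h1, d0, hd0, fun d hd hd' => ?_⟩
  obtain ⟨e0, he0, H'⟩ := H d hd hd'
  refine ⟨e0, he0, fun e he he' w F hS x r hr ⟨y1, hy1⟩ => ?_⟩
  have hn : 0 < ‖w y1‖ := norm_pos_iff.2 (hS.ne y1)
  have hc : 0 < ‖w y1‖⁻¹ := inv_pos.2 hn
  have e1 : x + r • r⁻¹ • (y1 - x) = y1 := by
    rw [smul_smul, mul_inv_cancel₀ hr.ne', one_smul, add_sub_cancel]
  have hK : 0 < ‖w y1‖⁻¹ ^ (k + 2) * r⁻¹ ^ Fintype.card ι := by positivity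
  obtain ⟨y, hy⟩ := H' e he he' _ _ (hS.scale x (r := r) hc) (r⁻¹ • (y1 - x))
    (by
      show ‖‖w y1‖⁻¹ • w (x + r • r⁻¹ • (y1 - x))‖ = 1
      rw [e1, norm_smul, Real.norm_of_nonneg hc.le, inv_mul_cancel₀ hn.ne'])
    (by
      show En k _ (‖w y1‖⁻¹ • w (x + r • r⁻¹ • (y1 - x))) 0 1 ≤ d
      rw [e1, En_scale k w _ x hr hc, mul_one]
      refine (mul_le_mul_of_nonneg_left hy1 hK.le).trans_eq ?_
      rw [inv_pow, inv_pow]
      field_simp)
  refine ⟨x + r • y, ?_⟩
  rw [En_scale k w _ x hr hc, norm_smul, Real.norm_of_nonneg hc.le, mul_comm r θ] at hy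
  refine le_of_mul_le_mul_left (hy.trans_eq ?_) hK
  rw [mul_pow, mul_pow, inv_pow r]
  field_simp

lemma good_all (k : ℕ) : ∃ d0 : ℝ, 0 < d0 ∧ ∀ d : ℝ, 0 < d → d ≤ d0 →
    ∃ e0 : ℝ, 0 < e0 ∧ ∀ e : ℝ, 0 ≤ e → e ≤ e0 → ∀ w F : (ι → ℝ) → W ι, Sys k e w F →
    ∀ R0 : ℝ, (∀ R, R0 ≤ R → ∀ x, Good k d w x R) →
    ∀ (x : ι → ℝ) (r : ℝ), 0 < r → Good k d w x r := by
  obtain ⟨θ, h0, h1, d0, hd0, H⟩ := good_step (ι := ι) k
  refine ⟨d0, hd0, fun d hd hd' => ?_⟩
  obtain ⟨e0, he0, H'⟩ := H d hd hd'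
  refine ⟨e0, he0, fun e he he' w F hS R0 hR x => ?_⟩
  have key : ∀ (j : ℕ) (r : ℝ), 0 < r → R0 * θ ^ j ≤ r → Good k d w x r := by
    intro j
    induction j with
    | zero => exact fun r _ h => hR r (by simpa using h) x
    | succ j ih =>
      intro r hr h
      have h2 := H' e he he' w F hS x (r / θ) (div_pos hr h0)
        (ih _ (div_pos hr h0) (by rw [le_div_iff₀ h0, mul_assoc, ← pow_succ]; exact h))
      rwa [mul_div_cancel₀ _ h0.ne'] at h2
  intro r hr
  obtain ⟨j, hj⟩ := exists_pow_lt_of_lt_one (div_pos hr (by positivity : 0 < |R0| + 1)) h1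
  refine key j r hr ?_
  rw [lt_div_iff₀ (by positivity)] at hj
  have h3 := pow_pos h0 j
  nlinarith [le_abs_self R0]

end Pool.Agent.Work.MP_bf98aa_gt
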