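import Pool.Agent.Work.MP_bf98aa_gt.AvBasic

/-!
The linearised system and the equations for the Laplacians.

PLAN. u y = ⟪a, η y⟫ = ∑ i j, a (i,j) * η y (i,j) (inner_eq). All identities are between functions.
div_eta: from co with pd_add, pd_const_mul (component (i,j) of the sum is η y (i,j) + k * u y * a (i,j) + h y (i,j)).
lap_eta: closedness gives pd i η(j,l) = - pd j η(l,i) - pd l η(i,j) as functions; apply pd i, sum over i, commute
(pd_comm), use skewness η(l,i) = - η(i,l), pull pd j and pd l out of the sum (pd_sum) and insert div_eta.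
lap_u: lap u = ∑ j l, a (j,l) * lap η(j,l); insert lap_eta; swapping j and l with skewness of a merges the terms:
lap u = -2 k ∑ i j, (∑ l, a (i,l) a (j,l)) pd j (pd i u) - 2 ∑ j l i, a (j,l) pd j (pd i h(i,l)); then add
(2 k / N) lap u to both sides.
-/

set_option autoImplicit false
set_option linter.unusedSectionVars false

open MeasureTheory Metric Matrix
open scoped ContDiff RealInnerProductSpace

namespace Pool.Agent.Work.MP_bf98aa_gt

variable {ι : Type} [Fintype ι] [DecidableEq ι]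

/-- The linearisation of the system at `a`, with error `h`. -/
structure Lin (k : ℕ) (a : W ι) (η h : (ι → ℝ) → W ι) : Prop where
  sη : SmoothW η
  sh : SmoothW h
  skew : ∀ x, SkewW (η x)
  closed : ClosedW η
  co : CoclosedW fun y => η y + ((k : ℝ) * ⟪a, η y⟫) • a + h y

lemma Lin_diff {f : (ι → ℝ) → ℝ} (hf : ContDiff ℝ ∞ f) (x : ι → ℝ) : DifferentiableAt ℝ f x :=
  hf.differentiable (by simp) x

lemma Lin.smooth_u {k : ℕ} {a : W ι} {η h : (ι → ℝ) → W ι} (H : Lin k a η h) :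
    ContDiff ℝ ∞ fun y => ⟪a, η y⟫ := by
  simp only [inner_eq]
  exact ContDiff.sum fun i _ => ContDiff.sum fun j _ => contDiff_const.mul (H.sη (i, j))

lemma Lin.div_eta {k : ℕ} {a : W ι} {η h : (ι → ℝ) → W ι} (H : Lin k a η h) (j : ι) (x : ι → ℝ) :
    ∑ i, pd i (fun y => η y (i, j)) x
      = -∑ i, ((k : ℝ) * a (i, j) * pd i (fun y => ⟪a, η y⟫) x + pd i (fun y => h y (i, j)) x) := by
  have h1 := H.co x j
  rw [eq_neg_iff_add_eq_zero, ← Finset.sum_add_distrib, ← h1]
  refine Finset.sum_congr rfl fun i _ => ?_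
  have e : (fun y => (η y + ((k : ℝ) * ⟪a, η y⟫) • a + h y) (i, j)) =
      fun y => η y (i, j) + (((k : ℝ) * a (i, j)) * ⟪a, η y⟫ + h y (i, j)) := by
    funext y
    simp only [PiLp.add_apply, PiLp.smul_apply, smul_eq_mul]
    ring
  have du := Lin_diff H.smooth_u x
  rw [e, pd_add (Lin_diff (H.sη _) x) ((du.const_mul _).fun_add (Lin_diff (H.sh _) x)),
    pd_add (du.const_mul _) (Lin_diff (H.sh _) x), pd_const_mul du]

lemma Lin_ddiv {k : ℕ} {a : W ι} {η h : (ι → ℝ) → W ι} (H : Lin k a η h) (j l : ι) (x : ι → ℝ) :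
    ∑ i, pd i (pd l fun y => η y (i, j)) x
      = -∑ i, ((k : ℝ) * a (i, j) * pd l (pd i fun y => ⟪a, η y⟫) x +
        pd l (pd i fun y => h y (i, j)) x) := by
  have e1 : ∑ i, pd i (pd l fun y => η y (i, j)) x =
      pd l (fun z => ∑ i, pd i (fun y => η y (i, j)) z) x := by
    rw [pd_sum _ fun i _ => Lin_diff (contDiff_pd (H.sη (i, j)) i) x]
    exact Finset.sum_congr rfl fun i _ => by rw [pd_comm (H.sη (i, j))]
  have du : ∀ i, DifferentiableAt ℝ (pd i fun y => ⟪a, η y⟫) x :=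
    fun i => Lin_diff (contDiff_pd H.smooth_u i) x
  have dh : ∀ i, DifferentiableAt ℝ (pd i fun y => h y (i, j)) x :=
    fun i => Lin_diff (contDiff_pd (H.sh (i, j)) i) x
  rw [e1, funext (H.div_eta j), pd_neg,
    pd_sum _ fun i _ => ((du i).const_mul ((k : ℝ) * a (i, j))).fun_add (dh i)]
  congr 1
  refine Finset.sum_congr rfl fun i _ => ?_
  rw [← pd_const_mul (du i)]
  exact pd_add ((du i).const_mul _) (dh i) l

lemma Lin.lap_eta {k : ℕ} {a : W ι} {η h : (ι → ℝ) → W ι} (H : Lin k a η h) (j l : ι) :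
    lap (fun y => η y (j, l)) = fun x => ∑ i,
      (((k : ℝ) * a (i, j)) * pdw [l, i] (fun y => ⟪a, η y⟫) x
        - ((k : ℝ) * a (i, l)) * pdw [j, i] (fun y => ⟪a, η y⟫) x
        + (pdw [l, i] (fun y => h y (i, j)) x - pdw [j, i] (fun y => h y (i, l)) x)) := by
  funext x
  have e1 : ∀ i, pd i (fun y => η y (j, l)) =
      fun z => pd j (fun y => η y (i, l)) z - pd l (fun y => η y (i, j)) z := by
    intro i
    funext z
    have h1 := H.closed z i j l
    have h2 : (fun y => η y (l, i)) = fun y => -η y (i, l) := funext fun y => H.skew y i l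
    rw [h2, pd_neg] at h1
    linarith
  have e2 : lap (fun y => η y (j, l)) x =
      ∑ i, pd i (pd j fun y => η y (i, l)) x - ∑ i, pd i (pd l fun y => η y (i, j)) x := by
    rw [lap, ← Finset.sum_sub_distrib]
    refine Finset.sum_congr rfl fun i _ => ?_
    rw [e1 i]
    exact pd_sub (Lin_diff (contDiff_pd (H.sη _) j) x) (Lin_diff (contDiff_pd (H.sη _) l) x) i
  rw [e2, Lin_ddiv H, Lin_ddiv H, neg_sub_neg, ← Finset.sum_sub_distrib]
  refine Finset.sum_congr rfl fun i _ => ?_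
  simp only [pdw_cons, pdw_nil]
  ring

lemma Lin_lap_inner {k : ℕ} {a : W ι} {η h : (ι → ℝ) → W ι} (H : Lin k a η h) (x : ι → ℝ) :
    lap (fun y => ⟪a, η y⟫) x = ∑ j, ∑ l, a (j, l) * lap (fun y => η y (j, l)) x := by
  have e : ∀ i, pdw [i, i] (fun y => ⟪a, η y⟫) x =
      ∑ j, ∑ l, a (j, l) * pdw [i, i] (fun y => η y (j, l)) x := by
    intro i
    simp only [inner_eq]
    rw [pdw_sum _ fun j _ => ContDiff.sum fun l _ => contDiff_const.mul (H.sη (j, l))]
    refine Finset.sum_congr rfl fun j _ => ?_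
    rw [pdw_sum _ fun l _ => contDiff_const.mul (H.sη (j, l))]
    refine Finset.sum_congr rfl fun l _ => ?_
    rw [pdw_const_mul (H.sη (j, l))]
  simp only [pdw_cons, pdw_nil] at e
  simp only [lap, e, Finset.mul_sum]
  rw [Finset.sum_comm]
  exact Finset.sum_congr rfl fun j _ => Finset.sum_comm

lemma Lin_swap {a : W ι} (ha : SkewW a) (T : ι → ι → ℝ) :
    ∑ j, ∑ l, a (j, l) * (T l j - T j l) = ∑ j, ∑ l, -2 * a (j, l) * T j l := by
  have e : ∑ j, ∑ l, a (j, l) * T l j = ∑ j, ∑ l, -(a (j, l) * T j l) := by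
    rw [Finset.sum_comm]
    refine Finset.sum_congr rfl fun j _ => Finset.sum_congr rfl fun l _ => ?_
    rw [ha j l, neg_mul]
  simp only [mul_sub, Finset.sum_sub_distrib]
  rw [e, ← Finset.sum_sub_distrib]
  refine Finset.sum_congr rfl fun j _ => ?_
  rw [← Finset.sum_sub_distrib]
  refine Finset.sum_congr rfl fun l _ => ?_
  ring

lemma Lin.lap_u {k : ℕ} {a : W ι} {η h : (ι → ℝ) → W ι} (H : Lin k a η h) (ha : SkewW a) :
    (fun x => (1 + 2 * (k : ℝ) / Fintype.card ι) * lap (fun y => ⟪a, η y⟫) x) = fun x =>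
      (∑ i, ∑ j, (-2 * (k : ℝ) * (∑ l, a (i, l) * a (j, l)
          - if i = j then (Fintype.card ι : ℝ)⁻¹ else 0)) * pdw [j, i] (fun y => ⟪a, η y⟫) x)
      + ∑ j, ∑ l, ∑ i, (-2 * a (j, l)) * pdw [j, i] (fun y => h y (i, l)) x := by
  funext x
  have e1 : lap (fun y => ⟪a, η y⟫) x = ∑ j, ∑ l, -2 * a (j, l) *
      ∑ i, ((k : ℝ) * a (i, l) * pdw [j, i] (fun y => ⟪a, η y⟫) x +
        pdw [j, i] (fun y => h y (i, l)) x) := by
    rw [Lin_lap_inner H, ← Lin_swap ha fun j l => ∑ i,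
      ((k : ℝ) * a (i, l) * pdw [j, i] (fun y => ⟪a, η y⟫) x + pdw [j, i] (fun y => h y (i, l)) x)]
    refine Finset.sum_congr rfl fun j _ => Finset.sum_congr rfl fun l _ => ?_
    rw [H.lap_eta j l, ← Finset.sum_sub_distrib]
    congr 1
    refine Finset.sum_congr rfl fun i _ => ?_
    ring
  have e2 : ∑ i, ∑ j, (-2 * (k : ℝ) * (∑ l, a (i, l) * a (j, l)
        - if i = j then (Fintype.card ι : ℝ)⁻¹ else 0)) * pdw [j, i] (fun y => ⟪a, η y⟫) x =
      (∑ j, ∑ l, ∑ i, -2 * a (j, l) * ((k : ℝ) * a (i, l) * pdw [j, i] (fun y => ⟪a, η y⟫) x)) +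
        2 * (k : ℝ) / Fintype.card ι * lap (fun y => ⟪a, η y⟫) x := by
    rw [Finset.sum_comm, lap, Finset.mul_sum, ← Finset.sum_add_distrib]
    refine Finset.sum_congr rfl fun j _ => ?_
    have e3 : 2 * (k : ℝ) / Fintype.card ι * pd j (pd j fun y => ⟪a, η y⟫) x =
        ∑ i, if i = j then 2 * (k : ℝ) / Fintype.card ι * pdw [j, i] (fun y => ⟪a, η y⟫) x
          else 0 := by
      rw [Finset.sum_ite_eq', if_pos (Finset.mem_univ _)]
      rfl
    rw [Finset.sum_comm, e3, ← Finset.sum_add_distrib]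
    refine Finset.sum_congr rfl fun i _ => ?_
    rw [mul_sub, sub_mul, Finset.mul_sum, Finset.sum_mul, sub_eq_add_neg]
    congr 1
    · refine Finset.sum_congr rfl fun l _ => ?_
      ring
    · split_ifs
      · ring
      · ring
  rw [e2, add_mul, one_mul, add_right_comm]
  congr 1
  rw [e1, ← Finset.sum_add_distrib]
  refine Finset.sum_congr rfl fun j _ => ?_
  rw [← Finset.sum_add_distrib]
  refine Finset.sum_congr rfl fun l _ => ?_
  rw [← Finset.sum_add_distrib, Finset.mul_sum]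
  refine Finset.sum_congr rfl fun i _ => ?_
  ring

end Pool.Agent.Work.MP_bf98aa_gt
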