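import Pool.Agent.Work.MP_bf98aa_gt.Av1

/-!
Closeness to a pinched matrix gives nondegeneracy; good cubes give closeness of the means.

PLAN. det_ne_zero_of_near: N = card ι ≥ 1 since a ≠ 0; e0 = 1 / (2 N + 2), c = 1 / (2 N + 2). If det M = 0 there is v ≠ 0 with
v ᵥ* M = 0 (exists_vecMul_eq_zero_iff). Put g l = ∑ i, v i * a (i,l) = ∑ i, v i * (a (i,l) - M i l). Then
N ∑ g l ^ 2 = ∑ i j, v i v j (N ∑ l, a (i,l) a (j,l)) ≥ ‖a‖^2 (∑ v i ^ 2 - e (∑ |v i|)^2) ≥ ‖a‖^2 (∑ v i ^ 2) / 2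
(sq_sum_le_card_mul_sum_sq; if e < 0 then PinW is contradictory or use e ≤ e0 directly), while Cauchy-Schwarz
(Finset.sum_mul_sq_le_sq_mul_sq) gives ∑ g l ^ 2 ≤ (∑ v i ^ 2) ‖toW M - a‖^2 (EuclideanSpace.real_norm_sq_eq).
av_near: a = w y; av p0 w x r - a = av p0 (w - a) x r; norm_av_le with Test.bdd; pointwise
‖z‖ ≤ t ‖a‖ + G k a z / (t ‖a‖^(k+1)); so the norm is at most M (2^N t + d / t) ‖a‖; choose t, then d0.
-/

set_option autoImplicit false
set_option linter.unusedSectionVars false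

open MeasureTheory Metric Matrix
open scoped ContDiff RealInnerProductSpace

namespace Pool.Agent.Work.MP_bf98aa_gt

variable {ι : Type} [Fintype ι] [DecidableEq ι]

lemma Near_low {e : ℝ} (he : 0 ≤ e) {a : W ι} (hp : PinW e a) (v : ι → ℝ) :
    ‖a‖ ^ 2 * (∑ i, v i ^ 2) * (1 - e * Fintype.card ι) ≤
      Fintype.card ι * ∑ l, (∑ i, v i * a (i, l)) ^ 2 := by
  have h1 : (Fintype.card ι : ℝ) * ∑ l, (∑ i, v i * a (i, l)) ^ 2 =
      ∑ i, ∑ j, v i * v j * (Fintype.card ι * ∑ l, a (i, l) * a (j, l)) := by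
    simp only [sq, Finset.sum_mul_sum]
    simp only [Finset.mul_sum]
    rw [Finset.sum_comm]
    refine Finset.sum_congr rfl fun i _ => ?_
    rw [Finset.sum_comm]
    exact Finset.sum_congr rfl fun j _ => Finset.sum_congr rfl fun l _ => by ring
  have h2 : ∑ i, ∑ j, (v i * v j * (if i = j then ‖a‖ ^ 2 else 0) - e * ‖a‖ ^ 2 * (|v i| * |v j|)) =
      ‖a‖ ^ 2 * ∑ i, v i ^ 2 - e * ‖a‖ ^ 2 * (∑ i, |v i|) ^ 2 := by
    simp only [Finset.sum_sub_distrib, mul_ite, mul_zero, Finset.sum_ite_eq, Finset.mem_univ,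
      if_true, ← Finset.mul_sum, ← Finset.sum_mul, sq]
    ring
  have h3 := sq_sum_le_card_mul_sum_sq (s := Finset.univ) (f := fun i => |v i|)
  simp only [sq_abs, Finset.card_univ] at h3
  have h4 := mul_le_mul_of_nonneg_left h3 (mul_nonneg he (sq_nonneg ‖a‖))
  refine le_trans (by linarith) (h2.ge.trans (le_of_le_of_eq ?_ h1.symm))
  refine Finset.sum_le_sum fun i _ => Finset.sum_le_sum fun j _ => ?_
  have h5 := mul_le_mul_of_nonneg_left (hp i j) (abs_nonneg (v i * v j))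
  rw [← abs_mul] at h5 ⊢
  linarith [(abs_le.1 h5).1]

lemma Near_up (a : W ι) {M : Matrix ι ι ℝ} {v : ι → ℝ} (hv : v ᵥ* M = 0) :
    ∑ l, (∑ i, v i * a (i, l)) ^ 2 ≤ (∑ i, v i ^ 2) * ‖toW M - a‖ ^ 2 := by
  rw [EuclideanSpace.real_norm_sq_eq, Fintype.sum_prod_type_right, Finset.mul_sum]
  refine Finset.sum_le_sum fun l _ => le_of_eq_of_le ?_ (Finset.sum_mul_sq_le_sq_mul_sq _ _ _)
  have h : ∑ i, v i * M i l = 0 := congrFun hv l
  simp only [PiLp.sub_apply, toW_apply, mul_sub, Finset.sum_sub_distrib, h, zero_sub, neg_sq]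
lemma det_ne_zero_of_near : ∃ c e0 : ℝ, 0 < c ∧ 0 < e0 ∧ ∀ e : ℝ, e ≤ e0 → ∀ a : W ι, a ≠ 0 →
    PinW e a → ∀ M : Matrix ι ι ℝ, ‖toW M - a‖ ≤ c * ‖a‖ → M.det ≠ 0 := by
  have hN : (0 : ℝ) ≤ Fintype.card ι := Nat.cast_nonneg _
  have hc : (0 : ℝ) < 1 / (2 * Fintype.card ι + 2) := by positivity
  refine ⟨_, _, hc, hc, fun e he a ha hp M hM h0 => ?_⟩
  obtain ⟨v, hv, hvM⟩ := exists_vecMul_eq_zero_iff.2 h0
  have hA : 0 < ‖a‖ ^ 2 := pow_pos (norm_pos_iff.2 ha) 2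
  have hV : 0 < ∑ i, v i ^ 2 := by
    obtain ⟨i, hi⟩ := Function.ne_iff.1 hv
    exact Finset.sum_pos' (fun _ _ => sq_nonneg _) ⟨i, Finset.mem_univ i, sq_pos_of_ne_zero hi⟩
  have h1 := Near_low hc.le (fun i j => (hp i j).trans (mul_le_mul_of_nonneg_right he hA.le)) v
  have h2 := Near_up a hvM
  have h3 := pow_le_pow_left₀ (norm_nonneg _) hM 2
  have h4 : 1 / (2 * Fintype.card ι + 2) * (2 * Fintype.card ι + 2 : ℝ) = 1 :=
    one_div_mul_cancel (by positivity)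
  generalize (1 : ℝ) / (2 * Fintype.card ι + 2) = c at *
  have h5 := mul_le_mul_of_nonneg_left (h2.trans (mul_le_mul_of_nonneg_left h3 hV.le)) hN
  have h6 : 1 - c * Fintype.card ι ≤ Fintype.card ι * c ^ 2 :=
    le_of_mul_le_mul_left ((h1.trans h5).trans_eq (by ring)) (mul_pos hA hV)
  nlinarith [mul_nonneg hc.le hN]

lemma Near_pt (k : ℕ) {a : W ι} (z : W ι) (ha : 0 < ‖a‖) {t : ℝ} (ht : 0 < t) :
    ‖z‖ ≤ t * ‖a‖ + G k a z / (t * ‖a‖ ^ (k + 1)) := by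
  have h1 := pow_mul_sq_le_G k a z
  have h2 : 0 < ‖a‖ ^ k := pow_pos ha k
  rw [← sub_le_iff_le_add', le_div_iff₀ (by positivity), pow_succ]
  refine le_trans ?_ h1
  nlinarith [mul_nonneg h2.le (sq_nonneg (‖z‖ - t * ‖a‖)),
    mul_nonneg h2.le (mul_nonneg (norm_nonneg z) (mul_pos ht ha).le)]
lemma av_near (P : Prof ι) (k : ℕ) {c : ℝ} (hc : 0 < c) : ∃ d0 : ℝ, 0 < d0 ∧ ∀ d : ℝ, d ≤ d0 →
    ∀ w : (ι → ℝ) → W ι, Continuous w → (∀ y, w y ≠ 0) → ∀ (x : ι → ℝ) (r : ℝ), 0 < r →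
    Good k d w x r → ∃ y, ‖av P.p0 w x r - w y‖ ≤ c * ‖w y‖ := by
  obtain ⟨M, hM, hb⟩ := P.t0.bdd
  have ht : 0 < c / (2 * M * 2 ^ Fintype.card ι) := by positivity
  refine ⟨c * (c / (2 * M * 2 ^ Fintype.card ι)) / (2 * M), by positivity,
    fun d hd w hw h0 x r hr ⟨y, hy⟩ => ⟨y, ?_⟩⟩
  have ha : 0 < ‖w y‖ := norm_pos_iff.2 (h0 y)
  have hz : Continuous fun u => w u - w y := hw.sub continuous_const
  have h1 : av P.p0 w x r - w y = av P.p0 (fun u => w u - w y) x r := by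
    rw [av_sub P.t0 hw continuous_const, av_const, P.one, one_smul]
  have hK := isCompact_closedBall x r
  have hG := (continuous_G k (w y) hz).continuousOn.integrableOn_compact (μ := volume) hK
  have hc' : IntegrableOn (fun _ => c / (2 * M * 2 ^ Fintype.card ι) * ‖w y‖) (closedBall x r) :=
    continuousOn_const.integrableOn_compact hK
  have h2 := integral_mono (hz.norm.continuousOn.integrableOn_compact hK) (hc'.add (hG.div_const _))
    fun u => Near_pt k (w u - w y) ha ht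
  simp only [Pi.add_apply] at h2
  rw [integral_add hc' (hG.div_const _), integral_div, setIntegral_const, volume_real_cube x hr.le,
    smul_eq_mul] at h2
  have h3 := div_le_div_of_nonneg_right (hy.trans (mul_le_mul_of_nonneg_right
    (mul_le_mul_of_nonneg_right hd (by positivity)) (by positivity)))
    (mul_pos ht (pow_pos ha (k + 1))).le
  rw [h1]
  refine (norm_av_le P.t0 hb hz x hr).trans ((mul_le_mul_of_nonneg_left
    (h2.trans (add_le_add_right h3 _)) (by positivity)).trans_eq ?_)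
  rw [mul_pow, inv_pow]
  field_simp
  ring

end Pool.Agent.Work.MP_bf98aa_gt
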