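import Pool.Agent.Work.MP_bf98aa_gt.PathA
import Pool.Agent.Work.MP_bf98aa_gt.Cut

/-!
The path respects every Euclidean isometry that preserves the form.

PLAN. av_preserves: the (i,j) entry of the left side is ∑ p q, A p i * A q j * av p0 w(p,q) (A x + c) s (av_sum,
av_const_mul); substitute v = A v' in the integral (the map v ↦ A *ᵥ v preserves the volume since det A = 1 or -1:
Real.map_matrix_volume_pi_eq_smul_volume_pi, or Measure.map_linearMap_addHaar_eq_smul_addHaar, then
integral_map for the measurable equivalence or continuous integrands), P.radial, A x + c + s • A v = A (x + s • v) + c.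
mean_preserves: both means converge to the entries of mean L w uniformly as s grows (Per.equi); pass to the limit
in av_preserves (for every η > 0 the difference of the entries is at most (1 + ∑ |A p i| |A q j|) η).
path_preserves: path = (1 - λ) • (matrix of means) + λ • mean L w.
-/

set_option autoImplicit false
set_option linter.unusedSectionVars false

open MeasureTheory Metric Matrix
open scoped ContDiff RealInnerProductSpace

namespace Pool.Agent.Work.MP_bf98aa_gt

variable {ι : Type} [Fintype ι] [DecidableEq ι]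

variable (P : Prof ι) {L : Matrix ι ι ℝ} {w : (ι → ℝ) → Matrix ι ι ℝ}

lemma PathB_entry (A M : Matrix ι ι ℝ) (i j : ι) :
    (Aᵀ * M * A) i j = ∑ pq : ι × ι, (A pq.1 i * A pq.2 j) * M pq.1 pq.2 := by
  rw [Fintype.sum_prod_type, Matrix.mul_apply]
  simp only [Matrix.mul_apply, Matrix.transpose_apply, Finset.sum_mul]
  rw [Finset.sum_comm]
  refine Finset.sum_congr rfl fun p _ => Finset.sum_congr rfl fun q _ => ?_
  ring

lemma PathB_subst {A : Matrix ι ι ℝ} (hA : Aᵀ * A = 1) {g : (ι → ℝ) → ℝ} (hg : Continuous g) :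
    ∫ v, g (A *ᵥ v) = ∫ v, g v := by
  have hd : A.det * A.det = 1 := by
    have := congrArg Matrix.det hA
    rwa [Matrix.det_mul, Matrix.det_transpose, Matrix.det_one] at this
  have hne : A.det ≠ 0 := by
    intro h0
    rw [h0] at hd
    norm_num at hd
  have habs : |A.det⁻¹| = 1 := by
    rw [abs_inv]
    have : |A.det| = 1 := by
      have h2 : |A.det| * |A.det| = 1 := by rw [← abs_mul, hd, abs_one]
      nlinarith [abs_nonneg A.det]
    rw [this, inv_one]
  have hm := Real.map_matrix_volume_pi_eq_smul_volume_pi hne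
  rw [habs, ENNReal.ofReal_one, one_smul] at hm
  have hc : Continuous (Matrix.toLin' A) := LinearMap.continuous_on_pi _
  have h1 := integral_map (μ := (volume : Measure (ι → ℝ))) (φ := Matrix.toLin' A)
    hc.measurable.aemeasurable (f := g) hg.aestronglyMeasurable
  rw [hm] at h1
  rw [h1]
  rfl

lemma PathB_av_subst {A : Matrix ι ι ℝ} (c : ι → ℝ) (hA : Aᵀ * A = 1) {f : (ι → ℝ) → ℝ}
    (hf : Continuous f) (x : ι → ℝ) (s : ℝ) :
    av P.p0 f (A *ᵥ x + c) s = av P.p0 (fun y => f (A *ᵥ y + c)) x s := by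
  unfold av
  have hg : Continuous fun v => P.p0 v • f (A *ᵥ x + c + s • v) :=
    P.t0.1.continuous.smul (hf.comp (by fun_prop))
  rw [← PathB_subst hA hg]
  refine integral_congr_ae (Filter.Eventually.of_forall fun v => ?_)
  have e : A *ᵥ x + c + s • A *ᵥ v = A *ᵥ (x + s • v) + c := by
    rw [Matrix.mulVec_add, Matrix.mulVec_smul, add_right_comm]
  simp only [P.radial A hA v, e]

lemma av_preserves (hs : SmoothForm w) {A : Matrix ι ι ℝ} {c : ι → ℝ} (hA : Aᵀ * A = 1)
    (h : Preserves A c w) (s : ℝ) :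
    Preserves A c fun x => Matrix.of fun i j => av P.p0 (fun y => w y i j) x s := by
  intro x
  ext i j
  rw [PathB_entry]
  simp only [Matrix.of_apply]
  have hc : ∀ p q, Continuous fun y => w y p q := fun p q => (hs p q).continuous
  have hc' : ∀ p q, Continuous fun y => w (A *ᵥ y + c) p q := fun p q =>
    (hc p q).comp (by fun_prop)
  have e : (fun y => w y i j)
      = fun y => ∑ pq : ι × ι, (A pq.1 i * A pq.2 j) * w (A *ᵥ y + c) pq.1 pq.2 := by
    funext y
    rw [← PathB_entry, h y]
  rw [e, av_sum P.t0 Finset.univ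
    (f := fun (pq : ι × ι) y => (A pq.1 i * A pq.2 j) * w (A *ᵥ y + c) pq.1 pq.2)
    fun pq _ => continuous_const.mul (hc' pq.1 pq.2)]
  refine Finset.sum_congr rfl fun pq _ => ?_
  rw [av_const_mul, PathB_av_subst P c hA (hc pq.1 pq.2)]

lemma PathB_mean (Q : Prof ι) (hL : L.det ≠ 0) (hs : SmoothForm w) (hp : Per L w)
    {A : Matrix ι ι ℝ} {c : ι → ℝ} (hA : Aᵀ * A = 1) (h : Preserves A c w) :
    Aᵀ * mean L w * A = mean L w := by
  ext i j
  have hc : ∀ p q, Continuous fun y => w y p q := fun p q => (hs p q).continuous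
  have hp' : ∀ p q, Per L fun y => w y p q := fun p q x z => by
    simp only [hp x z]
  set S : ℝ := ∑ pq : ι × ι, |A pq.1 i * A pq.2 j| with hS
  have hS0 : 0 ≤ S := Finset.sum_nonneg fun _ _ => abs_nonneg _
  have key : ∀ η : ℝ, 0 < η → |(Aᵀ * mean L w * A) i j - mean L w i j| ≤ (1 + S) * η := by
    intro η hη
    choose s0 hs0 using fun pq : ι × ι => Per.equi hL (hc pq.1 pq.2) (hp' pq.1 pq.2) Q hη
    obtain ⟨s, hs'⟩ : ∃ s : ℝ, ∀ pq, s0 pq ≤ s := by
      refine ⟨∑ pq, |s0 pq|, fun pq => (le_abs_self _).trans ?_⟩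
      exact Finset.single_le_sum (f := fun pq => |s0 pq|) (fun _ _ => abs_nonneg _)
        (Finset.mem_univ pq)
    have hb : ∀ (pq : ι × ι) (x : ι → ℝ),
        |av Q.p0 (fun y => w y pq.1 pq.2) x s - mean L w pq.1 pq.2| ≤ η :=
      fun pq x => hs0 pq s (hs' pq) x
    have h1 := congrFun (congrFun (av_preserves Q hs hA h s 0) i) j
    rw [PathB_entry] at h1
    simp only [Matrix.of_apply] at h1
    rw [PathB_entry]
    have e : ∑ pq : ι × ι, A pq.1 i * A pq.2 j * mean L w pq.1 pq.2 - mean L w i j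
        = (av Q.p0 (fun y => w y i j) 0 s - mean L w i j)
          - ∑ pq : ι × ι, A pq.1 i * A pq.2 j *
            (av Q.p0 (fun y => w y pq.1 pq.2) (A *ᵥ 0 + c) s - mean L w pq.1 pq.2) := by
      rw [← h1]
      simp only [mul_sub, Finset.sum_sub_distrib]
      ring
    rw [e]
    have h2 : |∑ pq : ι × ι, A pq.1 i * A pq.2 j *
            (av Q.p0 (fun y => w y pq.1 pq.2) (A *ᵥ 0 + c) s - mean L w pq.1 pq.2)| ≤ S * η := by
      refine (Finset.abs_sum_le_sum_abs _ _).trans ?_
      rw [hS, Finset.sum_mul]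
      refine Finset.sum_le_sum fun pq _ => ?_
      rw [abs_mul (A pq.1 i * A pq.2 j)]
      exact mul_le_mul_of_nonneg_left (hb pq _) (abs_nonneg _)
    have h3 := hb (i, j) 0
    refine (abs_sub _ _).trans ?_
    simp only at h3
    linarith
  have h0 : |(Aᵀ * mean L w * A) i j - mean L w i j| ≤ 0 := by
    refine le_of_forall_pos_le_add fun ε hε => ?_
    have := key (ε / (1 + S)) (by positivity)
    rw [mul_div_cancel₀ _ (by positivity)] at this
    linarith
  exact sub_eq_zero.mp (abs_nonpos_iff.mp h0)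

lemma mean_preserves (hL : L.det ≠ 0) (hs : SmoothForm w) (hp : Per L w) {A : Matrix ι ι ℝ}
    {c : ι → ℝ} (hA : Aᵀ * A = 1) (h : Preserves A c w) : Aᵀ * mean L w * A = mean L w := by
  obtain ⟨Q⟩ := exists_prof (ι := ι)
  exact PathB_mean Q hL hs hp hA h

lemma path_preserves (hL : L.det ≠ 0) (hs : SmoothForm w) (hp : Per L w) {A : Matrix ι ι ℝ}
    {c : ι → ℝ} (hA : Aᵀ * A = 1) (h : Preserves A c w) (R t : ℝ) :
    Preserves A c (path P L w R t) := by
  intro x
  have e : ∀ y, path P L w R t y
      = (1 - Real.smoothTransition (2 * t - 1)) •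
          (Matrix.of fun i j => av P.p0 (fun y => w y i j) y (t * R))
        + Real.smoothTransition (2 * t - 1) • mean L w := by
    intro y
    ext i j
    simp [path]
  have h1 := av_preserves P hs hA h (t * R) x
  have h2 := mean_preserves hL hs hp hA h
  rw [e, e, Matrix.mul_add, Matrix.add_mul, Matrix.mul_smul, Matrix.smul_mul, Matrix.mul_smul,
    Matrix.smul_mul, h2]
  simp only at h1
  rw [h1]

end Pool.Agent.Work.MP_bf98aa_gt
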