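import Pool.Agent.Work.MP_bf98aa_gt.EL
import Pool.Agent.Work.MP_bf98aa_gt.Sel

/-!
Large scales: a bounded solution whose means converge uniformly is good on all large cubes.

PLAN. Ce, ee from energy_lemma, Cs, q0 from select; e0 ≤ ee with Ce e0^2 ≤ q0 and Cs Ce e0^2 ≤ d / 2. G k b (w y - b) ≤ Gm
for all y (‖w y - b‖ ≤ M + ‖b‖), so En k w b x (3 R) ≤ Gm (6 R)^N (volume_real_cube). Choose s in (0, 1] with
Cs Ce (s^2 ‖b‖^k + s^(k+2)) ≤ (d / 4) m0^(k+2), then ρ = max s0 1, then R0 ≥ ρ with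
Cs Ce (ρ / R0) Gm 6^N ≤ (d / 4) m0^(k+2). Apply energy_lemma, then select with q = Ce e^2 and
l = Ce (s^2 ‖b‖^k + s^(k+2)) + Ce (ρ / R) Gm 6^N; m0 ≤ ‖w y‖.
-/

set_option autoImplicit false
set_option linter.unusedSectionVars false

open MeasureTheory Metric Matrix
open scoped ContDiff RealInnerProductSpace

namespace Pool.Agent.Work.MP_bf98aa_gt

variable {ι : Type} [Fintype ι] [DecidableEq ι]

lemma Top_bound (k : ℕ) {w : (ι → ℝ) → W ι} {M : ℝ} (hM : ∀ x, ‖w x‖ ≤ M) (b : W ι)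
    (x : ι → ℝ) {R : ℝ} (hR : 0 ≤ R) :
    En k w b x (3 * R) ≤ (‖b‖ ^ k + (M + ‖b‖) ^ k) * (M + ‖b‖) ^ 2 * 6 ^ Fintype.card ι *
      R ^ Fintype.card ι := by
  have h1 : ∀ y, G k b (w y - b) ≤ (‖b‖ ^ k + (M + ‖b‖) ^ k) * (M + ‖b‖) ^ 2 := fun y => by
    have : ‖w y - b‖ ≤ M + ‖b‖ := (norm_sub_le _ _).trans (by linarith [hM y])
    have h0 : 0 ≤ M + ‖b‖ := (norm_nonneg _).trans this
    unfold G
    gcongr
  have h2 := norm_setIntegral_le_of_norm_le_const (μ := volume) (s := closedBall x (3 * R))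
    (f := fun y => G k b (w y - b)) (measure_closedBall_lt_top)
    (C := (‖b‖ ^ k + (M + ‖b‖) ^ k) * (M + ‖b‖) ^ 2) fun y _ => by
      rw [Real.norm_of_nonneg (G_nonneg _ _ _)]; exact h1 y
  rw [volume_real_cube x (by positivity), show 2 * (3 * R) = 6 * R by ring, mul_pow,
    ← mul_assoc] at h2
  exact (le_abs_self _).trans h2

lemma good_top (P : Prof ι) (k : ℕ) {d : ℝ} (hd : 0 < d) : ∃ e0 : ℝ, 0 < e0 ∧
    ∀ e : ℝ, 0 ≤ e → e ≤ e0 → ∀ w F : (ι → ℝ) → W ι, Sys k e w F →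
    ∀ m0 M : ℝ, 0 < m0 → (∀ x, m0 ≤ ‖w x‖) → (∀ x, ‖w x‖ ≤ M) → ∀ b : W ι, SkewW b →
    (∀ s : ℝ, 0 < s → ∃ s0 : ℝ, ∀ ρ, s0 ≤ ρ → ∀ x, ‖av P.p0 w x ρ - b‖ ≤ s) →
    ∃ R0 : ℝ, ∀ R, R0 ≤ R → ∀ x, Good k d w x R := by
  obtain ⟨Ce, ee, hCe, hee, hE⟩ := energy_lemma (ι := ι) k
  obtain ⟨Cs, q0, hCs, hq0, hS⟩ := select (ι := ι) k
  refine ⟨min (min ee 1) (min (q0 / Ce) (d / (2 * (Cs * Ce)))), by positivity, ?_⟩
  intro e he0 he w F hs m0 M hm0 hm hM b hb hav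
  simp only [le_min_iff] at he
  obtain ⟨⟨he1, he2⟩, he3, he4⟩ := he
  rw [le_div_iff₀ hCe] at he3
  rw [le_div_iff₀ (by positivity)] at he4
  have he5 : e ^ 2 ≤ e := by nlinarith
  obtain ⟨A, hA, hA2⟩ : ∃ A : ℝ, 0 < A ∧ Cs * (2 * Ce * A) = d / 2 * m0 ^ (k + 2) :=
    ⟨d / 4 * m0 ^ (k + 2) / (Cs * Ce), by positivity, by field_simp; ring⟩
  obtain ⟨s, hs0, hs1, hs2⟩ : ∃ s : ℝ, 0 < s ∧ s ≤ 1 ∧ s * (‖b‖ ^ k + 1) ≤ A :=
    ⟨min 1 (A / (‖b‖ ^ k + 1)), by positivity, min_le_left _ _, by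
      rw [← le_div_iff₀ (by positivity)]; exact min_le_right _ _⟩
  have hs3 : s ^ 2 * ‖b‖ ^ k + s ^ (k + 2) ≤ A := by
    have a1 : s ^ 2 ≤ s := pow_le_of_le_one hs0.le hs1 (by omega)
    have a2 : s ^ (k + 2) ≤ s := pow_le_of_le_one hs0.le hs1 (by omega)
    have a3 : s ^ 2 * ‖b‖ ^ k ≤ s * ‖b‖ ^ k := by gcongr
    linarith
  obtain ⟨s0, hs4⟩ := hav s hs0
  have hM0 : 0 ≤ M := (norm_nonneg _).trans (hM 0)
  obtain ⟨B, hB0, hB⟩ : ∃ B : ℝ, 0 ≤ B ∧ ∀ x, ∀ R : ℝ, 0 ≤ R →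
      En k w b x (3 * R) ≤ B * R ^ Fintype.card ι :=
    ⟨_, by positivity, fun x R hR => Top_bound k hM b x hR⟩
  have hρ0 : 0 < max s0 1 := lt_max_of_lt_right one_pos
  have hρ1 : s0 ≤ max s0 1 := le_max_left _ _
  generalize max s0 1 = ρ at hρ0 hρ1
  refine ⟨max ρ (ρ * B / A), fun R hR x => ?_⟩
  rw [max_le_iff, div_le_iff₀ hA] at hR
  have hR0 : 0 < R := hρ0.trans_le hR.1
  have h1 := hE P e he0 he1 w F hs b hb x R ρ s hR0 hρ0 hR.1 hs0.le fun y _ => hs4 ρ hρ1 y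
  have h2 : ρ / R * B ≤ A := by
    rw [div_mul_eq_mul_div, div_le_iff₀ hR0]; linarith [hR.2]
  have hN : 0 < R ^ Fintype.card ι := by positivity
  have h3 : Ce * (ρ / R) * En k w b x (3 * R) ≤ Ce * A * R ^ Fintype.card ι := by
    calc Ce * (ρ / R) * En k w b x (3 * R) ≤ Ce * (ρ / R) * (B * R ^ Fintype.card ι) := by
          gcongr; exact hB x R hR0.le
      _ = Ce * (ρ / R * B) * R ^ Fintype.card ι := by ring
      _ ≤ _ := by gcongr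
  have h4 : Ce * (s ^ 2 * ‖b‖ ^ k + s ^ (k + 2) + e ^ 2 * ‖b‖ ^ (k + 2)) * R ^ Fintype.card ι ≤
      Ce * (A + e ^ 2 * ‖b‖ ^ (k + 2)) * R ^ Fintype.card ι := by gcongr
  obtain ⟨y, hy⟩ := hS w hs.sw.continuous b x R (Ce * e ^ 2) (2 * Ce * A) hR0 (by positivity)
    (by nlinarith) (by positivity) (by linarith)
  refine ⟨y, hy.trans (mul_le_mul_of_nonneg_right ?_ hN.le)⟩
  have h5 : m0 ^ (k + 2) ≤ ‖w y‖ ^ (k + 2) := by gcongr; exact hm y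
  have h6 : Cs * (Ce * e ^ 2) ≤ d / 2 := by nlinarith [mul_pos hCs hCe]
  have h7 : Cs * (Ce * e ^ 2) * ‖w y‖ ^ (k + 2) ≤ d / 2 * ‖w y‖ ^ (k + 2) := by gcongr
  have h8 : d / 2 * m0 ^ (k + 2) ≤ d / 2 * ‖w y‖ ^ (k + 2) := by gcongr
  rw [mul_add, hA2]
  linarith

end Pool.Agent.Work.MP_bf98aa_gt
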