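import Pool.Agent.Work.MP_bf98aa_gt.Iter
import Pool.Agent.Work.MP_bf98aa_gt.Top
import Pool.Agent.Work.MP_bf98aa_gt.Near
import Pool.Agent.Work.MP_bf98aa_gt.ApproxB
import Pool.Agent.Work.MP_bf98aa_gt.PathB
import Pool.Agent.Work.MP_bf98aa_gt.Exotic
import Pool.Agent.Work.MP_bf98aa_gt.Change

/-!
Assembly.
-/

set_option autoImplicit false
set_option linter.unusedSectionVars false

open MeasureTheory Metric Matrix
open scoped ContDiff RealInnerProductSpace

namespace Pool.Agent.Work.MP_bf98aa_gt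

variable {ι : Type} [Fintype ι] [DecidableEq ι]

lemma toW_path (P : Prof ι) (L : Matrix ι ι ℝ) {w : (ι → ℝ) → Matrix ι ι ℝ} (hs : SmoothForm w)
    (R t : ℝ) (x : ι → ℝ) : toW (path P L w R t x)
      = av P.p0 (fun y => toW (w y)) x (t * R) + Real.smoothTransition (2 * t - 1) •
        (toW (mean L w) - av P.p0 (fun y => toW (w y)) x (t * R)) := by
  have hw : Continuous fun y => toW (w y) := SmoothW.continuous fun p => hs p.1 p.2
  ext p
  simp only [PiLp.add_apply, PiLp.smul_apply, PiLp.sub_apply, toW_apply, smul_eq_mul,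
    av_apply P.t0 hw, path, Matrix.of_apply]
  ring

theorem rigidity (k : ℕ) (hN : Fintype.card ι = 2 * (k + 2)) : ∃ e : ℝ, 0 < e ∧
    ∀ L : Matrix ι ι ℝ, L.det ≠ 0 → ∀ w : (ι → ℝ) → Matrix ι ι ℝ, Symplectic L w → Pinched e w →
    ∃ H : ℝ → (ι → ℝ) → Matrix ι ι ℝ,
      (∀ i j, ContDiff ℝ ∞ fun p : ℝ × (ι → ℝ) => H p.1 p.2 i j) ∧
      H 0 = w ∧ (H 1 = fun _ => mean L w) ∧
      ∀ t ∈ Set.Icc (0 : ℝ) 1, Symplectic L (H t) ∧ mean L (H t) = mean L w ∧
        ∀ (A : Matrix ι ι ℝ) (c : ι → ℝ), Aᵀ * A = 1 → Preserves A c w → Preserves A c (H t) := by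
  obtain ⟨P⟩ := exists_prof (ι := ι)
  obtain ⟨c, e1, hc, he1, hdet⟩ := det_ne_zero_of_near (ι := ι)
  obtain ⟨d1, hd1, hnear⟩ := av_near P k (half_pos hc)
  obtain ⟨d2, hd2, hall⟩ := good_all (ι := ι) k
  have hd : 0 < min d1 d2 := lt_min hd1 hd2
  obtain ⟨e2, he2, hall⟩ := hall _ hd (min_le_right _ _)
  obtain ⟨e3, he3, htop⟩ := good_top P k hd
  obtain ⟨C, hC, hsys⟩ := sys_of_pinched k hN
  have he0 : 0 < min e1 (min e2 e3) := lt_min he1 (lt_min he2 he3)
  refine ⟨min 1 (min e1 (min e2 e3) / C), lt_min one_pos (div_pos he0 hC), ?_⟩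
  intro L hL w hw hpin
  set e := min 1 (min e1 (min e2 e3) / C) with he
  have hepos : 0 < e := lt_min one_pos (div_pos he0 hC)
  have hCe : C * e ≤ min e1 (min e2 e3) := by
    have : e ≤ min e1 (min e2 e3) / C := min_le_right _ _
    rwa [le_div_iff₀ hC, mul_comm] at this
  have hCe0 : 0 ≤ C * e := by positivity
  obtain ⟨F, hS⟩ := hsys e hepos.le (min_le_left _ _) L w hw hpin
  obtain ⟨hs, ⟨hk, hn, hp⟩, hcl⟩ := hw
  have hp' : Per L w := hp
  have hwc : Continuous fun y => toW (w y) := hS.sw.continuous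
  have hpn : Per L fun x => ‖toW (w x)‖ := fun x z => by simp only [hp x z]
  obtain ⟨m0, hm0, hlow⟩ := hpn.lower hL hwc.norm fun x => norm_pos_iff.2 (hS.ne x)
  obtain ⟨M, hM⟩ := hpn.bdd hL hwc.norm
  have hequi : ∀ s : ℝ, 0 < s → ∃ s0 : ℝ, ∀ ρ, s0 ≤ ρ → ∀ x,
      ‖av P.p0 (fun y => toW (w y)) x ρ - toW (mean L w)‖ ≤ s := by
    intro s hs0
    have hpos : 0 < s / ((Fintype.card ι : ℝ) ^ 2 + 1) := by positivity
    have h1 : ∀ p : ι × ι, ∃ s0 : ℝ, ∀ ρ, s0 ≤ ρ → ∀ x,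
        |av P.p0 (fun y => w y p.1 p.2) x ρ - mean L w p.1 p.2|
          ≤ s / ((Fintype.card ι : ℝ) ^ 2 + 1) := fun p =>
      Per.equi hL (hs p.1 p.2).continuous (fun x z => by simp only [hp x z]) P hpos
    choose s0 hs0' using h1
    refine ⟨∑ p, |s0 p|, fun ρ hρ x => ?_⟩
    refine (norm_le_card_mul _ (M := s / ((Fintype.card ι : ℝ) ^ 2 + 1)) fun p => ?_).trans ?_
    · rw [PiLp.sub_apply, av_apply P.t0 hwc]
      exact hs0' p ρ ((le_abs_self _).trans ((Finset.single_le_sum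
        (f := fun p => |s0 p|) (fun _ _ => abs_nonneg _) (Finset.mem_univ p)).trans hρ)) x
    · rw [← mul_div_assoc, div_le_iff₀ (by positivity)]
      nlinarith
  have hskb : SkewW (toW (mean L w)) := fun i j => by
    have := congrFun (congrFun (mean_skew (L := L) hk) i) j
    simpa using this
  obtain ⟨R0, hR0⟩ := htop _ hCe0 (hCe.trans ((min_le_right _ _).trans (min_le_right _ _))) _ F hS
    m0 M hm0 hlow (fun x => (le_abs_self _).trans (hM x)) _ hskb hequi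
  have hgood := hall _ hCe0 (hCe.trans ((min_le_right _ _).trans (min_le_left _ _))) _ F hS R0 hR0
  obtain ⟨s0, hs0⟩ := hequi (c / 2 * m0) (by positivity)
  have hR : 0 < 2 * |s0| + 1 := by positivity
  refine ⟨path P L w (2 * |s0| + 1), path_smooth P _ hs, path_zero P _, path_one P _,
    fun t ht => ⟨⟨fun i j => ?_, ⟨path_skew P _ hk t, fun x => ?_, path_per P _ hp' t⟩,
      path_closed P _ hs hcl t⟩, path_mean P _ hL hs hp' t,
      fun A c' hA h => path_preserves P hL hs hp' hA h _ t⟩⟩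
  · exact (path_smooth P _ hs i j).comp (contDiff_const.prodMk contDiff_id)
  · rcases ht.1.eq_or_lt with h0 | h0
    · rw [← h0, path_zero]; exact hn x
    obtain ⟨y, hy⟩ := hnear _ (min_le_left _ _) _ hwc hS.ne x _ (mul_pos h0 hR)
      (hgood x _ (mul_pos h0 hR))
    refine hdet _ (hCe.trans (min_le_left _ _)) _ (hS.ne y) (hS.pin y) _ ?_
    rw [toW_path P L hs, add_sub_right_comm]
    refine (norm_add_le _ _).trans ?_
    have h2 : ‖Real.smoothTransition (2 * t - 1) •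
        (toW (mean L w) - av P.p0 (fun y => toW (w y)) x (t * (2 * |s0| + 1)))‖
          ≤ c / 2 * ‖toW (w y)‖ := by
      rcases le_or_gt t (1 / 2) with h1 | h1
      · rw [Real.smoothTransition.zero_of_nonpos (by linarith), zero_smul, norm_zero]
        positivity
      · rw [norm_smul, Real.norm_of_nonneg (Real.smoothTransition.nonneg _), norm_sub_rev]
        have h3 := hs0 (t * (2 * |s0| + 1)) (by nlinarith [le_abs_self s0, abs_nonneg s0]) x
        calc _ ≤ 1 * (c / 2 * m0) := mul_le_mul (Real.smoothTransition.le_one _) h3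
              (norm_nonneg _) zero_le_one
          _ ≤ _ := by rw [one_mul]; exact mul_le_mul_of_nonneg_left (hlow y) (by positivity)
    linarith

theorem obstruction (n : ℕ) (hn : 2 ≤ n) : ∃ e : ℝ, 0 < e ∧
    ∃ τ : (Fin n ⊕ Fin n → ℝ) → Matrix (Fin n ⊕ Fin n) (Fin n ⊕ Fin n) ℝ,
      SmoothForm τ ∧ NondegForm 1 τ ∧ (∀ x, τ x * τ x = -1) ∧ τ 0 = Matrix.J (Fin n) ℝ ∧
      ∀ G : Matrix (Fin n ⊕ Fin n) (Fin n ⊕ Fin n) ℝ, G.PosDef →
      ∀ w, Symplectic 1 w → PinchedTo G e w → ¬Homotopic 1 τ w := by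
  obtain ⟨k, rfl⟩ : ∃ k, n = k + 2 := ⟨n - 2, by omega⟩
  obtain ⟨e, he, h⟩ := rigidity (ι := Fin (k + 2) ⊕ Fin (k + 2)) k (by simp; ring)
  obtain ⟨τ, h1, h2, h3, h4, h5⟩ := exists_exotic (l := Fin (k + 2)) (p := 0) (q := 1)
    (by simp) (L := 1) (by simp)
  refine ⟨e, he, τ, h1, h2, h3, h4, fun G hG w hw hp hh => ?_⟩
  obtain ⟨B, hB, rfl⟩ := exists_factor hG
  have hB' : B⁻¹.det ≠ 0 := (isUnit_nonsing_inv_det B (Ne.isUnit hB)).ne_zero
  obtain ⟨H, hH, h0, h1', ht⟩ := h B hB (pull B⁻¹ w)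
    (hw.pull hB' (nonsing_inv_mul B (Ne.isUnit hB))) (hp.pull hB)
  have h6 : Homotopic B (pull B⁻¹ w) fun _ => mean B (pull B⁻¹ w) :=
    ⟨H, fun i j => (hH i j).continuous.continuousOn, h0, h1', fun t ht' => (ht t ht').1.2.1⟩
  have h7 := h6.pull hB (Matrix.mul_one B)
  rw [pull_pull hB] at h7
  exact h5 _ (hh.trans h7)

end Pool.Agent.Work.MP_bf98aa_gt
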