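import Pool.Agent.Work.MP_bf98aa_gt.Defs

/-!
Transport of the range along a continuous family of idempotents.

PLAN. Uniform continuity on the compact set Icc 0 1 ×ˢ univ (X compact; use
IsCompact.uniformContinuousOn_of_continuous if X is metric, which we assume): there is m ≥ 1 with
|P r x i j - P r' x i j| ≤ 1 / (2 N + 2) whenever |r - r'| ≤ 1 / m. If A v = v, B v = 0 and all entries of A - B are at most
1 / (2 N + 2) then ‖v‖ = ‖(A - B) v‖ ≤ ‖v‖ / 2 in the sup norm, so v = 0. Define T 0 x = P 1 x and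
T (j + 1) x = P (1 - (j + 1) / m) x * T j x; induction on j ≤ m; the result is T m.
-/

set_option autoImplicit false
set_option linter.unusedSectionVars false

open Matrix
open scoped ContDiff Real

namespace Pool.Agent.Work.MP_bf98aa_gt

variable {ι : Type} [Fintype ι] [DecidableEq ι]

lemma Transport_small (A B : Matrix ι ι ℂ)
    (h : ∀ i j, ‖A i j - B i j‖ ≤ 1 / (2 * (Fintype.card ι : ℝ) + 2)) (v : ι → ℂ)
    (hA : A *ᵥ v = v) (hB : B *ᵥ v = 0) : v = 0 := by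
  have hN : (0 : ℝ) ≤ Fintype.card ι := Nat.cast_nonneg _
  have hv : (0 : ℝ) ≤ ‖v‖ := norm_nonneg _
  have key : ‖v‖ ≤ ‖v‖ / 2 := by
    rw [pi_norm_le_iff_of_nonneg (by linarith)]
    intro i
    have e : v i = ∑ j, (A i j - B i j) * v j := by
      have h1 : v = (A - B) *ᵥ v := by rw [Matrix.sub_mulVec, hA, hB, sub_zero]
      conv_lhs => rw [h1]
      simp [Matrix.mulVec, dotProduct]
    rw [e]
    calc ‖∑ j, (A i j - B i j) * v j‖ ≤ ∑ j, ‖(A i j - B i j) * v j‖ := norm_sum_le _ _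
      _ ≤ ∑ _j : ι, 1 / (2 * (Fintype.card ι : ℝ) + 2) * ‖v‖ := by
          refine Finset.sum_le_sum fun j _ => ?_
          rw [norm_mul]
          exact mul_le_mul (h i j) (norm_le_pi_norm v j) (norm_nonneg _) (by positivity)
      _ = (Fintype.card ι : ℝ) / (2 * (Fintype.card ι : ℝ) + 2) * ‖v‖ := by
          rw [Finset.sum_const, Finset.card_univ, nsmul_eq_mul]; ring
      _ ≤ 1 / 2 * ‖v‖ := by
          refine mul_le_mul_of_nonneg_right ?_ hv
          rw [div_le_div_iff₀ (by positivity) (by norm_num)]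
          linarith
      _ = ‖v‖ / 2 := by ring
  have : ‖v‖ = 0 := by linarith
  exact norm_eq_zero.mp this

lemma Transport_unif {X : Type} [MetricSpace X] [CompactSpace X] (P : ℝ → X → Matrix ι ι ℂ)
    (hP : ContinuousOn (fun p : ℝ × X => P p.1 p.2) (Set.Icc 0 1 ×ˢ Set.univ))
    (ε : ℝ) (hε : 0 < ε) :
    ∃ m : ℕ, 0 < m ∧ ∀ r ∈ Set.Icc (0 : ℝ) 1, ∀ s ∈ Set.Icc (0 : ℝ) 1, |r - s| ≤ 1 / (m : ℝ) →
      ∀ x i j, ‖P r x i j - P s x i j‖ ≤ ε := by
  have hK : IsCompact (Set.Icc (0 : ℝ) 1 ×ˢ (Set.univ : Set X)) :=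
    isCompact_Icc.prod isCompact_univ
  let F : ℝ × X → (ι → ι → ℂ) := fun p i j => P p.1 p.2 i j
  have hF : ContinuousOn F (Set.Icc 0 1 ×ˢ Set.univ) := hP
  have hU := hK.uniformContinuousOn_of_continuous hF
  rw [Metric.uniformContinuousOn_iff] at hU
  obtain ⟨δ, hδ, hU⟩ := hU ε hε
  obtain ⟨m, hm⟩ := exists_nat_one_div_lt hδ
  refine ⟨m + 1, Nat.succ_pos m, fun r hr s hs hrs x i j => ?_⟩
  have hd : dist ((r, x) : ℝ × X) (s, x) < δ := by
    rw [Prod.dist_eq, dist_self, Real.dist_eq]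
    push_cast at hrs
    exact max_lt (lt_of_le_of_lt hrs hm) hδ
  have h1 := hU (r, x) ⟨hr, trivial⟩ (s, x) ⟨hs, trivial⟩ hd
  have h2 : dist (F (r, x) i j) (F (s, x) i j) ≤ dist (F (r, x)) (F (s, x)) :=
    (dist_le_pi_dist _ _ j).trans (dist_le_pi_dist _ _ i)
  rw [dist_eq_norm] at h2
  exact h2.trans h1.le

lemma exists_transport {X : Type} [MetricSpace X] [CompactSpace X] (P : ℝ → X → Matrix ι ι ℂ)
    (hP : ContinuousOn (fun p : ℝ × X => P p.1 p.2) (Set.Icc 0 1 ×ˢ Set.univ))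
    (hid : ∀ r ∈ Set.Icc (0 : ℝ) 1, ∀ x, P r x * P r x = P r x) :
    ∃ T : X → Matrix ι ι ℂ, Continuous T ∧ (∀ x, P 0 x * T x = T x) ∧
      (∀ x (v : ι → ℂ), P 1 x *ᵥ v = v → T x *ᵥ v = 0 → v = 0) ∧
      ∀ x y, (∀ r ∈ Set.Icc (0 : ℝ) 1, P r x = P r y) → T x = T y := by
  obtain ⟨m, hm, hU⟩ := Transport_unif P hP (1 / (2 * (Fintype.card ι : ℝ) + 2)) (by positivity)
  have hmR : (0 : ℝ) < m := by exact_mod_cast hm
  have hcont : ∀ r ∈ Set.Icc (0 : ℝ) 1, Continuous (P r) := by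
    intro r hr
    have h1 : Continuous (fun x : X => ((r, x) : ℝ × X)) := by fun_prop
    exact hP.comp_continuous h1 fun x => ⟨hr, trivial⟩
  have hmem : ∀ j : ℕ, j ≤ m → 1 - (j : ℝ) / m ∈ Set.Icc (0 : ℝ) 1 := by
    intro j hj
    have hjR : (j : ℝ) ≤ m := by exact_mod_cast hj
    have h1 : (j : ℝ) / m ≤ 1 := by rw [div_le_one hmR]; exact hjR
    have h2 : (0 : ℝ) ≤ (j : ℝ) / m := by positivity
    constructor <;> linarith
  have main : ∀ j : ℕ, j ≤ m → ∃ T : X → Matrix ι ι ℂ, Continuous T ∧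
      (∀ x, P (1 - (j : ℝ) / m) x * T x = T x) ∧
      (∀ x (v : ι → ℂ), P 1 x *ᵥ v = v → T x *ᵥ v = 0 → v = 0) ∧
      ∀ x y, (∀ r ∈ Set.Icc (0 : ℝ) 1, P r x = P r y) → T x = T y := by
    intro j
    induction j with
    | zero =>
      intro _
      have h1 : (1 : ℝ) ∈ Set.Icc (0 : ℝ) 1 := ⟨zero_le_one, le_rfl⟩
      refine ⟨P 1, hcont 1 h1, fun x => ?_, fun x v h2 h3 => ?_, fun x y h => h 1 h1⟩
      · simp only [Nat.cast_zero, zero_div, sub_zero]
        exact hid 1 h1 x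
      · rw [← h2, h3]
    | succ j ih =>
      intro hj
      obtain ⟨T, hT, h1, h2, h3⟩ := ih (Nat.le_of_succ_le hj)
      have hr := hmem (j + 1) hj
      have hs := hmem j (Nat.le_of_succ_le hj)
      refine ⟨fun x => P (1 - ((j + 1 : ℕ) : ℝ) / m) x * T x, (hcont _ hr).matrix_mul hT,
        fun x => ?_, fun x v hv h0 => ?_, fun x y h => ?_⟩
      · rw [← Matrix.mul_assoc, hid _ hr x]
      · refine h2 x v hv ?_
        refine Transport_small (P (1 - (j : ℝ) / m) x) (P (1 - ((j + 1 : ℕ) : ℝ) / m) x)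
          (hU _ hs _ hr ?_ x) _ ?_ ?_
        · have e : 1 - (j : ℝ) / m - (1 - ((j + 1 : ℕ) : ℝ) / m) = 1 / m := by
            push_cast; ring
          rw [e, abs_of_pos (by positivity)]
        · rw [Matrix.mulVec_mulVec, h1]
        · rw [Matrix.mulVec_mulVec]; exact h0
      · show P _ x * T x = P _ y * T y
        rw [h _ hr, h3 x y h]
  obtain ⟨T, hT, h1, h2, h3⟩ := main m le_rfl
  refine ⟨T, hT, fun x => ?_, h2, h3⟩
  have e : 1 - (m : ℝ) / m = 0 := by rw [div_self hmR.ne', sub_self]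
  have := h1 x
  rwa [e] at this

end Pool.Agent.Work.MP_bf98aa_gt
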