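import Pool.Agent.Work.MP_bf98aa_gt.Defs

/-!
No nonvanishing section of a line bundle of degree two over the 2-torus.

PLAN. Lift g through the exponential: Complex.isCoveringMap_exp (Mathlib/Analysis/Complex/CoveringMap.lean, target
{z // z ≠ 0}) and IsCoveringMap.existsUnique_continuousMap_lifts on the contractible, locally path connected space
I × I (or extend g to ℝ × ℝ with Set.projIcc), or Circle.isCoveringMap_exp for g / ‖g‖. So g = exp ∘ l with l continuous.
A continuous function on I with exp = 1 everywhere is constant (values in the discrete set 2 π i ℤ,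
Complex.exp_eq_one_iff; IsPreconnected.constant or the uniqueness of lifts IsCoveringMap.eq_of_comp_eq).
Apply this to s ↦ l (s,1) - l (s,0) and to t ↦ l (1,t) - l (0,t) + 4 π i t; comparing corners gives 4 π i = 0.
-/

set_option autoImplicit false
set_option linter.unusedSectionVars false

open Matrix
open scoped ContDiff Real

namespace Pool.Agent.Work.MP_bf98aa_gt



lemma Wind_const {d : unitInterval → ℂ} (hd : Continuous d) (h : ∀ s, Complex.exp (d s) = 1) :
    d 1 = d 0 :=
  Complex.isCoveringMap_exp.const_of_comp hd (fun a a' => Subtype.ext ((h a).trans (h a').symm)) 1 0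

lemma Wind_lift (g : unitInterval × unitInterval → ℂ) (hg : Continuous g) (h0 : ∀ z, g z ≠ 0) :
    ∃ l : unitInterval × unitInterval → ℂ, Continuous l ∧ ∀ z, Complex.exp (l z) = g z := by
  have hp : Continuous (Set.projIcc (0 : ℝ) 1 zero_le_one) := continuous_projIcc
  obtain ⟨L, ⟨-, hL⟩, -⟩ := Complex.isCoveringMap_exp.existsUnique_continuousMap_lifts
    (A := ℝ × ℝ) ⟨fun z => ⟨g (Set.projIcc 0 1 zero_le_one z.1, Set.projIcc 0 1 zero_le_one z.2),
      h0 _⟩, by fun_prop⟩ 0 (Complex.log _) (Subtype.ext (Complex.exp_log (h0 _)))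
  refine ⟨fun z => L (z.1, z.2), by fun_prop, fun z => ?_⟩
  have := congrArg Subtype.val (congrFun hL (z.1, z.2))
  simpa using this

lemma no_section (g : unitInterval × unitInterval → ℂ) (hg : Continuous g) (h0 : ∀ z, g z ≠ 0)
    (h1 : ∀ s, g (s, 1) = g (s, 0))
    (h2 : ∀ t : unitInterval,
      g (1, t) = Complex.exp (-(4 * π * Complex.I * (t : ℝ))) * g (0, t)) : False := by
  obtain ⟨l, hl, e⟩ := Wind_lift g hg h0
  have a1 := Wind_const (d := fun s => l (s, 1) - l (s, 0)) (by fun_prop) fun s => by
    rw [Complex.exp_sub, e, e, h1, div_self (h0 _)]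
  have a2 := Wind_const (d := fun t => l (1, t) - l (0, t) + 4 * π * Complex.I * (t : ℝ))
    (by fun_prop) fun t => by
      rw [Complex.exp_add, Complex.exp_sub, e, e, h2, mul_div_assoc, div_self (h0 _), mul_one,
        ← Complex.exp_add, neg_add_cancel, Complex.exp_zero]
  have a3 : (4 * π * Complex.I : ℂ) = 0 := by
    simp only [Set.Icc.coe_one, Set.Icc.coe_zero, Complex.ofReal_one, Complex.ofReal_zero] at a2
    linear_combination a2 - a1
  simp [Real.pi_ne_zero] at a3

end Pool.Agent.Work.MP_bf98aa_gt
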