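import Pool.Agent.Work.MP_bf98aa_gt.Proj
import Pool.Agent.Work.MP_bf98aa_gt.Transport
import Pool.Agent.Work.MP_bf98aa_gt.Wind
import Pool.Agent.Work.MP_bf98aa_gt.Frame

/-!
The example is not homotopic to a constant family.

PLAN. P from exists_proj, X = unitInterval × unitInterval, Q r z = P (H r z.1 z.2) (continuous on Icc 0 1 ×ˢ univ by
ContinuousOn.comp, continuousOn_pi). T from exists_transport Q; T' from exists_transport applied to r ↦ Q (1 - r).
V0 = fromRows 1 (I • 1) = frame p q 0 0 has V0ᴴ * V0 = 2, so 2 Q 0 (0,0) V0 = V0 V0ᴴ V0 = 2 V0 (frame_mul, third property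
of P with tauM_sq, x_unit, tauM_skew) and V0 is injective. V1 = T' (0,0) * V0 is injective with P c * V1 = V1.
𝒱 z = T z * V1 is continuous, injective, Q 0 z * 𝒱 z = 𝒱 z, and takes equal values at (s,1), (s,0) and at (1,t), (0,t).
g z = det ((frame z)ᴴ * 𝒱 z) ≠ 0: if (frameᴴ 𝒱) v = 0 then 2 𝒱 v = frame frameᴴ 𝒱 v = 0 (exists_mulVec_eq_zero_iff).
frame_per gives h1; frame_one, det_U, det_conjTranspose, Complex.exp_conj give h2 of no_section.
-/

set_option autoImplicit false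
set_option linter.unusedSectionVars false

open Matrix
open scoped ContDiff Real

namespace Pool.Agent.Work.MP_bf98aa_gt



variable {l : Type} [Fintype l] [DecidableEq l]

lemma NotHom_gram : (fromRows (1 : Matrix l l ℂ) (Complex.I • (1 : Matrix l l ℂ)))ᴴ *
    fromRows (1 : Matrix l l ℂ) (Complex.I • (1 : Matrix l l ℂ)) = (2 : ℂ) • 1 := by
  rw [conjTranspose_fromRows_eq_fromCols_conjTranspose, fromCols_mul_fromRows, conjTranspose_smul,
    conjTranspose_one, Matrix.smul_mul, Matrix.mul_smul, Matrix.one_mul, smul_smul, two_smul,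
    Complex.star_def, Complex.conj_I, neg_mul, Complex.I_mul_I, neg_neg, one_smul]

lemma NotHom_phase (t : ℝ) : star (Complex.exp (2 * π * Complex.I * t) ^ 2) =
    Complex.exp (-(4 * π * Complex.I * t)) := by
  rw [← Complex.exp_nat_mul, Complex.star_def, ← Complex.exp_conj]
  congr 1
  simp only [map_mul, Complex.conj_ofReal, Complex.conj_I, map_natCast, map_ofNat]
  push_cast
  ring

lemma tau0_not_homotopic {p q : l} (h : p ≠ q) (H : ℝ → ℝ → ℝ → Matrix (l ⊕ l) (l ⊕ l) ℝ)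
    (hc : ∀ i j, ContinuousOn (fun z : ℝ × ℝ × ℝ => H z.1 z.2.1 z.2.2 i j)
      (Set.Icc 0 1 ×ˢ Set.univ))
    (hk : ∀ r ∈ Set.Icc (0 : ℝ) 1, ∀ s t, (H r s t)ᵀ = -H r s t ∧ (H r s t).det ≠ 0)
    (hs : ∀ r ∈ Set.Icc (0 : ℝ) 1, ∀ t, H r 1 t = H r 0 t)
    (ht : ∀ r ∈ Set.Icc (0 : ℝ) 1, ∀ s, H r s 1 = H r s 0)
    (h0 : ∀ s t, H 0 s t = tau0 p q s t) (c : Matrix (l ⊕ l) (l ⊕ l) ℝ)
    (h1 : ∀ s t, H 1 s t = c) : False := by
  obtain ⟨P, hPc, hPi, hP2⟩ := exists_proj (ι := l ⊕ l)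
  obtain ⟨Q, hQ⟩ : ∃ Q : ℝ → unitInterval × unitInterval → Matrix (l ⊕ l) (l ⊕ l) ℂ,
      ∀ r z, Q r z = P (H r z.1 z.2) := ⟨_, fun _ _ => rfl⟩
  have hHc : ContinuousOn (fun w : ℝ × (unitInterval × unitInterval) => H w.1 w.2.1 w.2.2)
      (Set.Icc 0 1 ×ˢ Set.univ) := by
    refine continuousOn_pi.2 fun i => continuousOn_pi.2 fun j => ?_
    exact (hc i j).comp
      (f := fun w : ℝ × (unitInterval × unitInterval) => (w.1, (w.2.1 : ℝ), (w.2.2 : ℝ)))
      (by fun_prop) fun w hw => ⟨hw.1, trivial⟩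
  have hQc : ContinuousOn (fun w : ℝ × (unitInterval × unitInterval) => Q w.1 w.2)
      (Set.Icc 0 1 ×ˢ Set.univ) := by
    simp only [hQ]
    exact hPc.comp hHc fun w hw => hk _ hw.1 _ _
  have hQi : ∀ r ∈ Set.Icc (0 : ℝ) 1, ∀ z, Q r z * Q r z = Q r z := fun r hr z => by
    rw [hQ]
    exact hPi _ (hk r hr _ _).1 (hk r hr _ _).2
  have hsym : ∀ r ∈ Set.Icc (0 : ℝ) 1, 1 - r ∈ Set.Icc (0 : ℝ) 1 := fun r hr =>
    ⟨by linarith [hr.2], by linarith [hr.1]⟩
  obtain ⟨T, Tc, T0, T1, Te⟩ := exists_transport Q hQc hQi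
  obtain ⟨T', -, T0', T1', -⟩ := exists_transport (fun r => Q (1 - r))
    (hQc.comp (f := fun w : ℝ × (unitInterval × unitInterval) => (1 - w.1, w.2)) (by fun_prop)
      fun w hw => ⟨hsym _ hw.1, trivial⟩) fun r hr z => hQi _ (hsym r hr) z
  simp only [sub_zero, sub_self] at T0' T1'
  have hF : ∀ z : unitInterval × unitInterval,
      frame p q z.1 z.2 * (frame p q z.1 z.2)ᴴ = (2 : ℂ) • Q 0 z := fun z => by
    rw [frame_mul h z.1.2, hQ, h0, hP2 (tau0 p q z.1 z.2) (tauM_skew _ _ _)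
      (tauM_sq h (x_unit _ _))]
  obtain ⟨V0, hV0⟩ : ∃ V0 : Matrix (l ⊕ l) l ℂ,
      V0 = fromRows (1 : Matrix l l ℂ) (Complex.I • (1 : Matrix l l ℂ)) := ⟨_, rfl⟩
  have g0 : V0ᴴ * V0 = (2 : ℂ) • 1 := by rw [hV0]; exact NotHom_gram
  have q0 : Q 0 (0, 0) * V0 = V0 := by
    have e := hF (0, 0)
    rw [show (((0, 0) : unitInterval × unitInterval).1 : ℝ) = 0 from rfl, frame_zero, ← hV0] at e
    refine smul_right_injective _ (two_ne_zero (α := ℂ)) ?_
    show (2 : ℂ) • (Q 0 (0, 0) * V0) = (2 : ℂ) • V0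
    rw [← Matrix.smul_mul, ← e, Matrix.mul_assoc, g0, Matrix.mul_smul, Matrix.mul_one]
  have i0 : ∀ v, V0 *ᵥ v = 0 → v = 0 := fun v hv => by
    have e : (V0ᴴ * V0) *ᵥ v = 0 := by rw [← mulVec_mulVec, hv, mulVec_zero]
    rw [g0, smul_mulVec, one_mulVec] at e
    exact (smul_eq_zero.1 e).resolve_left two_ne_zero
  have q1 : ∀ z, Q 1 z = Q 1 (0, 0) := fun z => by rw [hQ, hQ, h1, h1]
  have iV : ∀ z v, (T z * (T' (0, 0) * V0)) *ᵥ v = 0 → v = 0 := fun z v hv => by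
    rw [← mulVec_mulVec] at hv
    have e1 := T1 z _ (by rw [mulVec_mulVec, ← Matrix.mul_assoc, q1, T0']) hv
    rw [← mulVec_mulVec] at e1
    exact i0 v (T1' _ _ (by rw [mulVec_mulVec, q0]) e1)
  refine no_section (fun z => ((frame p q z.1 z.2)ᴴ * (T z * (T' (0, 0) * V0))).det) ?_ ?_ ?_ ?_
  · refine Continuous.matrix_det (Continuous.matrix_mul (Continuous.matrix_conjTranspose ?_)
      (Tc.matrix_mul continuous_const))
    exact (continuous_frame p q).comp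
      (f := fun z : unitInterval × unitInterval => ((z.1 : ℝ), (z.2 : ℝ))) (by fun_prop)
  · intro z hz
    obtain ⟨v, hv0, hv⟩ := exists_mulVec_eq_zero_iff.2 hz
    have e : (frame p q z.1 z.2 * ((frame p q z.1 z.2)ᴴ * (T z * (T' (0, 0) * V0)))) *ᵥ v = 0 := by
      rw [← mulVec_mulVec, hv, mulVec_zero]
    rw [← Matrix.mul_assoc, hF, Matrix.smul_mul, ← Matrix.mul_assoc, T0, smul_mulVec] at e
    exact hv0 (iV z v ((smul_eq_zero.1 e).resolve_left two_ne_zero))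
  · intro s
    have e : T (s, 1) = T (s, 0) := Te _ _ fun r hr => by rw [hQ, hQ]; exact congrArg P (ht r hr s)
    show ((frame p q s 1)ᴴ * (T (s, 1) * (T' (0, 0) * V0))).det =
      ((frame p q s 0)ᴴ * (T (s, 0) * (T' (0, 0) * V0))).det
    rw [frame_per, e]
  · intro t
    have e : T (1, t) = T (0, t) := Te _ _ fun r hr => by rw [hQ, hQ]; exact congrArg P (hs r hr t)
    show ((frame p q 1 t)ᴴ * (T (1, t) * (T' (0, 0) * V0))).det =
      _ * ((frame p q 0 t)ᴴ * (T (0, t) * (T' (0, 0) * V0))).det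
    rw [frame_one, e, conjTranspose_mul, Matrix.mul_assoc, det_mul, det_conjTranspose, det_U h,
      NotHom_phase]

end Pool.Agent.Work.MP_bf98aa_gt
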