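import Pool.Agent.Work.MP_bf98aa_gt.AvBasic

/-!
Periodic functions: bounds, invariance of the mean, equidistribution.

PLAN. Per.reduce: y = L⁻¹ *ᵥ x, z i = ⌊y i⌋, u i = Int.fract (y i). Bounds: continuous function on the compact set
Icc 0 1 (IsCompact.exists_isMinOn, exists_bound_of_continuousOn). mean_shift: g u = f (L *ᵥ u) is invariant under
ℤ^ι; x = L *ᵥ x'; use ZSpan.isAddFundamentalDomain (Pi.basisFun ℝ ι) and IsAddFundamentalDomain.setIntegral_eq
for the domain and its translate (IsAddFundamentalDomain.vadd_of_comm or image_of_equiv), with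
Measure.univ_pi_Ico_ae_eq_Icc; any other proof is fine (for example one coordinate at a time with
Function.Periodic.intervalIntegral_add_eq). mean_av: Fubini and mean_shift.
equi: with m the mean and vol (Icc 0 1) = 1: m = ∫ v, p0 v * ∫ u, f (x + s • v + L u) = ∫ u, ∫ v, p0 (v - s⁻¹ • L u) f (x + s • v)
(Fubini, integral_sub_right_eq_self), and |p0 v - p0 (v - c)| ≤ K ‖c‖ for all v (ContDiff.lipschitzWith_of_hasCompactSupport)
and vanishes outside the cube of radius 2 when ‖c‖ ≤ 1; so the difference is at most K (T / s) M 4^N.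
-/

set_option autoImplicit false
set_option linter.unusedSectionVars false

open MeasureTheory Metric Matrix
open scoped ContDiff RealInnerProductSpace

namespace Pool.Agent.Work.MP_bf98aa_gt

variable {ι : Type} [Fintype ι] [DecidableEq ι]

/-- Periodic for the lattice `L ℤ^ι`. -/
def Per {β : Type} (L : Matrix ι ι ℝ) (f : (ι → ℝ) → β) : Prop :=
  ∀ (x : ι → ℝ) (z : ι → ℤ), f (x + L *ᵥ fun i => (z i : ℝ)) = f x

lemma Per_surj {L : Matrix ι ι ℝ} (hL : L.det ≠ 0) (x : ι → ℝ) : L *ᵥ (L⁻¹ *ᵥ x) = x := by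
  rw [mulVec_mulVec, mul_nonsing_inv _ (isUnit_iff_ne_zero.2 hL), one_mulVec]

lemma Per_cont (L : Matrix ι ι ℝ) : Continuous fun u : ι → ℝ => L *ᵥ u :=
  continuous_const.matrix_mulVec continuous_id

lemma Per_vol : volume.real (Set.Icc (0 : ι → ℝ) 1) = 1 := by
  simp [Measure.real, Real.volume_Icc_pi]

lemma Per.reduce {β : Type} {L : Matrix ι ι ℝ} (hL : L.det ≠ 0) {f : (ι → ℝ) → β} (hp : Per L f)
    (x : ι → ℝ) : ∃ u ∈ Set.Icc (0 : ι → ℝ) 1, f x = f (L *ᵥ u) := by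
  refine ⟨fun i => Int.fract ((L⁻¹ *ᵥ x) i),
    ⟨fun i => Int.fract_nonneg _, fun i => (Int.fract_lt_one _).le⟩, ?_⟩
  rw [← hp (L *ᵥ _) fun i => ⌊(L⁻¹ *ᵥ x) i⌋, ← mulVec_add]
  congr 1
  conv_lhs => rw [← Per_surj hL x]
  congr 1
  funext i
  simp

lemma Per.bdd {L : Matrix ι ι ℝ} (hL : L.det ≠ 0) {f : (ι → ℝ) → ℝ} (hf : Continuous f)
    (hp : Per L f) : ∃ M : ℝ, ∀ x, |f x| ≤ M := by
  obtain ⟨M, hM⟩ := (isCompact_Icc (a := (0 : ι → ℝ)) (b := 1)).exists_bound_of_continuousOn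
    (hf.comp (Per_cont L)).continuousOn
  refine ⟨M, fun x => ?_⟩
  obtain ⟨u, hu, h⟩ := hp.reduce hL x
  rw [h]
  exact hM u hu

lemma Per.lower {L : Matrix ι ι ℝ} (hL : L.det ≠ 0) {f : (ι → ℝ) → ℝ} (hf : Continuous f)
    (hp : Per L f) (h0 : ∀ x, 0 < f x) : ∃ m : ℝ, 0 < m ∧ ∀ x, m ≤ f x := by
  obtain ⟨v, -, hv⟩ := (isCompact_Icc (a := (0 : ι → ℝ)) (b := 1)).exists_isMinOn
    (Set.nonempty_Icc.2 zero_le_one) (hf.comp (Per_cont L)).continuousOn
  refine ⟨_, h0 (L *ᵥ v), fun x => ?_⟩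
  obtain ⟨u, hu, h⟩ := hp.reduce hL x
  rw [h]
  exact hv hu

lemma Per.mean_shift {L : Matrix ι ι ℝ} (hL : L.det ≠ 0) {f : (ι → ℝ) → ℝ} (hf : Continuous f)
    (hp : Per L f) (x : ι → ℝ) :
    ∫ u in Set.Icc (0 : ι → ℝ) 1, f (x + L *ᵥ u) = ∫ u in Set.Icc (0 : ι → ℝ) 1, f (L *ᵥ u) := by
  have h1 := ZSpan.isAddFundamentalDomain' (Pi.basisFun ℝ ι) (volume : Measure (ι → ℝ))
  have h2 := h1.vadd_of_comm (L⁻¹ *ᵥ x)
  have : Countable (Submodule.span ℤ (Set.range (Pi.basisFun ℝ ι))).toAddSubgroup :=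
    inferInstanceAs (Countable (Submodule.span ℤ (Set.range (Pi.basisFun ℝ ι))))
  have h3 := h2.setIntegral_eq h1 (f := fun u => f (L *ᵥ u)) (by
    rintro ⟨g, hg⟩ u
    have hz := ((Pi.basisFun ℝ ι).mem_span_iff_repr_mem ℤ g).1 hg
    choose z hz using hz
    have : g = fun i => (z i : ℝ) := funext fun i => by simpa using (hz i).symm
    change f (L *ᵥ (g + u)) = f (L *ᵥ u)
    rw [add_comm, mulVec_add, this, hp])
  have h4 := (measurePreserving_add_left (volume : Measure (ι → ℝ)) (L⁻¹ *ᵥ x)).setIntegral_image_emb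
    (measurableEmbedding_addLeft _) (fun u => f (L *ᵥ u))
    (ZSpan.fundamentalDomain (Pi.basisFun ℝ ι))
  have h5 : ZSpan.fundamentalDomain (Pi.basisFun ℝ ι) =ᵐ[volume] Set.Icc (0 : ι → ℝ) 1 := by
    rw [ZSpan.fundamentalDomain_pi_basisFun]
    exact Measure.univ_pi_Ico_ae_eq_Icc
  rw [← setIntegral_congr_set h5, ← setIntegral_congr_set h5, ← h3]
  simp only [mulVec_add, Per_surj hL] at h4
  exact h4.symm

lemma Per_fub {L : Matrix ι ι ℝ} (hL : L.det ≠ 0) {f : (ι → ℝ) → ℝ} (hf : Continuous f)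
    (hp : Per L f) (P : Prof ι) (s : ℝ) (x : ι → ℝ) :
    ∫ u in Set.Icc (0 : ι → ℝ) 1, av P.p0 f (x + L *ᵥ u) s
      = ∫ u in Set.Icc (0 : ι → ℝ) 1, f (L *ᵥ u) := by
  obtain ⟨M, hM⟩ := hp.bdd hL hf
  have : IsFiniteMeasure (volume.restrict (Set.Icc (0 : ι → ℝ) 1)) :=
    isFiniteMeasure_restrict.2 measure_Icc_lt_top.ne
  have i0 : Integrable P.p0 := P.t0.1.continuous.integrable_of_hasCompactSupport P.t0.compact
  have c1 : Continuous fun z : (ι → ℝ) × (ι → ℝ) => f (x + L *ᵥ z.1 + s • z.2) :=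
    hf.comp ((continuous_const.add ((Per_cont L).comp continuous_fst)).add
      (continuous_snd.const_smul s))
  have i1 := (i0.comp_snd (volume.restrict (Set.Icc (0 : ι → ℝ) 1))).mul_bdd
    c1.aestronglyMeasurable (Filter.Eventually.of_forall fun z => hM _)
  unfold av
  simp only [smul_eq_mul]
  rw [integral_integral_swap i1]
  have h2 : ∀ v, ∫ u in Set.Icc (0 : ι → ℝ) 1, P.p0 v * f (x + L *ᵥ u + s • v)
      = P.p0 v * ∫ u in Set.Icc (0 : ι → ℝ) 1, f (L *ᵥ u) := by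
    intro v
    rw [integral_const_mul, ← hp.mean_shift hL hf (x + s • v)]
    simp only [add_right_comm]
  simp only [h2]
  rw [integral_mul_const, P.one, one_mul]

lemma Per_move {φ f : (ι → ℝ) → ℝ} (hφ : Test φ) (hf : Continuous f) {M : ℝ} (hM : ∀ x, |f x| ≤ M)
    {K : NNReal} (hK : LipschitzWith K φ) (x a : ι → ℝ) (ha : ‖a‖ ≤ 1) (s : ℝ) :
    |av φ f x s - av φ f (x + s • a) s| ≤ K * ‖a‖ * M * 4 ^ Fintype.card ι := by
  have h1 : av φ f (x + s • a) s = ∫ v, φ (v - a) * f (x + s • v) := by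
    rw [← integral_add_right_eq_self _ a]
    simp only [av, add_sub_cancel_right, smul_add, smul_eq_mul]
    congr 1
    funext v
    congr 2
    abel
  have i1 := integrable_av hφ hf x s
  have i2 : Integrable fun v => φ (v - a) * f (x + s • v) := by
    refine ((integrable_av hφ hf (x + s • a) s).comp_sub_right a).congr
      (Filter.Eventually.of_forall fun v => ?_)
    simp only [smul_sub, smul_eq_mul]
    congr 2
    abel
  simp only [smul_eq_mul] at i1
  rw [h1, av]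
  simp only [smul_eq_mul]
  rw [← integral_sub i1 i2,
    ← setIntegral_eq_integral_of_forall_compl_eq_zero (s := closedBall 0 2)]
  · have := norm_setIntegral_le_of_norm_le_const (μ := volume) (s := closedBall (0 : ι → ℝ) 2)
      (f := fun v => φ v * f (x + s • v) - φ (v - a) * f (x + s • v)) (C := K * ‖a‖ * M)
      measure_closedBall_lt_top fun v _ => by
        rw [← sub_mul, norm_mul]
        refine mul_le_mul ?_ (hM _) (norm_nonneg _) (by positivity)
        simpa [dist_eq_norm] using hK.dist_le_mul v (v - a)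
    rw [volume_real_cube _ (by norm_num)] at this
    norm_num at this ⊢
    exact this
  · intro v hv
    rw [mem_closedBall_zero_iff, not_le] at hv
    have h2 := norm_sub_norm_le v a
    rw [hφ.2 v (by linarith), hφ.2 (v - a) (by linarith)]
    simp

lemma Per.mean_av {L : Matrix ι ι ℝ} (hL : L.det ≠ 0) {f : (ι → ℝ) → ℝ} (hf : Continuous f)
    (hp : Per L f) (P : Prof ι) (s : ℝ) :
    ∫ u in Set.Icc (0 : ι → ℝ) 1, av P.p0 f (L *ᵥ u) s
      = ∫ u in Set.Icc (0 : ι → ℝ) 1, f (L *ᵥ u) := by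
  simpa using Per_fub hL hf hp P s 0

lemma Per.equi {L : Matrix ι ι ℝ} (hL : L.det ≠ 0) {f : (ι → ℝ) → ℝ} (hf : Continuous f)
    (hp : Per L f) (P : Prof ι) {η : ℝ} (hη : 0 < η) : ∃ s0 : ℝ, ∀ s, s0 ≤ s → ∀ x,
    |av P.p0 f x s - ∫ u in Set.Icc (0 : ι → ℝ) 1, f (L *ᵥ u)| ≤ η := by
  obtain ⟨M, hM⟩ := hp.bdd hL hf
  have M0 : 0 ≤ M := (abs_nonneg _).trans (hM 0)
  obtain ⟨K, hK⟩ := P.t0.1.lipschitzWith_of_hasCompactSupport P.t0.compact (by simp)
  obtain ⟨T, hT⟩ := (isCompact_Icc (a := (0 : ι → ℝ)) (b := 1)).exists_bound_of_continuousOn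
    (Per_cont L).continuousOn
  have T0 : 0 ≤ T := (norm_nonneg _).trans (hT 0 (Set.left_mem_Icc.2 zero_le_one))
  refine ⟨T + 1 + K * T * M * 4 ^ Fintype.card ι / η, fun s hs x => ?_⟩
  have h1 : 0 ≤ K * T * M * 4 ^ Fintype.card ι / η := by positivity
  have s0 : 0 < s := by linarith
  have h2 : ∀ u ∈ Set.Icc (0 : ι → ℝ) 1, ‖av P.p0 f x s - av P.p0 f (x + L *ᵥ u) s‖ ≤ η := by
    intro u hu
    have h3 : ‖s⁻¹ • (L *ᵥ u)‖ ≤ T / s := by
      rw [norm_smul, norm_inv, Real.norm_of_nonneg s0.le, div_eq_inv_mul]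
      exact mul_le_mul_of_nonneg_left (hT u hu) (by positivity)
    have h4 := Per_move P.t0 hf hM hK x (s⁻¹ • (L *ᵥ u))
      (h3.trans ((div_le_one s0).2 (by linarith))) s
    rw [smul_inv_smul₀ s0.ne'] at h4
    refine h4.trans ?_
    have h5 : K * T * M * 4 ^ Fintype.card ι ≤ s * η := (div_le_iff₀ hη).1 (by linarith)
    calc _ ≤ K * (T / s) * M * 4 ^ Fintype.card ι := by gcongr
      _ = K * T * M * 4 ^ Fintype.card ι / s := by ring
      _ ≤ η := by rw [div_le_iff₀ s0]; linarith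
  have h6 := norm_setIntegral_le_of_norm_le_const (μ := volume) measure_Icc_lt_top h2
  have : IsFiniteMeasure (volume.restrict (Set.Icc (0 : ι → ℝ) 1)) :=
    isFiniteMeasure_restrict.2 measure_Icc_lt_top.ne
  have i0 : Integrable P.p0 := P.t0.1.continuous.integrable_of_hasCompactSupport P.t0.compact
  have c1 : Continuous fun z : (ι → ℝ) × (ι → ℝ) => f (x + L *ᵥ z.1 + s • z.2) :=
    hf.comp ((continuous_const.add ((Per_cont L).comp continuous_fst)).add
      (continuous_snd.const_smul s))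
  have i1 : Integrable (fun u => av P.p0 f (x + L *ᵥ u) s)
      (volume.restrict (Set.Icc (0 : ι → ℝ) 1)) :=
    ((i0.comp_snd (volume.restrict (Set.Icc (0 : ι → ℝ) 1))).mul_bdd
      c1.aestronglyMeasurable (Filter.Eventually.of_forall fun z => hM _)).integral_prod_left
  rw [integral_sub (integrable_const _) i1, Per_vol, mul_one, setIntegral_const, Per_vol,
    one_smul] at h6
  rw [← Per_fub hL hf hp P s x]
  exact h6

end Pool.Agent.Work.MP_bf98aa_gt
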