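import Pool.Agent.Work.MP_bf98aa_gt.Av2
import Pool.Agent.Work.MP_bf98aa_gt.Per

/-!
The path of forms: weighted means at growing scale, then interpolation to the mean value.

PLAN. λ t = Real.smoothTransition (2 t - 1) is smooth, λ 0 = 0, λ 1 = 1. path_smooth: contDiff_av composed with
p ↦ (p.1 * R, p.2). path_zero: av_zero, P.one. path_skew: w y j i = - w y i j, av_neg, integral_neg. path_closed:
pd_add, pd_const_mul, pd_const, pd_av, av_add, then av of the zero function. path_per: unfold av, add_right_comm.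
path_mean: integral_add, Per.mean_av, setIntegral_const with volume (Icc 0 1) = 1 (Real.volume_Icc_pi).
-/

set_option autoImplicit false
set_option linter.unusedSectionVars false

open MeasureTheory Metric Matrix
open scoped ContDiff RealInnerProductSpace

namespace Pool.Agent.Work.MP_bf98aa_gt

variable {ι : Type} [Fintype ι] [DecidableEq ι]

/-- The deformation. -/
noncomputable def path (P : Prof ι) (L : Matrix ι ι ℝ) (w : (ι → ℝ) → Matrix ι ι ℝ) (R t : ℝ)
    (x : ι → ℝ) : Matrix ι ι ℝ :=
  Matrix.of fun i j => (1 - Real.smoothTransition (2 * t - 1)) * av P.p0 (fun y => w y i j) x (t * R)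
    + Real.smoothTransition (2 * t - 1) * mean L w i j

variable (P : Prof ι) {L : Matrix ι ι ℝ} {w : (ι → ℝ) → Matrix ι ι ℝ} (R : ℝ)

lemma PathA_av {f : (ι → ℝ) → ℝ} (hf : ContDiff ℝ ∞ f) (s : ℝ) :
    ContDiff ℝ ∞ fun y => av P.p0 f y s :=
  (contDiff_av P.t0 hf).comp (contDiff_const.prodMk contDiff_id)

lemma PathA_pd {f : (ι → ℝ) → ℝ} (hf : ContDiff ℝ ∞ f) (a c s : ℝ) (i : ι) (x : ι → ℝ) :
    pd i (fun y => a * av P.p0 f y s + c) x = a * av P.p0 (pd i f) x s := by
  have h := (PathA_av P hf s).differentiable (by simp) x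
  rw [pd_add (h.const_mul a) (differentiableAt_const c), pd_const, add_zero, pd_const_mul h,
    pd_av P.t0 hf]

lemma PathA_skew (hk : ∀ x, (w x)ᵀ = -w x) (y : ι → ℝ) (i j : ι) : w y j i = -w y i j :=
  congrFun (congrFun (hk y) i) j

lemma path_smooth (hs : SmoothForm w) (i j : ι) :
    ContDiff ℝ ∞ fun p : ℝ × (ι → ℝ) => path P L w R p.1 p.2 i j := by
  have h1 : ContDiff ℝ ∞ fun p : ℝ × (ι → ℝ) => Real.smoothTransition (2 * p.1 - 1) :=
    Real.smoothTransition.contDiff.comp (by fun_prop)
  have h2 : ContDiff ℝ ∞ fun p : ℝ × (ι → ℝ) => av P.p0 (fun y => w y i j) p.2 (p.1 * R) :=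
    (contDiff_av P.t0 (hs i j)).comp (f := fun p : ℝ × (ι → ℝ) => (p.1 * R, p.2)) (by fun_prop)
  exact ((contDiff_const.sub h1).mul h2).add (h1.mul contDiff_const)

lemma path_zero : path P L w R 0 = w := by
  ext x i j
  rw [path, Matrix.of_apply, Real.smoothTransition.zero_of_nonpos (by norm_num), zero_mul, zero_mul,
    av_zero, P.one]
  simp

lemma path_one : path P L w R 1 = fun _ => mean L w := by
  ext x i j
  rw [path, Matrix.of_apply, Real.smoothTransition.one_of_one_le (by norm_num)]
  simp

lemma mean_skew (hk : ∀ x, (w x)ᵀ = -w x) : (mean L w)ᵀ = -mean L w := by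
  ext i j
  simp only [Matrix.transpose_apply, Matrix.neg_apply, mean, Matrix.of_apply]
  rw [← integral_neg]
  simp only [PathA_skew hk _ i j]

lemma path_skew (hk : ∀ x, (w x)ᵀ = -w x) (t : ℝ) (x : ι → ℝ) :
    (path P L w R t x)ᵀ = -path P L w R t x := by
  ext i j
  have h1 : mean L w j i = -mean L w i j := congrFun (congrFun (mean_skew hk) i) j
  simp only [Matrix.transpose_apply, Matrix.neg_apply, path, Matrix.of_apply]
  rw [h1, show (fun y => w y j i) = fun y => -w y i j from funext fun y => PathA_skew hk y i j,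
    av_neg]
  ring

lemma path_closed (hs : SmoothForm w)
    (hc : ∀ x i j l, pd i (fun y => w y j l) x + pd j (fun y => w y l i) x
      + pd l (fun y => w y i j) x = 0) (t : ℝ) (x : ι → ℝ) (i j l : ι) :
    pd i (fun y => path P L w R t y j l) x + pd j (fun y => path P L w R t y l i) x
      + pd l (fun y => path P L w R t y i j) x = 0 := by
  have c : ∀ a b c, Continuous (pd a fun y => w y b c) :=
    fun a b c => (contDiff_pd (hs b c) a).continuous
  simp only [path, Matrix.of_apply]
  rw [PathA_pd P (hs j l), PathA_pd P (hs l i), PathA_pd P (hs i j), ← mul_add, ← mul_add,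
    ← av_add P.t0 (c _ _ _) (c _ _ _), ← av_add P.t0 ((c _ _ _).fun_add (c _ _ _)) (c _ _ _)]
  simp only [hc, av_const, smul_zero, mul_zero]

lemma path_per (hp : Per L w) (t : ℝ) : Per L (path P L w R t) := by
  intro x z
  ext i j
  have h : ∀ v : ι → ℝ, w ((x + L *ᵥ fun i => (z i : ℝ)) + v) = w (x + v) := fun v => by
    rw [add_right_comm, hp]
  simp only [path, Matrix.of_apply, av, h]

lemma path_mean (hL : L.det ≠ 0) (hs : SmoothForm w) (hp : Per L w) (t : ℝ) :
    mean L (path P L w R t) = mean L w := by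
  ext i j
  have h1 := Per.mean_av hL (hs i j).continuous (f := fun y => w y i j)
    (fun x z => congrFun (congrFun (hp x z) i) j) P (t * R)
  have h2 : IntegrableOn (fun u : ι → ℝ => av P.p0 (fun y => w y i j) (L *ᵥ u) (t * R))
      (Set.Icc 0 1) :=
    ((PathA_av P (hs i j) _).continuous.comp
      (continuous_const.matrix_mulVec continuous_id)).integrableOn_Icc
  have h3 : volume.real (Set.Icc (0 : ι → ℝ) 1) = 1 := by
    simp [Measure.real, Real.volume_Icc_pi]
  rw [mean, Matrix.of_apply]
  simp only [path, Matrix.of_apply]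
  rw [integral_add (h2.const_mul _) continuous_const.integrableOn_Icc, integral_const_mul, h1,
    setIntegral_const, h3, one_smul, mean, Matrix.of_apply]
  ring

end Pool.Agent.Work.MP_bf98aa_gt
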