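import Pool.Agent.Work.MP_bf98aa_gt.Basic

/-!
The divergence of `sqrt |det w| • w⁻¹` vanishes for a closed nondegenerate form.

PLAN. Smoothness: entries of det and adjugate are polynomials in the entries (Matrix.det_apply, adjugate_apply,
ContDiff.sum, contDiff_prod), (w x)⁻¹ = (det)⁻¹ • adjugate (Matrix.inv_def, Ring.inverse_eq_inv), ContDiff.log.
pd i f x is the derivative at 0 of t ↦ f (x + t • Pi.single i 1). Jacobi: copy hasDerivAt_det from
Work/MP_3fb46c_gt/FirstVar.lean (20 lines, works for any index type), so pd i (dens w) = dens * trace (Π * ∂i w) / 2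
with Π = (w x)⁻¹. Differentiating w * Π = 1 entrywise (pd_sum, pd_mul) gives ∂i Π = - Π * ∂i w * Π.
With T i p q = pd i w(p,q) x (skew in p q, cyclic sum zero) and Π skew:
∑ i, (1/2) (∑ p q, Π q p T i p q) Π i j = ∑ i p q, Π i p T i p q Π q j: replace T i p q = - T p q i - T q i p; after
swapping p and q in the second sum both halves agree; rename the indices.
-/

set_option autoImplicit false
set_option linter.unusedSectionVars false

open MeasureTheory Metric Matrix
open scoped ContDiff RealInnerProductSpace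

namespace Pool.Agent.Work.MP_bf98aa_gt

variable {ι : Type} [Fintype ι] [DecidableEq ι]

/-- The square root of the absolute value of the determinant. -/
noncomputable def dens (M : Matrix ι ι ℝ) : ℝ := Real.exp (Real.log M.det / 2)

lemma Piola_hasDerivAt_det {L : ℝ → Matrix ι ι ℝ} {L' : Matrix ι ι ℝ} {t : ℝ}
    (h : ∀ i j, HasDerivAt (fun s => L s i j) (L' i j) t) :
    HasDerivAt (fun s => (L s).det) ((L t).adjugate * L').trace t := by
  simp only [Matrix.det_apply']
  have h1 := HasDerivAt.fun_sum (u := Finset.univ) fun (σ : Equiv.Perm ι) _ =>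
    (HasDerivAt.fun_finsetProd (u := Finset.univ) fun (i : ι) _ => h (σ i) i).const_mul
      ((Equiv.Perm.sign σ : ℤ) : ℝ)
  refine h1.congr_deriv ?_
  have h2 : ((L t).adjugate * L').trace = ∑ i, ((L t).updateCol i fun k => L' k i).det := by
    simp only [Matrix.trace, diag]
    refine Finset.sum_congr rfl fun i _ => ?_
    rw [← cramer_apply, cramer_eq_adjugate_mulVec]
    rfl
  rw [h2]
  simp only [Matrix.det_apply', Finset.mul_sum]
  rw [Finset.sum_comm]
  refine Finset.sum_congr rfl fun i _ => Finset.sum_congr rfl fun σ _ => ?_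
  congr 1
  rw [← Finset.mul_prod_erase _ _ (Finset.mem_univ i), smul_eq_mul, mul_comm, updateCol_self]
  congr 1
  refine Finset.prod_congr rfl fun j hj => ?_
  rw [updateCol_ne (Finset.ne_of_mem_erase hj)]

lemma Piola_smooth_det {w : (ι → ℝ) → Matrix ι ι ℝ} (hs : SmoothForm w) :
    ContDiff ℝ ∞ fun x => (w x).det := by
  simp only [Matrix.det_apply']
  exact ContDiff.sum fun σ _ => contDiff_const.mul (contDiff_prod fun i _ => hs _ _)

lemma Piola_smooth_adj {w : (ι → ℝ) → Matrix ι ι ℝ} (hs : SmoothForm w) (i j : ι) :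
    ContDiff ℝ ∞ fun x => (w x).adjugate i j := by
  simp only [adjugate_apply]
  refine Piola_smooth_det (w := fun x => (w x).updateRow j (Pi.single i 1)) fun p q => ?_
  simp only [updateRow_apply]
  split_ifs
  · exact contDiff_const
  · exact hs _ _

lemma Piola_inv_apply (M : Matrix ι ι ℝ) (i j : ι) :
    M⁻¹ i j = (M.det)⁻¹ * M.adjugate i j := by
  rw [Matrix.inv_def, Ring.inverse_eq_inv]
  rfl

lemma Piola_smooth_inv {w : (ι → ℝ) → Matrix ι ι ℝ} (hs : SmoothForm w)
    (hn : ∀ x, (w x).det ≠ 0) (i j : ι) : ContDiff ℝ ∞ fun x => (w x)⁻¹ i j := by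
  simp only [Piola_inv_apply]
  exact ((Piola_smooth_det hs).inv hn).mul (Piola_smooth_adj hs i j)

lemma Piola_smooth_dens {w : (ι → ℝ) → Matrix ι ι ℝ} (hs : SmoothForm w)
    (hn : ∀ x, (w x).det ≠ 0) : ContDiff ℝ ∞ fun x => dens (w x) := by
  unfold dens
  exact (((Piola_smooth_det hs).log hn).div_const 2).exp

lemma smooth_piola {w : (ι → ℝ) → Matrix ι ι ℝ} (hs : SmoothForm w) (hn : ∀ x, (w x).det ≠ 0)
    (i j : ι) : ContDiff ℝ ∞ fun x => dens (w x) * (w x)⁻¹ i j :=
  (Piola_smooth_dens hs hn).mul (Piola_smooth_inv hs hn i j)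

lemma Piola_line {f : (ι → ℝ) → ℝ} {x : ι → ℝ} (hf : DifferentiableAt ℝ f x) (i : ι) :
    HasDerivAt (fun t : ℝ => f (x + t • (Pi.single i 1 : ι → ℝ))) (pd i f x) 0 := by
  have h1 : HasDerivAt (fun t : ℝ => x + t • (Pi.single i 1 : ι → ℝ)) (Pi.single i 1) 0 := by
    simpa using ((hasDerivAt_id (0 : ℝ)).smul_const (Pi.single i 1 : ι → ℝ)).const_add x
  have h2 : HasFDerivAt f (fderiv ℝ f x) (x + (0 : ℝ) • (Pi.single i 1 : ι → ℝ)) := by
    simpa using hf.hasFDerivAt
  exact h2.comp_hasDerivAt 0 h1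

lemma Piola_pd_dens {w : (ι → ℝ) → Matrix ι ι ℝ} (hs : SmoothForm w)
    (hn : ∀ x, (w x).det ≠ 0) (x : ι → ℝ) (i : ι) :
    pd i (fun y => dens (w y)) x
      = dens (w x) * (∑ q, ∑ p, (w x)⁻¹ q p * pd i (fun y => w y p q) x) / 2 := by
  have h0 := Piola_line ((Piola_smooth_dens hs hn).differentiable (by simp) x) i
  have h1 : HasDerivAt (fun t : ℝ => (w (x + t • (Pi.single i 1 : ι → ℝ))).det)
      ((w (x + (0 : ℝ) • (Pi.single i 1 : ι → ℝ))).adjugate
        * Matrix.of fun p q => pd i (fun y => w y p q) x).trace 0 :=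
    Piola_hasDerivAt_det (L := fun t : ℝ => w (x + t • (Pi.single i 1 : ι → ℝ)))
      fun p q => Piola_line ((hs p q).differentiable (by simp) x) i
  have h2 := ((h1.log (hn _)).div_const 2).exp
  have h3 := h0.unique h2
  rw [h3]
  simp only [zero_smul, add_zero, Matrix.trace, diag, Matrix.mul_apply, of_apply,
    Piola_inv_apply, dens]
  rw [mul_div_assoc]
  congr 2
  rw [Finset.sum_div]
  refine Finset.sum_congr rfl fun q _ => ?_
  rw [Finset.sum_div]
  refine Finset.sum_congr rfl fun p _ => ?_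
  rw [div_eq_mul_inv]
  ring

lemma Piola_pd_inv {w : (ι → ℝ) → Matrix ι ι ℝ} (hs : SmoothForm w)
    (hn : ∀ x, (w x).det ≠ 0) (x : ι → ℝ) (i a j : ι) :
    pd i (fun y => (w y)⁻¹ a j) x
      = -∑ p, ∑ q, (w x)⁻¹ a p * pd i (fun y => w y p q) x * (w x)⁻¹ q j := by
  set T : Matrix ι ι ℝ := Matrix.of fun p q => pd i (fun y => w y p q) x with hT
  set D : Matrix ι ι ℝ := Matrix.of fun p q => pd i (fun y => (w y)⁻¹ p q) x with hD
  have hu : ∀ y, IsUnit (w y).det := fun y => isUnit_iff_ne_zero.2 (hn y)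
  have h1 : T * (w x)⁻¹ + w x * D = 0 := by
    ext p q
    have h2 : (fun y => ∑ l, w y p l * (w y)⁻¹ l q) = fun _ => (1 : Matrix ι ι ℝ) p q := by
      funext y
      rw [← Matrix.mul_apply, Matrix.mul_nonsing_inv _ (hu y)]
    have h3 := congrArg (fun f => pd i f x) h2
    simp only [pd_const] at h3
    rw [pd_sum _ fun l _ => ((hs p l).mul (Piola_smooth_inv hs hn l q)).differentiable
      (by simp) x] at h3
    simp only [Matrix.add_apply, Matrix.mul_apply, Matrix.zero_apply, hT, hD, of_apply]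
    rw [← Finset.sum_add_distrib, ← h3]
    refine Finset.sum_congr rfl fun l _ => ?_
    rw [pd_mul ((hs p l).differentiable (by simp) x)
      ((Piola_smooth_inv hs hn l q).differentiable (by simp) x)]
  have h4 : D = -((w x)⁻¹ * T * (w x)⁻¹) := by
    have h5 : w x * D = -(T * (w x)⁻¹) := eq_neg_of_add_eq_zero_right h1
    calc D = (w x)⁻¹ * (w x * D) := by
          rw [← Matrix.mul_assoc, Matrix.nonsing_inv_mul _ (hu x), Matrix.one_mul]
      _ = _ := by rw [h5, Matrix.mul_neg, Matrix.mul_assoc]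
  have h6 := congrFun (congrFun h4 a) j
  simp only [hD, hT, of_apply, Matrix.neg_apply, Matrix.mul_apply, Finset.sum_mul] at h6
  rw [h6, Finset.sum_comm]

lemma Piola_algebra (P : ι → ι → ℝ) (T : ι → ι → ι → ℝ) (hP : ∀ p q, P q p = -P p q)
    (hT : ∀ i p q, T i q p = -T i p q) (hc : ∀ i p q, T i p q + T p q i + T q i p = 0) (j : ι) :
    ∑ i, (∑ q, ∑ p, P q p * T i p q) * P i j
      = 2 * ∑ i, ∑ p, ∑ q, P i p * T i p q * P q j := by
  have h1 : ∀ i, (∑ q, ∑ p, P q p * T i p q) * P i j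
      = (∑ q, ∑ p, P p q * T p q i * P i j) + ∑ q, ∑ p, P q p * T q p i * P i j := by
    intro i
    rw [← Finset.sum_add_distrib, Finset.sum_mul]
    refine Finset.sum_congr rfl fun q _ => ?_
    rw [← Finset.sum_add_distrib, Finset.sum_mul]
    refine Finset.sum_congr rfl fun p _ => ?_
    have e1 : T i p q = -T p q i + T q p i := by
      have := hc i p q
      have := hT q p i
      linarith
    rw [e1, hP p q]
    ring
  have h2 : ∑ i, ∑ q, ∑ p, P q p * T q p i * P i j
      = ∑ i, ∑ p, ∑ q, P i p * T i p q * P q j := by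
    rw [Finset.sum_comm]
    exact Finset.sum_congr rfl fun q _ => Finset.sum_comm
  have h3 : ∑ i, ∑ q, ∑ p, P p q * T p q i * P i j
      = ∑ i, ∑ q, ∑ p, P q p * T q p i * P i j :=
    Finset.sum_congr rfl fun i _ => Finset.sum_comm
  simp only [h1]
  rw [Finset.sum_add_distrib, h3, h2, two_mul]

lemma piola {w : (ι → ℝ) → Matrix ι ι ℝ} (hs : SmoothForm w) (hk : ∀ x, (w x)ᵀ = -w x)
    (hn : ∀ x, (w x).det ≠ 0)
    (hc : ∀ x i j l, pd i (fun y => w y j l) x + pd j (fun y => w y l i) x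
      + pd l (fun y => w y i j) x = 0) (x : ι → ℝ) (j : ι) :
    ∑ i, pd i (fun y => dens (w y) * (w y)⁻¹ i j) x = 0 := by
  have hP : ∀ p q, (w x)⁻¹ q p = -(w x)⁻¹ p q := by
    intro p q
    have h1 : ((w x)⁻¹)ᵀ = -(w x)⁻¹ := by
      rw [Matrix.transpose_nonsing_inv, hk x]
      refine Matrix.inv_eq_left_inv ?_
      rw [Matrix.neg_mul, Matrix.mul_neg, neg_neg,
        Matrix.nonsing_inv_mul _ (isUnit_iff_ne_zero.2 (hn x))]
    exact congrFun (congrFun h1 p) q
  have hT : ∀ i p q, pd i (fun y => w y q p) x = -pd i (fun y => w y p q) x := by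
    intro i p q
    rw [← pd_neg]
    congr 1
    funext y
    exact congrFun (congrFun (hk y) p) q
  have h2 := Piola_algebra (fun p q => (w x)⁻¹ p q) (fun i p q => pd i (fun y => w y p q) x)
    hP hT (hc x) j
  have h3 : ∀ i, pd i (fun y => dens (w y) * (w y)⁻¹ i j) x
      = dens (w x) / 2 * ((∑ q, ∑ p, (w x)⁻¹ q p * pd i (fun y => w y p q) x) * (w x)⁻¹ i j)
        - dens (w x) * ∑ p, ∑ q, (w x)⁻¹ i p * pd i (fun y => w y p q) x * (w x)⁻¹ q j := by
    intro i
    rw [pd_mul ((Piola_smooth_dens hs hn).differentiable (by simp) x)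
      ((Piola_smooth_inv hs hn i j).differentiable (by simp) x), Piola_pd_dens hs hn,
      Piola_pd_inv hs hn]
    ring
  simp only [h3]
  rw [Finset.sum_sub_distrib, ← Finset.mul_sum, ← Finset.mul_sum, h2]
  ring

end Pool.Agent.Work.MP_bf98aa_gt
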