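import Pool.Agent.Work.MP_bf98aa_gt.Basic

/-!
Pointwise inequalities for the map `x ↦ ‖x‖ ^ k • x`, part 1.

PLAN. Write X = ‖x‖, B = ‖b‖, z = x - b, Z = ‖z‖; X ≤ B + Z, Z ≤ X + B, (p + q) ^ k ≤ 2 ^ k (p ^ k + q ^ k)
(add_pow_le gives 2 ^ (k - 1)).
* mono_G: the inner product equals (X^k + B^k) Z^2 / 2 + (X^k - B^k) (X^2 - B^2) / 2 (expand with
  inner_sub_left, inner_smul_left, real_inner_self_eq_norm_sq, norm_sub_sq_real); the last product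
  is nonnegative (both factors have the sign of X - B); B^k + Z^k ≤ (1 + 2^k) (X^k + B^k).
* lip_G: X^k • x - B^k • b = X^k • z + (X^k - B^k) • b and |X^k - B^k| B ≤ k |X - B| max(X,B)^k
  (abs_pow_sub_pow_le or induction), |X - B| ≤ Z.
* near_le: triangle inequality, X^(k+1) ≤ 2^(k+1) (B^(k+1) + Z^(k+1)), e ≤ 1.
* coercive: inner = inner (Phi x - Phi b) z + inner (f - Phi x) z ≥ c0 G - e X^(k+1) Z;
  e B^(k+1) Z ≤ t B^k Z^2 + e^2 B^(k+2) / (4 t) and e Z^(k+2) ≤ e0 G.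
-/

set_option autoImplicit false
set_option linter.unusedSectionVars false

open MeasureTheory Metric Matrix
open scoped ContDiff RealInnerProductSpace

namespace Pool.Agent.Work.MP_bf98aa_gt

variable {E : Type} [NormedAddCommGroup E] [InnerProductSpace ℝ E]

lemma Point1_add (k : ℕ) {p q r : ℝ} (hp : 0 ≤ p) (hq : 0 ≤ q) (hr : 0 ≤ r) (h : r ≤ p + q) :
    r ^ k ≤ 2 ^ k * (p ^ k + q ^ k) :=
  (pow_le_pow_left₀ hr h k).trans ((add_pow_le hp hq k).trans (mul_le_mul_of_nonneg_right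
    (pow_le_pow_right₀ one_le_two (Nat.sub_le k 1)) (by positivity)))

lemma Point1_tri (x b : E) : ‖x‖ ≤ ‖b‖ + ‖x - b‖ := by
  linarith [norm_sub_norm_le x b]

lemma mono_G (k : ℕ) : ∃ c : ℝ, 0 < c ∧ ∀ x b : E,
    c * G k b (x - b) ≤ ⟪‖x‖ ^ k • x - ‖b‖ ^ k • b, x - b⟫ := by
  refine ⟨1 / (2 * (1 + 2 ^ k)), by positivity, fun x b => ?_⟩
  have h1 := Point1_add k (norm_nonneg x) (norm_nonneg b) (norm_nonneg _) (norm_sub_le x b)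
  have h2 := norm_sub_sq_real x b
  have h3 : 0 ≤ (‖x‖ ^ k - ‖b‖ ^ k) * (‖x‖ ^ 2 - ‖b‖ ^ 2) := by
    rcases le_total ‖x‖ ‖b‖ with h | h
    · exact mul_nonneg_of_nonpos_of_nonpos (sub_nonpos.2 (pow_le_pow_left₀ (norm_nonneg _) h _))
        (sub_nonpos.2 (pow_le_pow_left₀ (norm_nonneg _) h _))
    · exact mul_nonneg (sub_nonneg.2 (pow_le_pow_left₀ (norm_nonneg _) h _))
        (sub_nonneg.2 (pow_le_pow_left₀ (norm_nonneg _) h _))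
  have h4 : ⟪‖x‖ ^ k • x - ‖b‖ ^ k • b, x - b⟫ = (‖x‖ ^ k + ‖b‖ ^ k) * ‖x - b‖ ^ 2 / 2 +
      (‖x‖ ^ k - ‖b‖ ^ k) * (‖x‖ ^ 2 - ‖b‖ ^ 2) / 2 := by
    rw [h2, inner_sub_left, real_inner_smul_left, real_inner_smul_left, inner_sub_right,
      inner_sub_right, real_inner_self_eq_norm_sq, real_inner_self_eq_norm_sq, real_inner_comm x b]
    ring
  have h5 : ‖b‖ ^ k + ‖x - b‖ ^ k ≤ (1 + 2 ^ k) * (‖x‖ ^ k + ‖b‖ ^ k) := by
    have : 0 ≤ ‖x‖ ^ k := by positivity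
    linarith
  have h6 := mul_le_mul_of_nonneg_right h5 (sq_nonneg ‖x - b‖)
  rw [h4, G, div_mul_eq_mul_div, one_mul, div_le_iff₀ (by positivity)]
  have h7 := mul_nonneg h3 (by positivity : (0 : ℝ) ≤ 1 + 2 ^ k)
  nlinarith

lemma lip_G (k : ℕ) : ∃ C : ℝ, 0 < C ∧ ∀ x b : E,
    ‖‖x‖ ^ k • x - ‖b‖ ^ k • b‖ ≤ C * ((‖b‖ ^ k + ‖x - b‖ ^ k) * ‖x - b‖) := by
  refine ⟨2 ^ k * (1 + k), by positivity, fun x b => ?_⟩
  have e : ‖x‖ ^ k • x - ‖b‖ ^ k • b = ‖x‖ ^ k • (x - b) + (‖x‖ ^ k - ‖b‖ ^ k) • b := by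
    module
  have hx := Point1_tri x b
  have hM : max ‖x‖ ‖b‖ ≤ ‖b‖ + ‖x - b‖ := max_le hx (by linarith [norm_nonneg (x - b)])
  have h0 : 0 ≤ max ‖x‖ ‖b‖ := le_max_of_le_left (norm_nonneg _)
  have h1 := Point1_add k (norm_nonneg b) (norm_nonneg (x - b)) (norm_nonneg x) hx
  have h2 := Point1_add k (norm_nonneg b) (norm_nonneg (x - b)) h0 hM
  have h3 : |‖x‖ ^ k - ‖b‖ ^ k| * ‖b‖ ≤ ‖x - b‖ * (k * max ‖x‖ ‖b‖ ^ k) := by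
    rcases k with _ | k
    · simp
    have h4 := abs_pow_sub_pow_le ‖x‖ ‖b‖ (k + 1)
    rw [abs_norm, abs_norm, Nat.add_sub_cancel, mul_assoc] at h4
    have h5 := mul_le_mul (h4.trans (mul_le_mul_of_nonneg_right (abs_norm_sub_norm_le x b)
      (by positivity))) (le_max_right ‖x‖ ‖b‖) (norm_nonneg _) (by positivity)
    refine h5.trans (le_of_eq ?_)
    ring
  have h6 := mul_le_mul_of_nonneg_right h1 (norm_nonneg (x - b))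
  have h7 := mul_le_mul_of_nonneg_left h2 (by positivity : 0 ≤ ‖x - b‖ * k)
  rw [e]
  refine (norm_add_le _ _).trans ?_
  rw [norm_smul, norm_smul, Real.norm_eq_abs, Real.norm_eq_abs, abs_of_nonneg (by positivity)]
  nlinarith

lemma near_le (k : ℕ) : ∃ C : ℝ, 0 < C ∧ ∀ e : ℝ, 0 ≤ e → e ≤ 1 → ∀ x f b : E,
    ‖f - ‖x‖ ^ k • x‖ ≤ e * ‖x‖ ^ (k + 1) →
    ‖f - ‖b‖ ^ k • b‖ ≤ C * ((‖b‖ ^ k + ‖x - b‖ ^ k) * ‖x - b‖ + e * ‖b‖ ^ (k + 1)) := by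
  obtain ⟨C, hC, h⟩ := lip_G (E := E) k
  refine ⟨C + 2 ^ (k + 1), by positivity, fun e e0 e1 x f b hf => ?_⟩
  have h1 := norm_sub_le_norm_sub_add_norm_sub f (‖x‖ ^ k • x) (‖b‖ ^ k • b)
  have h2 := mul_le_mul_of_nonneg_left (Point1_add (k + 1) (norm_nonneg b) (norm_nonneg (x - b))
    (norm_nonneg x) (Point1_tri x b)) e0
  have h3 : e * ‖x - b‖ ^ (k + 1) ≤ (‖b‖ ^ k + ‖x - b‖ ^ k) * ‖x - b‖ := by
    have a1 : e * ‖x - b‖ ^ (k + 1) ≤ ‖x - b‖ ^ (k + 1) := mul_le_of_le_one_left (by positivity) e1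
    have a2 : 0 ≤ ‖b‖ ^ k * ‖x - b‖ := by positivity
    rw [pow_succ] at a1 ⊢
    linarith
  have h4 := mul_le_mul_of_nonneg_left h3 (by positivity : (0 : ℝ) ≤ 2 ^ (k + 1))
  have h5 : 0 ≤ C * (e * ‖b‖ ^ (k + 1)) := by positivity
  have h6 := h x b
  nlinarith

lemma coercive (k : ℕ) : ∃ c C e0 : ℝ, 0 < c ∧ 0 < C ∧ 0 < e0 ∧ ∀ e : ℝ, 0 ≤ e → e ≤ e0 →
    ∀ x f b : E, ‖f - ‖x‖ ^ k • x‖ ≤ e * ‖x‖ ^ (k + 1) →
    c * G k b (x - b) ≤ ⟪f - ‖b‖ ^ k • b, x - b⟫ + C * (e ^ 2 * ‖b‖ ^ (k + 2)) := by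
  obtain ⟨c, hc, h⟩ := mono_G (E := E) k
  obtain ⟨K, hK, hK'⟩ : ∃ K : ℝ, 0 < K ∧ K = 2 ^ (k + 1) := ⟨_, by positivity, rfl⟩
  refine ⟨c / 2, K ^ 2 / c, c / (4 * K), by positivity, by positivity, by positivity,
    fun e e0 e1 x f b hf => ?_⟩
  have h1 : ⟪f - ‖b‖ ^ k • b, x - b⟫ =
      ⟪f - ‖x‖ ^ k • x, x - b⟫ + ⟪‖x‖ ^ k • x - ‖b‖ ^ k • b, x - b⟫ := by
    rw [← inner_add_left, sub_add_sub_cancel]
  have h2 := (neg_le_abs _).trans ((abs_real_inner_le_norm (f - ‖x‖ ^ k • x) (x - b)).trans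
    (mul_le_mul_of_nonneg_right hf (norm_nonneg _)))
  have h3 := mul_le_mul_of_nonneg_left (Point1_add (k + 1) (norm_nonneg b) (norm_nonneg (x - b))
    (norm_nonneg x) (Point1_tri x b)) (by positivity : 0 ≤ e * ‖x - b‖)
  rw [← hK'] at h3
  have h4 : K * e ≤ c / 4 := by
    rw [le_div_iff₀ (by positivity)] at e1
    linarith
  have h5 := mul_le_mul h4 (pow_le_G k b (x - b)) (by positivity) (by positivity)
  have h6 := mul_le_mul_of_nonneg_left (pow_mul_sq_le_G k b (x - b)) hc.le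
  have h7 : 0 ≤ ‖b‖ ^ k * (c * ‖x - b‖ - 2 * K * e * ‖b‖) ^ 2 / (4 * c) := by positivity
  have h8 : ‖b‖ ^ k * (c * ‖x - b‖ - 2 * K * e * ‖b‖) ^ 2 / (4 * c) =
      c * (‖b‖ ^ k * ‖x - b‖ ^ 2) / 4 - K * e * (‖b‖ ^ (k + 1) * ‖x - b‖) +
        K ^ 2 / c * (e ^ 2 * ‖b‖ ^ (k + 2)) := by
    field_simp
    ring
  have h9 := h x b
  have h10 : ‖x - b‖ ^ (k + 2) = ‖x - b‖ ^ (k + 1) * ‖x - b‖ := pow_succ _ _
  rw [h10] at h5
  rw [h1]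
  nlinarith

end Pool.Agent.Work.MP_bf98aa_gt
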