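import Pool.Agent.Work.MP_bf98aa_gt.Defs

/-!
The positive spectral projection of `i H` depends continuously on the skew invertible matrix `H`.

PLAN. open scoped Matrix.Norms.L2Operator (Matrix ι ι ℂ is a CStarAlgebra; the topology is the product topology by
construction). K H = Complex.I • H.map Complex.ofReal is continuous in H, selfadjoint for skew H, and invertible
(det (K H) = I ^ N * det H), so 0 is not in spectrum ℝ (K H). f x = if 0 < x then 1 else 0 is continuous on the open set
{0}ᶜ. P H = cfc f (K H). Continuity: ContinuousOn.cfc_of_mem_nhdsSet with s = {0}ᶜ. Idempotent: cfc_mul and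
f * f = f. If H * H = -1 then K * K = 1, the spectrum lies in {1, -1}
(spectrum mapping, or SpectrumRestricts free argument: K - r is invertible with inverse (1 - r^2)⁻¹ • (K + r)), there
2 f x = 1 + x, so cfc_congr, cfc_add, cfc_const_one, cfc_id'. An alternative is P = (1 + K * (CFC.abs K)⁻¹) / 2 with
CFC.continuous_abs. The case of empty ι is allowed.
-/

set_option autoImplicit false
set_option linter.unusedSectionVars false

open Matrix
open scoped ContDiff Real

namespace Pool.Agent.Work.MP_bf98aa_gt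

variable {ι : Type} [Fintype ι] [DecidableEq ι]

lemma Proj_abstract (A : Type) [CStarAlgebra A] : ∃ P : A → A,
    ContinuousOn P {a | IsSelfAdjoint a ∧ IsUnit a} ∧
    (∀ a, IsSelfAdjoint a → IsUnit a → P a * P a = P a) ∧
    ∀ a, IsSelfAdjoint a → a * a = 1 → P a + P a = 1 + a := by
  obtain ⟨f, hf⟩ : ∃ f : ℝ → ℝ, f = fun x => if 0 < x then 1 else 0 := ⟨_, rfl⟩
  have hc : ContinuousOn f {0}ᶜ := by
    intro x hx
    apply ContinuousAt.continuousWithinAt
    rcases lt_or_gt_of_ne (show x ≠ 0 from hx) with h | h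
    · refine (continuousAt_const (y := (0 : ℝ))).congr ?_
      filter_upwards [Iio_mem_nhds h] with y hy
      rw [hf]
      exact (if_neg (not_lt.mpr (le_of_lt hy))).symm
    · refine (continuousAt_const (y := (1 : ℝ))).congr ?_
      filter_upwards [Ioi_mem_nhds h] with y hy
      rw [hf]
      exact (if_pos hy).symm
  have hs : ∀ a : A, IsUnit a → spectrum ℝ a ⊆ {0}ᶜ := by
    intro a ha x hx e
    rw [Set.mem_singleton_iff] at e
    rw [e] at hx
    exact (spectrum.zero_notMem_iff ℝ).mpr ha hx
  refine ⟨fun a => cfc f a, ?_, ?_, ?_⟩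
  · refine ContinuousOn.cfc_of_mem_nhdsSet (s := {0}ᶜ) f (a := fun a : A => a) ?_
      continuousOn_id (fun a ha => ha.1) hc
    refine isOpen_compl_singleton.mem_nhdsSet.mpr ?_
    exact Set.iUnion₂_subset fun a ha => hs a ha.2
  · intro a ha hu
    have hca : ContinuousOn f (spectrum ℝ a) := hc.mono (hs a hu)
    rw [← cfc_mul f f a hca hca]
    congr 1
    funext x
    rw [hf]
    beta_reduce
    split_ifs <;> simp
  · intro a ha h1
    have hu : IsUnit a := ⟨⟨a, a, h1, h1⟩, rfl⟩
    have hca : ContinuousOn f (spectrum ℝ a) := hc.mono (hs a hu)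
    have hsq : ∀ x ∈ spectrum ℝ a, x * x = 1 := by
      have e : cfc (fun x : ℝ => x * x) a = cfc (fun _ : ℝ => (1 : ℝ)) a := by
        rw [cfc_mul (fun x : ℝ => x) (fun x : ℝ => x) a, cfc_id' ℝ a, h1, cfc_const_one ℝ a]
      exact fun x hx => eqOn_of_cfc_eq_cfc e (by fun_prop) (by fun_prop) ha hx
    beta_reduce
    rw [← cfc_add a f f hca hca]
    have e2 : cfc (fun x : ℝ => 1 + x) a = 1 + a := by
      rw [cfc_add a (fun _ : ℝ => (1 : ℝ)) (fun x : ℝ => x), cfc_id' ℝ a, cfc_const_one ℝ a]
    rw [← e2]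
    refine cfc_congr fun x hx => ?_
    have h2 := hsq x hx
    rw [hf]
    beta_reduce
    split_ifs with h3
    · nlinarith
    · nlinarith

lemma exists_proj : ∃ P : Matrix ι ι ℝ → Matrix ι ι ℂ,
    ContinuousOn P {H | Hᵀ = -H ∧ H.det ≠ 0} ∧
    (∀ H, Hᵀ = -H → H.det ≠ 0 → P H * P H = P H) ∧
    ∀ H, Hᵀ = -H → H * H = -1 → (2 : ℂ) • P H = 1 + Complex.I • H.map Complex.ofReal := by
  open scoped Matrix.Norms.L2Operator in
  obtain ⟨P, h1, h2, h3⟩ := Proj_abstract (Matrix ι ι ℂ)
  have hsa : ∀ H : Matrix ι ι ℝ, Hᵀ = -H → IsSelfAdjoint (Complex.I • H.map Complex.ofReal) := by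
    intro H hH
    ext i j
    have e := congrFun (congrFun hH i) j
    simp only [transpose_apply] at e
    simp [Matrix.star_apply, e]
  have hu : ∀ H : Matrix ι ι ℝ, H.det ≠ 0 → IsUnit (Complex.I • H.map Complex.ofReal) := by
    intro H hH
    rw [Matrix.isUnit_iff_isUnit_det, isUnit_iff_ne_zero, Matrix.det_smul]
    refine mul_ne_zero (pow_ne_zero _ Complex.I_ne_zero) ?_
    have e : (H.map Complex.ofReal).det = (H.det : ℂ) := (Complex.ofRealHom.map_det H).symm
    rw [e]
    exact_mod_cast hH
  have hK : Continuous fun H : Matrix ι ι ℝ => Complex.I • H.map Complex.ofReal :=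
    (continuous_id.matrix_map Complex.continuous_ofReal).const_smul Complex.I
  refine ⟨fun H => P (Complex.I • H.map Complex.ofReal), ?_, ?_, ?_⟩
  · exact h1.comp hK.continuousOn fun H hH => ⟨hsa H hH.1, hu H hH.2⟩
  · exact fun H a b => h2 _ (hsa H a) (hu H b)
  · intro H a b
    rw [two_smul]
    refine h3 _ (hsa H a) ?_
    have e : H.map Complex.ofReal * H.map Complex.ofReal = -1 := by
      have := congrArg (Complex.ofRealHom.mapMatrix (m := ι)) b
      rw [map_mul, map_neg, map_one] at this
      exact this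
    rw [smul_mul_smul_comm, e, Complex.I_mul_I]
    simp

end Pool.Agent.Work.MP_bf98aa_gt
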