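import Pool.Agent.Work.MP_bf98aa_gt.Basic

/-!
The div-curl estimate for translations.

PLAN. D y = F y - b' is skew with zero divergence. I t = ∫ φ y * ⟪w (y + t • v), D y⟫. By inner_eq it is a finite
sum of integrals of φ y * D y (j,l) * w (y + t • v) (j,l); differentiate in t under the integral
(hasDerivAt_integral_of_dominated_loc_of_deriv_le, bound = constant times indicator of the cube, the
derivative of w is bounded on a compact set; or rewrite as an integral over the cube). I' t =
∑ j l m, v m ∫ φ D(j,l) * pd m w(j,l) (y + t • v) (fderiv_apply_eq). Closedness and skewness give pointwise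
∑ j l, D(j,l) pd m w(j,l) = -2 ∑ j l, D(j,l) pd j w(l,m). Integrate by parts (integral_mul_pd with the
function φ * D(j,l), pd_mul, pd_add_right, g y = w (y + t • v) (l,m) - b (l,m)); the terms with pd j D(j,l)
sum to zero over j. So |I' t| ≤ 2 ∑ j l m, |v m| ∫ |pd j φ| |D(j,l)| |w(l,m) - b(l,m)| ≤ 2 N^3 ‖v‖ Λ B
(abs_apply_le, pd_eq_zero_of_not_mem). Conclude with norm_image_sub_le_of_norm_deriv_le_segment_01'
(or Convex.norm_image_sub_le_of_norm_hasDerivWithin_le).
-/

set_option autoImplicit false
set_option linter.unusedSectionVars false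

open MeasureTheory Metric Matrix
open scoped ContDiff RealInnerProductSpace

namespace Pool.Agent.Work.MP_bf98aa_gt

variable {ι : Type} [Fintype ι] [DecidableEq ι]

lemma TE_parts {φ g : (ι → ℝ) → ℝ} {D : ι → (ι → ℝ) → ℝ} (hφ : ContDiff ℝ ∞ φ)
    (hc : HasCompactSupport φ) (hg : ContDiff ℝ ∞ g) (hD : ∀ j, ContDiff ℝ ∞ (D j))
    (hd : ∀ y, ∑ j, pd j (D j) y = 0) :
    ∫ y, φ y * ∑ j, D j y * pd j g y = -∫ y, ∑ j, pd j φ y * D j y * g y := by
  have c1 : ∀ j, HasCompactSupport fun y => φ y * D j y := fun j => hc.mul_right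
  have c2 : ∀ j, HasCompactSupport (pd j fun y => φ y * D j y) := fun j =>
    ((c1 j).fderiv (𝕜 := ℝ)).comp_left
      (g := fun A : (ι → ℝ) →L[ℝ] ℝ => A (Pi.single j 1)) rfl
  have h1 : ∀ y, φ y * ∑ j, D j y * pd j g y = ∑ j, φ y * D j y * pd j g y := fun y => by
    simp only [Finset.mul_sum, mul_assoc]
  have h2 : ∀ y, ∑ j, pd j φ y * D j y * g y = ∑ j, pd j (fun y => φ y * D j y) y * g y := by
    intro y
    simp only [fun j => pd_mul (hφ.differentiable (by simp) y) ((hD j).differentiable (by simp) y) j,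
      ← Finset.sum_mul, Finset.sum_add_distrib, ← Finset.mul_sum, hd y, mul_zero, add_zero]
  simp only [h1, h2]
  rw [integral_finsetSum, integral_finsetSum, ← Finset.sum_neg_distrib]
  · exact Finset.sum_congr rfl fun j _ => integral_mul_pd (hφ.mul (hD j)) (c1 j) hg j
  · exact fun j _ => ((contDiff_pd (hφ.mul (hD j)) j).continuous.mul
      hg.continuous).integrable_of_hasCompactSupport (c2 j).mul_right
  · exact fun j _ => ((hφ.mul (hD j)).continuous.mul
      (contDiff_pd hg j).continuous).integrable_of_hasCompactSupport (c1 j).mul_right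

lemma TE_index {w : (ι → ℝ) → W ι} (skw : ∀ x, SkewW (w x)) (hc : ClosedW w) {D : W ι}
    (hD : SkewW D) (v z : ι → ℝ) :
    ∑ j, ∑ l, (∑ m, v m * pd m (fun y => w y (j, l)) z) * D (j, l) =
      ∑ m, ∑ l, -2 * v m * ∑ j, D (j, l) * pd j (fun y => w y (l, m)) z := by
  have h1 : ∀ m, ∑ j, ∑ l, D (j, l) * pd l (fun y => w y (m, j)) z =
      ∑ j, ∑ l, D (j, l) * pd j (fun y => w y (l, m)) z := by
    intro m
    rw [Finset.sum_comm]
    refine Finset.sum_congr rfl fun j _ => Finset.sum_congr rfl fun l _ => ?_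
    have e : (fun y => w y (m, l)) = fun y => -w y (l, m) := funext fun y => skw y l m
    rw [e, pd_neg, hD j l]
    ring
  have h2 : ∀ m, ∑ j, ∑ l, D (j, l) * pd m (fun y => w y (j, l)) z =
      -2 * ∑ j, ∑ l, D (j, l) * pd j (fun y => w y (l, m)) z := by
    intro m
    have h3 : ∑ j, ∑ l, D (j, l) * pd m (fun y => w y (j, l)) z +
        ∑ j, ∑ l, D (j, l) * pd j (fun y => w y (l, m)) z +
        ∑ j, ∑ l, D (j, l) * pd l (fun y => w y (m, j)) z = 0 := by
      simp only [← Finset.sum_add_distrib, ← mul_add, hc z m, mul_zero, Finset.sum_const_zero]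
    linarith [h1 m]
  calc _ = ∑ j, ∑ l, ∑ m, v m * (D (j, l) * pd m (fun y => w y (j, l)) z) := by
        refine Finset.sum_congr rfl fun j _ => Finset.sum_congr rfl fun l _ => ?_
        rw [Finset.sum_mul]
        exact Finset.sum_congr rfl fun m _ => by ring
    _ = ∑ m, v m * ∑ j, ∑ l, D (j, l) * pd m (fun y => w y (j, l)) z := by
        simp only [Finset.mul_sum]
        rw [Finset.sum_comm_cycle]
    _ = _ := by
        refine Finset.sum_congr rfl fun m _ => ?_
        rw [h2, ← Finset.mul_sum, Finset.sum_comm]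
        ring

lemma TE_slice {w F : (ι → ℝ) → W ι} (sw : SmoothW w) (sF : SmoothW F)
    (skw : ∀ x, SkewW (w x)) (skF : ∀ x, SkewW (F x)) (hc : ClosedW w) (hco : CoclosedW F)
    {φ : (ι → ℝ) → ℝ} (hφ : ContDiff ℝ ∞ φ) {x : ι → ℝ} {r Λ B : ℝ}
    (h0 : ∀ y, y ∉ closedBall x r → φ y = 0) (hΛ : ∀ i y, |pd i φ y| ≤ Λ)
    (b b' : W ι) (hb' : SkewW b') (v c : ι → ℝ)
    (hB : ∫ y in closedBall x r, ‖w (y + c) - b‖ * ‖F y - b'‖ ≤ B) :
    |∫ y, φ y * ∑ j, ∑ l, (∑ m, v m * pd m (fun y => w y (j, l)) (y + c)) * (F y - b') (j, l)|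
      ≤ 2 * (Fintype.card ι : ℝ) ^ 3 * ‖v‖ * Λ * B := by
  have hk := hasCompactSupport_of_ball h0
  have sD : ∀ p, ContDiff ℝ ∞ fun y => (F y - b') p := fun p => (sF p).sub contDiff_const
  have sg : ∀ p, ContDiff ℝ ∞ fun y => (w (y + c) - b) p := fun p =>
    ((sw p).comp (contDiff_id.add contDiff_const)).sub contDiff_const
  have dg : ∀ p j y, pd j (fun y => (w (y + c) - b) p) y = pd j (fun y => w y p) (y + c) := by
    intro p j y
    have h := pd_sub (f := fun y => w (y + c) p) (g := fun _ => b p) (x := y)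
      (((sw p).comp (contDiff_id.add contDiff_const)).differentiable (by simp) y)
      (differentiableAt_const _) j
    rw [pd_const, sub_zero, pd_add_right (f := fun y => w y p)] at h
    exact h
  have dD : ∀ l y, ∑ j, pd j (fun y => (F y - b') (j, l)) y = 0 := by
    intro l y
    rw [← hco y l]
    refine Finset.sum_congr rfl fun j _ => ?_
    have h := pd_sub (f := fun y => F y (j, l)) (g := fun _ => b' (j, l)) (x := y)
      ((sF _).differentiable (by simp) y) (differentiableAt_const _) j
    rw [pd_const, sub_zero] at h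
    exact h
  have cn : Continuous fun y => ‖w (y + c) - b‖ * ‖F y - b'‖ :=
    ((sw.continuous.comp (continuous_add_const c)).sub continuous_const).norm.mul
      (sF.continuous.sub continuous_const).norm
  have key : ∀ l m, |∫ y, φ y * ∑ j, (F y - b') (j, l) * pd j (fun y => w y (l, m)) (y + c)| ≤
      Fintype.card ι * Λ * B := by
    intro l m
    have hΛ0 : 0 ≤ Λ := (abs_nonneg _).trans (hΛ l x)
    simp only [← dg]
    rw [TE_parts (D := fun j y => (F y - b') (j, l)) hφ hk (sg _) (fun j => sD _) (dD l), abs_neg,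
      ← setIntegral_eq_integral_of_forall_compl_eq_zero (s := closedBall x r) (fun y hy => by
        simp only [pd_eq_zero_of_not_mem h0 _ y hy, zero_mul, Finset.sum_const_zero]),
      ← Real.norm_eq_abs]
    refine (norm_integral_le_of_norm_le ((cn.continuousOn.integrableOn_compact
      (isCompact_closedBall x r)).const_mul (Fintype.card ι * Λ)) (ae_of_all _ fun y => ?_)).trans ?_
    · refine (norm_sum_le _ _).trans ?_
      rw [mul_assoc, ← nsmul_eq_mul, ← Finset.card_univ, ← Finset.sum_const]
      refine Finset.sum_le_sum fun j _ => ?_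
      rw [Real.norm_eq_abs, abs_mul, abs_mul, mul_assoc, mul_comm ‖_‖]
      gcongr
      · exact hΛ j y
      · exact abs_apply_le _ _
      · exact abs_apply_le _ _
    · rw [integral_const_mul]
      gcongr
  have ig : ∀ l m, Integrable fun y =>
      φ y * ∑ j, (F y - b') (j, l) * pd j (fun y => w y (l, m)) (y + c) := fun l m =>
    (hφ.continuous.mul (continuous_finsetSum _ fun j _ => (sD _).continuous.mul
      ((contDiff_pd (sw _) j).continuous.comp
        (continuous_add_const c)))).integrable_of_hasCompactSupport hk.mul_right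
  have e : ∀ y, φ y * ∑ j, ∑ l, (∑ m, v m * pd m (fun y => w y (j, l)) (y + c)) *
      (F y - b') (j, l) = ∑ m, ∑ l, -2 * v m *
        (φ y * ∑ j, (F y - b') (j, l) * pd j (fun y => w y (l, m)) (y + c)) := by
    intro y
    rw [TE_index skw hc (D := F y - b') (fun i j => by
      simp only [PiLp.sub_apply, skF y i j, hb' i j]; ring), Finset.mul_sum]
    refine Finset.sum_congr rfl fun m _ => ?_
    rw [Finset.mul_sum]
    exact Finset.sum_congr rfl fun l _ => by ring
  simp only [e]
  rw [integral_finsetSum _ fun m _ => integrable_finsetSum _ fun l _ => (ig l m).const_mul _]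
  refine (Finset.abs_sum_le_sum_abs _ _).trans ?_
  calc _ ≤ ∑ _m : ι, ∑ _l : ι, 2 * ‖v‖ * (Fintype.card ι * Λ * B) := by
        refine Finset.sum_le_sum fun m _ => ?_
        rw [integral_finsetSum _ fun l _ => (ig l m).const_mul _]
        refine (Finset.abs_sum_le_sum_abs _ _).trans (Finset.sum_le_sum fun l _ => ?_)
        rw [integral_const_mul, abs_mul, abs_mul, abs_neg, abs_two]
        exact mul_le_mul (mul_le_mul_of_nonneg_left (norm_le_pi_norm v m) zero_le_two) (key l m)
          (abs_nonneg _) (by positivity)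
    _ = _ := by
        simp only [Finset.sum_const, Finset.card_univ, nsmul_eq_mul]
        ring

lemma translate_estimate {w F : (ι → ℝ) → W ι} (sw : SmoothW w) (sF : SmoothW F)
    (skw : ∀ x, SkewW (w x)) (skF : ∀ x, SkewW (F x)) (hc : ClosedW w) (hco : CoclosedW F)
    {φ : (ι → ℝ) → ℝ} (hφ : ContDiff ℝ ∞ φ) {x : ι → ℝ} {r Λ B : ℝ}
    (h0 : ∀ y, y ∉ closedBall x r → φ y = 0) (hΛ : ∀ i y, |pd i φ y| ≤ Λ)
    (b b' : W ι) (hb' : SkewW b') (v : ι → ℝ)
    (hB : ∀ t ∈ Set.Icc (0 : ℝ) 1,
      ∫ y in closedBall x r, ‖w (y + t • v) - b‖ * ‖F y - b'‖ ≤ B) :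
    |∫ y, φ y * ⟪w (y + v) - w y, F y - b'⟫|
      ≤ 2 * (Fintype.card ι : ℝ) ^ 3 * ‖v‖ * Λ * B := by
  set K : ℝ → (ι → ℝ) → ℝ := fun t y => φ y * ∑ j, ∑ l,
    (∑ m, v m * pd m (fun y => w y (j, l)) (y + t • v)) * (F y - b') (j, l) with hK
  have cK : Continuous (Function.uncurry K) := by
    refine (hφ.continuous.comp continuous_snd).mul (continuous_finsetSum _ fun j _ =>
      continuous_finsetSum _ fun l _ => (continuous_finsetSum _ fun m _ => continuous_const.mul
        ((contDiff_pd (sw _) m).continuous.comp ?_)).mul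
        (((sF (j, l)).continuous.sub continuous_const).comp continuous_snd))
    fun_prop
  have h1 : ∀ y, φ y * ⟪w (y + v) - w y, F y - b'⟫ = ∫ t in (0 : ℝ)..1, K t y := by
    intro y
    have hd : ∀ t : ℝ, HasDerivAt
        (fun t : ℝ => φ y * ∑ j, ∑ l, w (y + t • v) (j, l) * (F y - b') (j, l)) (K t y) t := by
      intro t
      refine HasDerivAt.const_mul _ (HasDerivAt.fun_sum fun j _ => HasDerivAt.fun_sum fun l _ =>
        HasDerivAt.mul_const ?_ _)
      have a1 : HasDerivAt (fun t : ℝ => y + t • v) v t := by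
        simpa using ((hasDerivAt_id t).smul_const v).const_add y
      rw [← fderiv_apply_eq]
      exact ((sw (j, l)).differentiable (by simp) _).hasFDerivAt.comp_hasDerivAt t a1
    rw [intervalIntegral.integral_eq_sub_of_hasDerivAt (fun t _ => hd t)
      ((cK.comp (Continuous.prodMk_left y)).intervalIntegrable _ _), inner_sub_left, inner_eq,
      inner_eq, one_smul, zero_smul, add_zero, mul_sub]
  have h2 : ∀ t y, y ∉ closedBall x r → K t y = 0 := fun t y hy => by
    simp only [hK, h0 y hy, zero_mul]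
  have h3 : Integrable (Function.uncurry K)
      ((volume.restrict (Set.uIoc (0 : ℝ) 1)).prod (volume.restrict (closedBall x r))) := by
    rw [Measure.prod_restrict, Set.uIoc_of_le zero_le_one]
    exact (cK.continuousOn.integrableOn_compact
      (isCompact_Icc.prod (isCompact_closedBall x r))).mono_set
      (Set.prod_mono Set.Ioc_subset_Icc_self subset_rfl)
  simp only [h1]
  rw [← setIntegral_eq_integral_of_forall_compl_eq_zero (s := closedBall x r) (fun y hy => by
    simp only [h2 _ y hy, intervalIntegral.integral_zero]),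
    ← intervalIntegral_integral_swap h3, ← Real.norm_eq_abs]
  refine (intervalIntegral.norm_integral_le_of_norm_le_const
    (C := 2 * (Fintype.card ι : ℝ) ^ 3 * ‖v‖ * Λ * B) fun t ht => ?_).trans (by simp)
  rw [Set.uIoc_of_le zero_le_one] at ht
  rw [setIntegral_eq_integral_of_forall_compl_eq_zero (h2 t)]
  exact TE_slice sw sF skw skF hc hco hφ h0 hΛ b b' hb' v (t • v)
    (hB t (Set.Ioc_subset_Icc_self ht))

end Pool.Agent.Work.MP_bf98aa_gt
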